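import Pool.Agent.Lib.MP_e7fbd4_ag.Mg.G006
import Pool.Agent.Lib.MP_e7fbd4_ag.Mg.G005

/-!
# (Ex3) and (Ex4) for the functors `KV k`
-/

set_option autoImplicit false
set_option linter.unusedSectionVars false
set_option linter.unusedVariables false

namespace Pool.Agent.Lib.MP_e7fbd4_ag

open Matrix Pool.Agent.Lib.MP_c052b4_al

/-- constant loops -/
private noncomputable def sL (A : Type) [Ring A] [Algebra ℂ A] : A →ₐ[ℂ] Loop A := loopOp.s A

/-- the base point -/
private noncomputable def rL (A : Type) [Ring A] [Algebra ℂ A] : Loop A →ₐ[ℂ] A := loopOp.r A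

/-- induced maps -/
private noncomputable def mL {A B : Type} [Ring A] [Algebra ℂ A] [Ring B] [Algebra ℂ B]
    (f : A →ₐ[ℂ] B) : Loop A →ₐ[ℂ] Loop B := loopOp.map f

private theorem rL_sL (A : Type) [Ring A] [Algebra ℂ A] : (rL A).comp (sL A) = AlgHom.id ℂ A :=
  loopOp.r_s A

private theorem rL_mL {A B : Type} [Ring A] [Algebra ℂ A] [Ring B] [Algebra ℂ B]
    (f : A →ₐ[ℂ] B) : (rL B).comp (mL f) = f.comp (rL A) := loopOp.r_nat f

private theorem mL_sL {A B : Type} [Ring A] [Algebra ℂ A] [Ring B] [Algebra ℂ B]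
    (f : A →ₐ[ℂ] B) : (mL f).comp (sL A) = (sL B).comp f := loopOp.s_nat f

section

variable (F : AlgFunctor)

/-- correction of an element -/
private noncomputable def corr (A : Type) [Ring A] [Algebra ℂ A] (x : F.obj (Loop A)) :
    F.obj (Loop A) := x - F.map (sL A) (F.map (rL A) x)

private theorem r_corr (A : Type) [Ring A] [Algebra ℂ A] (x : F.obj (Loop A)) :
    F.map (rL A) (corr F A x) = 0 := by
  unfold corr
  rw [map_sub, F.map_map (rL A) (sL A), rL_sL, F.map_id', sub_self]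

private theorem map_corr {A B : Type} [Ring A] [Algebra ℂ A] [Ring B] [Algebra ℂ B]
    (f : A →ₐ[ℂ] B) (x : F.obj (Loop A)) :
    F.map (mL f) (corr F A x) = corr F B (F.map (mL f) x) := by
  unfold corr
  rw [map_sub, F.map_map (mL f) (sL A), mL_sL, F.map_map _ (rL A), F.map_map (rL B) (mL f), rL_mL,
    F.map_map (sL B)]
  rfl

private theorem corr_of_r {A : Type} [Ring A] [Algebra ℂ A] (x : F.obj (Loop A))
    (h : F.map (rL A) x = 0) : corr F A x = x := by
  unfold corr
  rw [h, map_zero, sub_zero]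

private theorem corr_zero {A : Type} [Ring A] [Algebra ℂ A] : corr F A 0 = 0 := by
  unfold corr
  rw [map_zero, map_zero, sub_zero]

private theorem corr_nsmul {A : Type} [Ring A] [Algebra ℂ A] (k : ℕ) (x : F.obj (Loop A)) :
    corr F A (k • x) = k • corr F A x := by
  unfold corr
  rw [map_nsmul, map_nsmul, smul_sub]

end

section

variable (m : ℕ) [NeZero m] (A : Type) [Ring A] [Algebra ℂ A]

private noncomputable def cl : Cone m (Loop A) →ₐ[ℂ] Loop (Cone m A) := (clE m A).toAlgHom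

private noncomputable def cl' : Loop (Cone m A) →ₐ[ℂ] Cone m (Loop A) := (clE m A).symm.toAlgHom

private theorem cl_cl' : (cl m A).comp (cl' m A) = AlgHom.id ℂ _ :=
  AlgHom.ext fun x => (clE m A).apply_symm_apply x

private theorem cl'_cl : (cl' m A).comp (cl m A) = AlgHom.id ℂ _ :=
  AlgHom.ext fun x => (clE m A).symm_apply_apply x

private noncomputable def fp : Loop (Loop A) →ₐ[ℂ] Loop (Loop A) := (flipE A).toAlgHom

private noncomputable def fp' : Loop (Loop A) →ₐ[ℂ] Loop (Loop A) := (flipE A).symm.toAlgHom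

private theorem fp_fp' : (fp A).comp (fp' A) = AlgHom.id ℂ _ :=
  AlgHom.ext fun x => (flipE A).apply_symm_apply x

private theorem ev0_cl : (mL (coneEv0 m A)).comp (cl m A) = coneEv0 m (Loop A) := by
  refine AlgHom.ext fun f => Subtype.ext (funext fun s => ?_)
  exact clE_apply m f s 0 0 0

private theorem ev1_cl : (mL (coneEv1 m A)).comp (cl m A) = coneEv1 m (Loop A) := by
  refine AlgHom.ext fun f => Subtype.ext (funext fun s => ?_)
  exact clE_apply m f s 1 0 0

private theorem r_fp : (mL (rL A)).comp (fp A) = rL (Loop A) := by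
  refine AlgHom.ext fun f => Subtype.ext (funext fun s => ?_)
  exact flipE_apply f s 0

private theorem j_fp : (mL (jHom m A)).comp (fp A) = (cl m A).comp (jHom m (Loop A)) := by
  refine AlgHom.ext fun f => Subtype.ext (funext fun s => Subtype.ext (funext fun t =>
    Matrix.ext fun i j => ?_))
  refine Eq.trans ?_ (clE_apply m (jHom m (Loop A) f) s t i j).symm
  change Matrix.diagonal (fun i : Fin m => if i = 0 then ((flipE A f).1 s).1 t
    else ((flipE A f).1 s).1 0) i j =
    (Matrix.diagonal (fun i : Fin m => if i = 0 then f.1 t else f.1 0) i j).1 s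
  rw [Matrix.diagonal_apply, Matrix.diagonal_apply, flipE_apply, flipE_apply]
  by_cases h : i = j
  · rw [if_pos h, if_pos h]
    split_ifs <;> rfl
  · rw [if_neg h, if_neg h]
    rfl

end

private noncomputable def fFp (F : AlgFunctor) (A : Type) [Ring A] [Algebra ℂ A] :
    F.obj (Loop (Loop A)) →+ F.obj (Loop (Loop A)) :=
  F.map (A := Loop (Loop A)) (B := Loop (Loop A)) (fp A)

private noncomputable def fFp' (F : AlgFunctor) (A : Type) [Ring A] [Algebra ℂ A] :
    F.obj (Loop (Loop A)) →+ F.obj (Loop (Loop A)) :=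
  F.map (A := Loop (Loop A)) (B := Loop (Loop A)) (fp' A)

private noncomputable def fR (F : AlgFunctor) (A : Type) [Ring A] [Algebra ℂ A] :
    F.obj (Loop A) →+ F.obj A := F.map (A := Loop A) (B := A) (rL A)

private noncomputable def fM (F : AlgFunctor) {A B : Type} [Ring A] [Algebra ℂ A] [Ring B]
    [Algebra ℂ B] (f : A →ₐ[ℂ] B) : F.obj (Loop A) →+ F.obj (Loop B) :=
  F.map (A := Loop A) (B := Loop B) (mL f)

private noncomputable def fC (F : AlgFunctor) (m : ℕ) [NeZero m] (A : Type) [Ring A] [Algebra ℂ A] :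
    F.obj (Cone m (Loop A)) →+ F.obj (Loop (Cone m A)) :=
  F.map (A := Cone m (Loop A)) (B := Loop (Cone m A)) (cl m A)

private noncomputable def fC' (F : AlgFunctor) (m : ℕ) [NeZero m] (A : Type) [Ring A] [Algebra ℂ A] :
    F.obj (Loop (Cone m A)) →+ F.obj (Cone m (Loop A)) :=
  F.map (A := Loop (Cone m A)) (B := Cone m (Loop A)) (cl' m A)

private noncomputable def fJ (F : AlgFunctor) (m : ℕ) [NeZero m] (A : Type) [Ring A]
    [Algebra ℂ A] : F.obj (Loop A) →+ F.obj (Cone m A) :=
  F.map (A := Loop A) (B := Cone m A) (jHom m A)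

private theorem fM_fFp (F : AlgFunctor) (A : Type) [Ring A] [Algebra ℂ A]
    (x : F.obj (Loop (Loop A))) : fM F (rL A) (fFp F A x) = fR F (Loop A) x := by
  unfold fM fFp fR
  rw [F.map_map, r_fp]

private theorem fJ_fFp (F : AlgFunctor) (m : ℕ) [NeZero m] (A : Type) [Ring A] [Algebra ℂ A]
    (x : F.obj (Loop (Loop A))) : fM F (jHom m A) (fFp F A x) = fC F m A (fJ F m (Loop A) x) := by
  unfold fM fFp fC fJ
  rw [F.map_map, F.map_map, j_fp]

private theorem fFp_fFp' (F : AlgFunctor) (A : Type) [Ring A] [Algebra ℂ A]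
    (x : F.obj (Loop (Loop A))) : fFp F A (fFp' F A x) = x := by
  unfold fFp fFp'
  rw [F.map_map, fp_fp', F.map_id']

private theorem fC_fC' (F : AlgFunctor) (m : ℕ) [NeZero m] (A : Type) [Ring A] [Algebra ℂ A]
    (x : F.obj (Loop (Cone m A))) : fC F m A (fC' F m A x) = x := by
  unfold fC fC'
  rw [F.map_map, cl_cl', F.map_id']

private theorem fC'_fC (F : AlgFunctor) (m : ℕ) [NeZero m] (A : Type) [Ring A] [Algebra ℂ A]
    (x : F.obj (Cone m (Loop A))) : fC' F m A (fC F m A x) = x := by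
  unfold fC fC'
  rw [F.map_map, cl'_cl, F.map_id']

private theorem ev0_fC' (F : AlgFunctor) (m : ℕ) [NeZero m] (A : Type) [Ring A] [Algebra ℂ A]
    (x : F.obj (Loop (Cone m A))) :
    F.map (coneEv0 m (Loop A)) (fC' F m A x) = fM F (coneEv0 m A) x := by
  conv_rhs => rw [← fC_fC' F m A x]
  unfold fM fC
  rw [F.map_map, ev0_cl]

private theorem ev1_fC' (F : AlgFunctor) (m : ℕ) [NeZero m] (A : Type) [Ring A] [Algebra ℂ A]
    (x : F.obj (Loop (Cone m A))) :
    F.map (coneEv1 m (Loop A)) (fC' F m A x) = fM F (coneEv1 m A) x := by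
  conv_rhs => rw [← fC_fC' F m A x]
  unfold fM fC
  rw [F.map_map, ev1_cl]

/-- the element of `F(Loop A)` of an element of `(F.rel loopOp)(A)` -/
private noncomputable def rv (F : AlgFunctor) (A : Type) [Ring A] [Algebra ℂ A] :
    (F.rel loopOp).obj A →+ F.obj (Loop A) := relVal F loopOp A

private theorem rv_inj (F : AlgFunctor) (A : Type) [Ring A] [Algebra ℂ A] :
    Function.Injective (rv F A) := relVal_injective F loopOp A

private theorem rv_ker (F : AlgFunctor) (A : Type) [Ring A] [Algebra ℂ A]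
    (x : (F.rel loopOp).obj A) : fR F A (rv F A x) = 0 := relVal_ker F loopOp A x

private theorem exists_rv (F : AlgFunctor) (A : Type) [Ring A] [Algebra ℂ A]
    {y : F.obj (Loop A)} (hy : fR F A y = 0) : ∃ x, rv F A x = y :=
  exists_relVal F loopOp A hy

private theorem rv_map (F : AlgFunctor) {A B : Type} [Ring A] [Algebra ℂ A] [Ring B]
    [Algebra ℂ B] (f : A →ₐ[ℂ] B) (x : (F.rel loopOp).obj A) :
    rv F B ((F.rel loopOp).map f x) = fM F f (rv F A x) := rfl

private theorem fR_corr (F : AlgFunctor) (A : Type) [Ring A] [Algebra ℂ A] (x : F.obj (Loop A)) :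
    fR F A (corr F A x) = 0 := r_corr F A x

private theorem fM_corr (F : AlgFunctor) {A B : Type} [Ring A] [Algebra ℂ A] [Ring B]
    [Algebra ℂ B] (f : A →ₐ[ℂ] B) (x : F.obj (Loop A)) :
    fM F f (corr F A x) = corr F B (fM F f x) := map_corr F f x

theorem Ex3.rel {m : ℕ} [NeZero m] {F : AlgFunctor} (hF : Ex3 m F) : Ex3 m (F.rel loopOp) := by
  intro A _ _ z h0 h1
  have h0' : fM F (coneEv0 m A) (rv F (Cone m A) z) = 0 := by
    rw [← rv_map, h0, map_zero]
  have h1' : fM F (coneEv1 m A) (rv F (Cone m A) z) = 0 := by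
    rw [← rv_map, h1, map_zero]
  obtain ⟨x, hx, hjx⟩ := hF (Loop A) (fC' F m A (rv F (Cone m A) z))
    (by rw [ev0_fC', h0']) (by rw [ev1_fC', h1'])
  change fR F (Loop A) x = 0 at hx
  change fJ F m (Loop A) x = _ at hjx
  have hx2 : fM F (rL A) (fFp F A x) = 0 := by rw [fM_fFp, hx]
  have hx2' : fM F (jHom m A) (fFp F A x) = rv F (Cone m A) z := by
    rw [fJ_fFp, hjx, fC_fC']
  obtain ⟨x3, hx3⟩ := exists_rv F (Loop A) (fR_corr F (Loop A) (fFp F A x))
  refine ⟨x3, rv_inj F A ?_, rv_inj F (Cone m A) ?_⟩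
  · refine (rv_map F (rL A) x3).trans ?_
    rw [map_zero, hx3, fM_corr, hx2, corr_zero]
  · rw [rv_map, hx3, fM_corr, hx2', corr_of_r F _ (rv_ker F (Cone m A) z)]

theorem Ex4.rel {m : ℕ} [NeZero m] {F : AlgFunctor} (hF : Ex4 m F) : Ex4 m (F.rel loopOp) := by
  intro A _ _ x hr hj
  have hr' : fM F (rL A) (rv F (Loop A) x) = 0 :=
    (rv_map F (rL A) x).symm.trans ((congrArg (rv F A) hr).trans (map_zero _))
  have hj' : fM F (jHom m A) (rv F (Loop A) x) = 0 := by
    rw [← rv_map, hj, map_zero]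
  obtain ⟨b, hb, hyb⟩ := hF (Loop A) (fFp' F A (rv F (Loop A) x))
    (by
      change fR F (Loop A) _ = 0
      rw [← fM_fFp, fFp_fFp', hr'])
    (by
      change fJ F m (Loop A) _ = 0
      rw [← fC'_fC F m A (fJ F m (Loop A) _), ← fJ_fFp, fFp_fFp', hj', map_zero])
  change fR F (Loop A) b = 0 at hb
  have hb2 : fM F (rL A) (fFp F A b) = 0 := by rw [fM_fFp, hb]
  have hxb : rv F (Loop A) x = m • fFp F A b := by
    rw [← map_nsmul, ← hyb, fFp_fFp']
  obtain ⟨b3, hb3⟩ := exists_rv F (Loop A) (fR_corr F (Loop A) (fFp F A b))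
  refine ⟨b3, rv_inj F A ?_, rv_inj F (Loop A) ?_⟩
  · refine (rv_map F (rL A) b3).trans ?_
    rw [map_zero, hb3, fM_corr, hb2, corr_zero]
  · rw [map_nsmul, hb3, ← corr_nsmul, ← hxb, corr_of_r F _ (rv_ker F (Loop A) x)]

theorem ex3_KV (m : ℕ) [NeZero m] (k : ℕ) : Ex3 m (KV k) := by
  induction k with
  | zero => exact ex3_KV1 m
  | succ k ih => exact ih.rel

theorem ex4_KV (m : ℕ) [NeZero m] (k : ℕ) : Ex4 m (KV k) := by
  induction k with
  | zero => exact ex4_KV1 m
  | succ k ih => exact ih.rel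

end Pool.Agent.Lib.MP_e7fbd4_ag
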