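import Pool.Agent.Lib.MP_e7fbd4_ag.LauB
import Pool.Agent.Lib.MP_c052b4_al.FinOne

/-!
# The fundamental theorem in degree one: the functor `KV₁.Lau` is `K₀`
-/

set_option autoImplicit false
set_option linter.unusedSectionVars false

namespace Pool.Agent.Lib.MP_e7fbd4_ag

open Matrix Pool.Agent.Lib.MP_c052b4_al

section Gen

variable {R : Type} [Ring R] [Algebra ℂ R]

theorem exists_decomp (x : KOne (Lau R)) : ∃ (y : KZero R) (c : KOne R) (h : KOne (Lau R)),
    h ∈ ho (Lau R) ∧
      x = tauG R (Multiplicative.ofAdd (1 : ℤ)) y + KOne.map (cL R) c + h := by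
  have hx := mem_HH x
  unfold HH at hx
  obtain ⟨z, hz, h, hh, rfl⟩ := AddSubgroup.mem_sup.1 hx
  have h1 : imA1 R (Multiplicative ℤ) ≤
      (tauG R (Multiplicative.ofAdd (1 : ℤ))).range ⊔ (KOne.map (cL R)).range := by
    refine imA1_le ?_ ?_
    · intro c
      exact AddSubgroup.mem_sup_right ⟨c, rfl⟩
    · intro g y
      obtain ⟨k, rfl⟩ := Multiplicative.ofAdd.surjective g
      have h2 : Multiplicative.ofAdd k = (Multiplicative.ofAdd (1 : ℤ)) ^ k := by
        rw [← ofAdd_zsmul, smul_eq_mul, mul_one]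
      rw [h2, tauG_zpow]
      refine AddSubgroup.mem_sup_left ⟨k • y, ?_⟩
      rw [map_zsmul]
      rfl
  obtain ⟨_, ⟨y, rfl⟩, _, ⟨c, rfl⟩, rfl⟩ := AddSubgroup.mem_sup.1 (h1 hz)
  exact ⟨y, c, h, hh, rfl⟩

theorem lauAug_comp_cL : (lauAug R).toRingHom.comp (cL R) = RingHom.id R := by
  ext a
  exact lauAug_single 1 a

theorem lauAug_tauG (y : KZero R) :
    KOne.map (lauAug R).toRingHom (tauG R (Multiplicative.ofAdd (1 : ℤ)) y) = 0 := by
  have h : (KOne.map (lauAug R).toRingHom).comp (tauG R (Multiplicative.ofAdd (1 : ℤ))) = 0 := by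
    apply kZero_hom_ext
    intro p
    rw [AddMonoidHom.comp_apply]
    unfold tauG
    rw [tau_cls, map_ks_te _ _ (gU_comm _) p.idem]
    have h1 : (lauAug R).toRingHom ((gU R (Multiplicative.ofAdd (1 : ℤ)) : (Lau R)ˣ) : Lau R) = 1 :=
      lauAug_single _ _
    rw [h1, sub_self]
    unfold ks
    rw [zero_smul, kk_zero]
    rfl
  exact DFunLike.congr_fun h y

/-- The essential surjectivity. -/
theorem exists_tau_of_aug {x : KOne (Lau R)} (hx : KOne.map (lauAug R).toRingHom x ∈ ho R) :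
    ∃ y : KZero R, tauG R (Multiplicative.ofAdd (1 : ℤ)) y - x ∈ ho (Lau R) := by
  obtain ⟨y, c, h, hh, rfl⟩ := exists_decomp x
  have h0 : KOne.map (lauAug R).toRingHom h ∈ ho R := ho_map (lauAug R) hh
  rw [map_add, map_add, lauAug_tauG, zero_add, ← KOne.map_comp, lauAug_comp_cL, KOne.map_id] at hx
  have h1 : c ∈ ho R := by
    have := (ho R).sub_mem hx h0
    rwa [add_sub_cancel_right] at this
  have h2 : KOne.map (cL R) c ∈ ho (Lau R) :=
    ho_map (MonoidAlgebra.singleOneAlgHom : R →ₐ[ℂ] Lau R) h1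
  refine ⟨y, ?_⟩
  have h3 := (ho (Lau R)).neg_mem ((ho (Lau R)).add_mem h2 hh)
  convert h3 using 1
  abel

theorem tauG_natural {A B : Type} [Ring A] [Ring B] (f : A →+* B) (g : Multiplicative ℤ)
    (y : KZero A) : KOne.map (lf f) (tauG A g y) = tauG B g (KZero.map f y) := by
  have h : (KOne.map (lf f)).comp (tauG A g) = (tauG B g).comp (KZero.map f) := by
    apply kZero_hom_ext
    intro p
    rw [AddMonoidHom.comp_apply, AddMonoidHom.comp_apply, KZero.map_cls]
    unfold tauG
    rw [tau_cls, tau_cls, map_ks_te _ _ (gU_comm _) p.idem]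
    unfold ks
    congr 1
    have h1 : lf f ((gU A g : (Lau A)ˣ) : Lau A) = ((gU B g : (Lau B)ˣ) : Lau B) := by
      change lf f (MonoidAlgebra.single g 1) = MonoidAlgebra.single g 1
      simp
    rw [h1]
    congr 1
    refine Matrix.ext fun i j => ?_
    change lf f (MonoidAlgebra.single 1 (p.mat i j)) = MonoidAlgebra.single 1 (f (p.mat i j))
    simp
  exact DFunLike.congr_fun h y

end Gen

section Inj

variable (A : Type) [Ring A] [Algebra ℂ A]

theorem lauSwap_mem (x : Lau (Poly A)) :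
    (fun t : ℂ => (MonoidAlgebra.mapAlgHom (Multiplicative ℤ) (evP A t) x : Lau A)) ∈
      Poly (Lau A) := by
  induction x using MonoidAlgebra.induction_linear with
  | zero =>
    have h : (fun t : ℂ => (MonoidAlgebra.mapAlgHom (Multiplicative ℤ) (evP A t)
        (0 : Lau (Poly A)) : Lau A)) = 0 := by
      funext t; exact map_zero _
    rw [h]; exact (Poly (Lau A)).zero_mem
  | add f g hf hg =>
    have h : (fun t : ℂ => (MonoidAlgebra.mapAlgHom (Multiplicative ℤ) (evP A t)
        (f + g) : Lau A)) = (fun t : ℂ => (MonoidAlgebra.mapAlgHom (Multiplicative ℤ) (evP A t)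
        f : Lau A)) + (fun t : ℂ => (MonoidAlgebra.mapAlgHom (Multiplicative ℤ) (evP A t)
        g : Lau A)) := by
      funext t; exact map_add _ _ _
    rw [h]; exact (Poly (Lau A)).add_mem hf hg
  | single z g =>
    have h : (fun t : ℂ => (MonoidAlgebra.mapAlgHom (Multiplicative ℤ) (evP A t)
        (MonoidAlgebra.single z g) : Lau A)) = (fun _ => MonoidAlgebra.single z 1) *
          (fun t : ℂ => (MonoidAlgebra.singleOneAlgHom : A →ₐ[ℂ] Lau A) (g.1 t)) := by
      funext t
      have h1 : (MonoidAlgebra.mapAlgHom (Multiplicative ℤ) (evP A t)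
        (MonoidAlgebra.single z g) : Lau A) = MonoidAlgebra.single z (g.1 t) := by
        simp
        rfl
      rw [h1]
      change _ = MonoidAlgebra.single z 1 * MonoidAlgebra.single 1 (g.1 t)
      rw [MonoidAlgebra.single_mul_single, mul_one, one_mul]
    rw [h]
    exact (Poly (Lau A)).mul_mem (const_mem_poly _) (comp_mem_poly _ g.2)

/-- the isomorphism `A[t][z, z⁻¹] → A[z, z⁻¹][t]` as a homomorphism -/
noncomputable def lauSwap : Lau (Poly A) →ₐ[ℂ] Poly (Lau A) :=
  (AlgHom.pi fun t : ℂ => MonoidAlgebra.mapAlgHom (Multiplicative ℤ) (evP A t)).codRestrict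
    (Poly (Lau A)) (lauSwap_mem A)

theorem lauSwap_apply (x : Lau (Poly A)) (t : ℂ) :
    (lauSwap A x).1 t = lf (evP A t).toRingHom x := rfl

theorem lauSwap_injective : Function.Injective (lauSwap A) := by
  rw [injective_iff_map_eq_zero]
  intro x hx
  refine MonoidAlgebra.ext (Finsupp.ext fun z => ?_)
  refine Subtype.ext ?_
  funext t
  have h1 : (lauSwap A x).1 t = 0 := by rw [hx]; rfl
  rw [lauSwap_apply] at h1
  have h3 := congrArg (fun y : Lau A => y.coeff z) h1
  have h4 : (lf (evP A t).toRingHom x).coeff z = 0 := h3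
  rw [lf_coeff] at h4
  exact h4

theorem lauSwap_surjective : Function.Surjective (lauSwap A) := by
  have h : Poly (Lau A) ≤ ((Poly (Lau A)).val.comp (lauSwap A)).range := by
    change Algebra.adjoin ℂ _ ≤ _
    rw [Algebra.adjoin_le_iff]
    rintro f (⟨a, rfl⟩ | rfl)
    · refine ⟨MonoidAlgebra.mapAlgHom (Multiplicative ℤ) (pconst A) a, ?_⟩
      funext t
      have h1 : lf (evP A t).toRingHom (lf (pconst A).toRingHom a) = a := by
        refine MonoidAlgebra.ext (Finsupp.ext fun z => ?_)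
        rw [lf_coeff, lf_coeff]
        rfl
      exact h1
    · refine ⟨MonoidAlgebra.single 1 (pvar A), ?_⟩
      funext t
      have h1 : (lf (evP A t).toRingHom (MonoidAlgebra.single 1 (pvar A)) : Lau A) =
          MonoidAlgebra.single 1 (algebraMap ℂ A t) := by
        simp
        rfl
      exact h1
  intro f
  obtain ⟨x, hx⟩ := h f.2
  exact ⟨x, Subtype.ext hx⟩

theorem map_lauSwap_surjective : Function.Surjective (KOne.map (lauSwap A).toRingHom) := by
  let e : Lau (Poly A) ≃+* Poly (Lau A) :=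
    RingEquiv.ofBijective (lauSwap A).toRingHom ⟨lauSwap_injective A, lauSwap_surjective A⟩
  intro y
  refine ⟨KOne.map e.symm.toRingHom y, ?_⟩
  rw [← KOne.map_comp]
  have h : (lauSwap A).toRingHom.comp e.symm.toRingHom = RingHom.id _ :=
    RingHom.ext fun x => e.apply_symm_apply x
  rw [h, KOne.map_id]

variable {A}

/-- If `K₀(A) → K₀(A[t])` is onto then the boundary map vanishes on homotopies. -/
theorem del_ho (hA : Function.Surjective (KZero.map (pconst A).toRingHom)) {x : KOne (Lau A)}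
    (hx : x ∈ ho (Lau A)) : Bdry.del A x = 0 := by
  obtain ⟨y, rfl⟩ := mem_ho.1 hx
  obtain ⟨w, rfl⟩ := map_lauSwap_surjective A y
  rw [← KOne.map_comp, ← KOne.map_comp]
  have h1 : ∀ t : ℂ, (evP (Lau A) t).toRingHom.comp (lauSwap A).toRingHom =
      lf (evP A t).toRingHom := fun t => rfl
  rw [h1, h1, map_sub, ← map_del, ← map_del]
  obtain ⟨u, hu⟩ := hA (Bdry.del (Poly A) w)
  rw [← hu, ← KZero.map_comp, ← KZero.map_comp]
  have h2 : ∀ t : ℂ, (evP A t).toRingHom.comp (pconst A).toRingHom = RingHom.id A := fun t => rfl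
  rw [h2, h2, sub_self]

/-- The essential injectivity. -/
theorem eq_zero_of_tau (hA : Function.Surjective (KZero.map (pconst A).toRingHom)) {y : KZero A}
    (hy : tauG A (Multiplicative.ofAdd (1 : ℤ)) y ∈ ho (Lau A)) : y = 0 := by
  have h3 := del_ho hA hy
  rwa [Bdry.del_tauG] at h3

end Inj

/-! ### The functors -/

section Functors

/-- the class of an element of `K₁` in `KV₁` -/
noncomputable def cKV (B : Type) [Ring B] [Algebra ℂ B] : KOne B →+ KV1F.obj B :=
  QuotientAddGroup.mk' (ho B)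

theorem cKV_surjective (B : Type) [Ring B] [Algebra ℂ B] : Function.Surjective (cKV B) :=
  QuotientAddGroup.mk'_surjective (ho B)

theorem cKV_eq_zero {B : Type} [Ring B] [Algebra ℂ B] {x : KOne B} :
    cKV B x = 0 ↔ x ∈ ho B := QuotientAddGroup.eq_zero_iff (N := ho B) x

theorem cKV_eq {B : Type} [Ring B] [Algebra ℂ B] {x y : KOne B} :
    cKV B x = cKV B y ↔ x - y ∈ ho B := by
  rw [← sub_eq_zero, ← map_sub, cKV_eq_zero]

theorem KV1F_map_cKV {B C : Type} [Ring B] [Algebra ℂ B] [Ring C] [Algebra ℂ C] (f : B →ₐ[ℂ] C)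
    (x : KOne B) : KV1F.map f (cKV B x) = cKV C (KOne.map f.toRingHom x) := rfl

/-- the homomorphism `K₀(A) → KV₁(A[z, z⁻¹])` -/
noncomputable def tauV1 (A : Type) [Ring A] [Algebra ℂ A] :
    K0F.obj A →+ KV1F.obj (lauOp.obj A) :=
  (cKV (Lau A)).comp (tauG A (Multiplicative.ofAdd (1 : ℤ)))

theorem cKV_lauAug_tauG (A : Type) [Ring A] [Algebra ℂ A] (y : KZero A) :
    cKV A (KOne.map (lauAug A).toRingHom (tauG A (Multiplicative.ofAdd (1 : ℤ)) y)) = 0 := by
  rw [lauAug_tauG, map_zero]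

theorem tauV1_mem (A : Type) [Ring A] [Algebra ℂ A] (y : K0F.obj A) :
    tauV1 A y ∈ (KV1F.map (lauOp.r A)).ker := cKV_lauAug_tauG A y

/-- The homomorphism `K₀(A) → KV₁(A[z, z⁻¹])`, `[e] ↦ [1 - e + e z]`, with image in the kernel of
`z ↦ 1`. -/
noncomputable def tauKV (A : Type) [Ring A] [Algebra ℂ A] : K0F.obj A →+ (KV1F.rel lauOp).obj A :=
  (tauV1 A).codRestrict (KV1F.map (lauOp.r A)).ker (tauV1_mem A)

theorem exists_tau_of_lauAug {A : Type} [Ring A] [Algebra ℂ A] (x : KV1F.obj (Lau A))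
    (hx : KV1F.map (lauAug A) x = 0) :
    ∃ y : KZero A, cKV (Lau A) (tauG A (Multiplicative.ofAdd (1 : ℤ)) y) = x := by
  obtain ⟨z, rfl⟩ := cKV_surjective (Lau A) x
  rw [KV1F_map_cKV] at hx
  obtain ⟨y, hy⟩ := exists_tau_of_aug (cKV_eq_zero.1 hx)
  exact ⟨y, cKV_eq.2 hy⟩

theorem tauKV_surjective (A : Type) [Ring A] [Algebra ℂ A] : Function.Surjective (tauKV A) := by
  intro x
  have h : ∃ y : KZero A, cKV (Lau A) (tauG A (Multiplicative.ofAdd (1 : ℤ)) y) = x.1 :=
    exists_tau_of_lauAug (A := A) x.1 x.2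
  exact ⟨h.choose, Subtype.ext h.choose_spec⟩

theorem eq_zero_of_cKV_tau {A : Type} [Ring A] [Algebra ℂ A]
    (hA : Function.Surjective (KZero.map (pconst A).toRingHom)) (y : KZero A)
    (hy : cKV (Lau A) (tauG A (Multiplicative.ofAdd (1 : ℤ)) y) = 0) : y = 0 :=
  eq_zero_of_tau hA (cKV_eq_zero.1 hy)

theorem tauKV_injective {A : Type} [Ring A] [Algebra ℂ A]
    (hA : Function.Surjective (K0F.map (polyOp.s A))) : Function.Injective (tauKV A) := by
  rw [injective_iff_map_eq_zero]
  intro y hy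
  exact eq_zero_of_cKV_tau (A := A) hA y (congrArg Subtype.val hy)

/-- **The fundamental theorem in degree one.** -/
theorem tauKV_bijective {A : Type} [Ring A] [Algebra ℂ A]
    (hA : Function.Surjective (K0F.map (polyOp.s A))) :
    Function.Bijective (tauKV A) := ⟨tauKV_injective hA, tauKV_surjective A⟩

theorem cKV_tauG_natural {A B : Type} [Ring A] [Algebra ℂ A] [Ring B] [Algebra ℂ B]
    (f : A →ₐ[ℂ] B) (y : KZero A) : cKV (Lau B) (KOne.map (lf f.toRingHom)
      (tauG A (Multiplicative.ofAdd (1 : ℤ)) y)) =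
      cKV (Lau B) (tauG B (Multiplicative.ofAdd (1 : ℤ)) (KZero.map f.toRingHom y)) := by
  rw [tauG_natural]

theorem tauKV_natural {A B : Type} [Ring A] [Algebra ℂ A] [Ring B] [Algebra ℂ B] (f : A →ₐ[ℂ] B)
    (y : K0F.obj A) : (KV1F.rel lauOp).map f (tauKV A y) = tauKV B (K0F.map f y) :=
  Subtype.ext (cKV_tauG_natural f y)

end Functors

end Pool.Agent.Lib.MP_e7fbd4_ag
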