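import Pool.Agent.Lib.MP_e7fbd4_ag.Mg.G017
import Pool.Agent.Lib.MP_e7fbd4_ag.Mg.G014
import Pool.Agent.Lib.MP_c052b4_al.Gen2

/-!
# The fundamental theorem in degree one: `KV₁(A[z, z⁻¹]) = KV₁(A) ⊕ K₀(A)`
-/

set_option autoImplicit false
set_option linter.unusedSectionVars false

namespace Pool.Agent.Lib.MP_e7fbd4_ag

open Matrix Pool.Agent.Lib.MP_c052b4_al

section Htpy

variable {B : Type} [Ring B] [Algebra ℂ B]

/-- the subgroup of polynomial homotopies in `K₁(B)` -/
noncomputable def ho (B : Type) [Ring B] [Algebra ℂ B] : AddSubgroup (KOne B) :=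
  (KOne.map (evP B 1).toRingHom - KOne.map (evP B 0).toRingHom).range

theorem mem_ho {x : KOne B} : x ∈ ho B ↔ ∃ y : KOne (Poly B),
    KOne.map (evP B 1).toRingHom y - KOne.map (evP B 0).toRingHom y = x := Iff.rfl

theorem ho_eq : K1F.htpy B = ho B := rfl

theorem ho_map {C : Type} [Ring C] [Algebra ℂ C] (f : B →ₐ[ℂ] C) {x : KOne B} (hx : x ∈ ho B) :
    KOne.map f.toRingHom x ∈ ho C := K1F.htpy_le f hx

theorem map_kk {T T' : Type} [Ring T] [Ring T'] (f : T →+* T') {n : Type} [Fintype n]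
    [DecidableEq n] {X : Matrix n n T} (h : IsUnit (1 + X)) :
    KOne.map f (kk X) = kk (X.map f) := by
  obtain ⟨U, hU⟩ := h
  rw [kk_eq U hU, KOne.map_k1]
  symm
  apply kk_eq
  rw [coe_mU, hU, Matrix.map_add _ (map_add f), Matrix.map_one _ (map_zero f) (map_one f)]

theorem kk_nilpotent_mem {n : Type} [Fintype n] [DecidableEq n] {X : Matrix n n B}
    (hX : IsNilpotent X) : kk X ∈ ho B := by
  rw [mem_ho]
  let Y : Matrix n n (Poly B) := (pvar B) • X.map (pconst B)
  have hY : IsNilpotent Y := by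
    obtain ⟨k, hk⟩ := hX
    refine ⟨k, ?_⟩
    have hs : ∀ x, pvar B * (pconst B).toRingHom x = (pconst B).toRingHom x * pvar B :=
      (polyExt B).comm
    have h1 := smul_map_pow (c := (pconst B).toRingHom) hs X k
    change (pvar B • X.map (pconst B).toRingHom) ^ k = 0
    rw [h1, hk, Matrix.map_zero _ (map_zero _), smul_zero]
  have hu : IsUnit (1 + Y) := IsNilpotent.isUnit_one_add hY
  refine ⟨kk Y, ?_⟩
  rw [map_kk _ hu, map_kk _ hu]
  have e1 : Y.map (evP B 1).toRingHom = X := by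
    ext i j
    change (algebraMap ℂ B 1) * X i j = X i j
    rw [map_one, one_mul]
  have e0 : Y.map (evP B 0).toRingHom = 0 := by
    ext i j
    change (algebraMap ℂ B 0) * X i j = 0
    rw [map_zero, zero_mul]
  rw [e1, e0, kk_zero, sub_zero]

end Htpy

section Gen

variable {R : Type} [Ring R] [Algebra ℂ R] {n : Type} [Fintype n] [DecidableEq n]

theorem ks_linear_ho {ν : Matrix n n R} (h : IsNilpotent (ν * (1 - ν))) :
    ∃ e : Matrix n n R, ∃ _ : e * e = e,
      ks (cL R) (tL R - 1) ν - ks (cL R) (tL R - 1) e ∈ ho (Lau R) := by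
  obtain ⟨e, he, heν, hn0, hn1⟩ := exists_idem_of_nilpotent h
  refine ⟨e, he, ?_⟩
  have ht : ∀ x, (tL R - 1) * cL R x = cL R x * (tL R - 1) := fun x => sub_one_comm tL_comm x
  have hti : ∀ x, (tI R - 1) * cL R x = cL R x * (tI R - 1) := fun x => sub_one_comm tI_comm x
  set η0 := (1 - e) * ν with hη0
  set η1 := e * (1 - ν) with hη1
  have e1 : e * η0 = 0 := by
    rw [hη0, ← mul_assoc, mul_sub, mul_one, he, sub_self, zero_mul]
  have e2 : (e + η0) * η1 = η1 := by
    have h1 : η0 * η1 = 0 := by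
      rw [hη0, hη1, mul_assoc, ← mul_assoc ν, ← heν.eq, mul_assoc e, ← mul_assoc (1 - e),
        sub_mul, one_mul, he, sub_self, zero_mul]
    rw [add_mul, h1, add_zero, hη1, ← mul_assoc, he]
  have e3 : e + η0 - η1 = ν := by
    rw [hη0, hη1]
    noncomm_ring
  have u1 : IsUnit (1 + (tL R - 1) • e.map (cL R)) :=
    isUnit_te (gU R (Multiplicative.ofAdd (1 : ℤ))) (gU_comm _) he
  have u2 : IsUnit (1 + (tL R - 1) • η0.map (cL R)) := isUnit_nil ht hn0
  have u3 : IsUnit (1 + (tI R - 1) • η1.map (cL R)) := isUnit_nil hti hn1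
  have h1 : kk ((tL R - 1) • (e + η0).map (cL R)) =
      kk ((tL R - 1) • e.map (cL R)) + kk ((tL R - 1) • η0.map (cL R)) := by
    rw [← kk_mul u1 u2, smul_mul_smul_map ht, e1, Matrix.map_zero _ (map_zero _), smul_zero,
      add_zero, Matrix.map_add _ (map_add _), smul_add]
  have u12 : IsUnit (1 + (tL R - 1) • (e + η0).map (cL R)) := by
    have h2 := u1.mul u2
    have h3 : (1 + (tL R - 1) • e.map (cL R)) * (1 + (tL R - 1) • η0.map (cL R)) =
        1 + (tL R - 1) • (e + η0).map (cL R) := by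
      have h4 : (1 + (tL R - 1) • e.map (cL R)) * (1 + (tL R - 1) • η0.map (cL R)) =
          1 + ((tL R - 1) • e.map (cL R) + (tL R - 1) • η0.map (cL R) +
            ((tL R - 1) • e.map (cL R)) * ((tL R - 1) • η0.map (cL R))) := by
        simp only [Matrix.add_mul, Matrix.mul_add, Matrix.one_mul, Matrix.mul_one]
        abel
      rw [h4, smul_mul_smul_map ht, e1, Matrix.map_zero _ (map_zero _), smul_zero, add_zero,
        Matrix.map_add _ (map_add _), smul_add]
    rwa [h3] at h2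
  have h2 : kk ((tL R - 1) • ν.map (cL R)) =
      kk ((tL R - 1) • (e + η0).map (cL R)) + kk ((tI R - 1) • η1.map (cL R)) := by
    rw [← kk_mul u12 u3, smul_mul_smul_map hti, e2, add_assoc, ← add_smul]
    have h3 : tI R - 1 + (tL R - 1) * (tI R - 1) = - (tL R - 1) := by
      rw [sub_mul, mul_sub, tL_mul_tI]
      noncomm_ring
    rw [h3, neg_smul, ← sub_eq_add_neg, ← smul_sub, ← Matrix.map_sub _ (map_sub _), e3]
  have hnil : ∀ {s : Lau R} (_ : ∀ x, s * cL R x = cL R x * s) {M : Matrix n n R},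
      IsNilpotent M → kk (s • M.map (cL R)) ∈ ho (Lau R) := by
    intro s hs M hM
    apply kk_nilpotent_mem
    obtain ⟨k, hk⟩ := hM
    exact ⟨k, by rw [smul_map_pow hs, hk, Matrix.map_zero _ (map_zero _), smul_zero]⟩
  have h3 := hnil ht hn0
  have h4 := hnil hti hn1
  unfold ks
  rw [h2, h1]
  have h5 := (ho (Lau R)).add_mem h3 h4
  convert h5 using 1
  abel

/-- the subgroup generated by the constants, the classes of idempotents and homotopies -/
noncomputable def HH (R : Type) [Ring R] [Algebra ℂ R] : AddSubgroup (KOne (Lau R)) :=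
  imA1 R (Multiplicative ℤ) ⊔ ho (Lau R)

theorem mem_of_linear_ho {U : (Matrix n n (Lau R))ˣ} {a : ℕ → Matrix n n R}
    (hU : (U : Matrix n n (Lau R)) = pol 2 a) : k1 U ∈ HH R := by
  have hU' : (U : Matrix n n (Lau R)) = (a 0).map (cL R) + (tL R) • (a 1).map (cL R) := by
    rw [hU, pol_succ, pol_succ, pow_one, pow_zero, one_smul]
    unfold pol
    rw [Finset.sum_range_zero, zero_add]
  let C : (Matrix n n R)ˣ := mU (aug R) U
  have hC : (C : Matrix n n R) = a 0 + a 1 := by
    change (U : Matrix n n (Lau R)).map (aug R) = _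
    rw [hU']
    ext i j
    change aug R (cL R (a 0 i j) + tL R * cL R (a 1 i j)) = _
    rw [map_add, map_mul, aug_cL, aug_cL, aug_single, one_mul]
    rfl
  set Ci : Matrix n n R := ((C⁻¹ : (Matrix n n R)ˣ) : Matrix n n R) with hCi
  have hsum : Ci * a 0 + Ci * a 1 = 1 := by rw [← mul_add, ← hC, hCi, Units.inv_mul]
  have h1 : ((mU (cL R) C⁻¹ * U : (Matrix n n (Lau R))ˣ) : Matrix n n (Lau R)) =
      1 + (tL R - 1) • (Ci * a 1).map (cL R) := by
    rw [Units.val_mul, coe_mU, hU', Matrix.mul_add, ← Matrix.map_mul, map_mul_smul tL_comm]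
    change (Ci * a 0).map (cL R) + tL R • (Ci * a 1).map (cL R) = _
    have h2 : Ci * a 0 = 1 - Ci * a 1 := by rw [← hsum, add_sub_cancel_right]
    rw [h2, Matrix.map_sub _ (map_sub _), Matrix.map_one _ (map_zero _) (map_one _), sub_smul,
      one_smul]
    abel
  have h2 : k1 (mU (cL R) C⁻¹ * U) ∈ HH R := by
    obtain ⟨e, he, h3⟩ := ks_linear_ho (nilpotent_of_unit h1)
    rw [← kk_eq _ h1]
    change ks (cL R) (tL R - 1) (Ci * a 1) ∈ _
    have h4 := AddSubgroup.add_mem_sup (ks_te_mem he) h3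
    rwa [add_sub_cancel] at h4
  rw [k1_mul, ← KOne.map_k1] at h2
  have h3 : KOne.map (cL R) (k1 C⁻¹) ∈ HH R := AddSubgroup.mem_sup_left (map_mem_imA1 _)
  have h4 := AddSubgroup.sub_mem _ h2 h3
  rwa [add_sub_cancel_left] at h4

theorem exists_pol {k : ℕ} (A : (Matrix (Fin k) (Fin k) (Lau R))ˣ) :
    ∃ (K : ℕ) (a : ℕ → Matrix (Fin k) (Fin k) R) (D : (Matrix (Fin k) (Fin k) (Lau R))ˣ),
      k1 D ∈ imA1 R (Multiplicative ℤ) ∧
      ((D * A : (Matrix (Fin k) (Fin k) (Lau R))ˣ) : Matrix (Fin k) (Fin k) (Lau R)) =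
        pol (2 * K + 2) a := by
  obtain ⟨K, hK⟩ := exists_cf_bound (A : Matrix (Fin k) (Fin k) (Lau R))
  let D := teU (c := cL R) (gU R (Multiplicative.ofAdd (1 : ℤ))) (gU_comm _)
    (1 : Matrix (Fin k) (Fin k) R) (by simp)
  have hD1 : (D : Matrix (Fin k) (Fin k) (Lau R)) = tL R • 1 := by
    change 1 + (tL R - 1) • (1 : Matrix (Fin k) (Fin k) R).map (cL R) = _
    rw [Matrix.map_one _ (map_zero _) (map_one _), sub_smul, one_smul]
    abel
  have hDN : ∀ N : ℕ, ((D ^ N : (Matrix (Fin k) (Fin k) (Lau R))ˣ) :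
      Matrix (Fin k) (Fin k) (Lau R)) = (tL R) ^ N • 1 := by
    intro N
    induction N with
    | zero => rw [pow_zero, pow_zero, one_smul]; rfl
    | succ N ih => rw [pow_succ, Units.val_mul, ih, hD1, Matrix.smul_mul, Matrix.one_mul,
        smul_smul, ← pow_succ]
  have ht : ∀ N : ℕ, (tL R) ^ N = MonoidAlgebra.single (Multiplicative.ofAdd (N : ℤ)) 1 := by
    intro N
    rw [MonoidAlgebra.single_pow, one_pow, ← ofAdd_nsmul]
    simp
  have h1 : ((D ^ K * A : (Matrix (Fin k) (Fin k) (Lau R))ˣ) : Matrix (Fin k) (Fin k) (Lau R)) =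
      pol (2 * K + 2) (fun j => MP_c052b4_al.cf ((j : ℤ) - K)
        (A : Matrix (Fin k) (Fin k) (Lau R))) := by
    rw [Units.val_mul, hDN, Matrix.smul_mul, Matrix.one_mul]
    unfold pol
    ext i j : 2
    rw [Matrix.sum_apply]
    ext z
    obtain ⟨z, rfl⟩ := Multiplicative.ofAdd.surjective z
    rw [MonoidAlgebra.coeff_sum, Finsupp.finsetSum_apply]
    have h2 : ∀ l : ℕ, ((((tL R) ^ l • (MP_c052b4_al.cf ((l : ℤ) - K)
        (A : Matrix (Fin k) (Fin k) (Lau R))).map (cL R)) i j : Lau R).coeff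
          (Multiplicative.ofAdd z)) = if (l : ℤ) = z then
        MP_c052b4_al.cf (z - K) (A : Matrix (Fin k) (Fin k) (Lau R)) i j else 0 := by
      intro l
      have h3 : ((tL R) ^ l • (MP_c052b4_al.cf ((l : ℤ) - K)
        (A : Matrix (Fin k) (Fin k) (Lau R))).map (cL R)) i j =
          MonoidAlgebra.single (Multiplicative.ofAdd (l : ℤ))
            (MP_c052b4_al.cf ((l : ℤ) - K) (A : Matrix (Fin k) (Fin k) (Lau R)) i j) := by
        rw [ht]
        change MonoidAlgebra.single (Multiplicative.ofAdd (l : ℤ)) (1 : R) *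
          MonoidAlgebra.single 1 _ = _
        rw [MonoidAlgebra.single_mul_single, mul_one, one_mul]
      rw [h3, MonoidAlgebra.coeff_single, Finsupp.single_apply]
      by_cases hl : (l : ℤ) = z
      · rw [if_pos hl, if_pos (by rw [hl]), hl]
      · rw [if_neg hl, if_neg (fun h => hl (Multiplicative.ofAdd.injective h))]
    rw [Finset.sum_congr rfl fun l _ => h2 l]
    have h4 : (((tL R) ^ K • (A : Matrix (Fin k) (Fin k) (Lau R))) i j).coeff
        (Multiplicative.ofAdd z) =
          MP_c052b4_al.cf (z - K) (A : Matrix (Fin k) (Fin k) (Lau R)) i j := by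
      rw [ht]
      change (MonoidAlgebra.single (Multiplicative.ofAdd (K : ℤ)) (1 : R) *
        (A : Matrix (Fin k) (Fin k) (Lau R)) i j).coeff (Multiplicative.ofAdd z) = _
      rw [MonoidAlgebra.coeff_single_mul_apply, one_mul]
      change _ = ((A : Matrix (Fin k) (Fin k) (Lau R)) i j).coeff (Multiplicative.ofAdd (z - K))
      congr 1
      apply Multiplicative.toAdd.injective
      simp only [toAdd_mul, toAdd_inv, toAdd_ofAdd]
      ring
    rw [h4]
    by_cases hz : 0 ≤ z ∧ z < (2 * K + 2 : ℕ)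
    · obtain ⟨l, rfl⟩ := Int.eq_ofNat_of_zero_le hz.1
      rw [Finset.sum_eq_single l]
      · rw [if_pos rfl]
      · intro l' _ hl'
        rw [if_neg (fun h => hl' (by exact_mod_cast h))]
      · intro h
        exfalso
        apply h
        rw [Finset.mem_range]
        exact_mod_cast hz.2
    · have h5 : MP_c052b4_al.cf (z - K) (A : Matrix (Fin k) (Fin k) (Lau R)) = 0 := by
        apply hK
        rw [not_and_or, not_le, not_lt] at hz
        rcases hz with hz | hz
        · rw [abs_of_neg (by omega)]; omega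
        · rw [abs_of_nonneg (by push_cast at hz; omega)]; push_cast at hz; omega
      rw [h5, Finset.sum_eq_zero]
      · rfl
      · intro l hl
        rw [if_neg]
        rintro rfl
        apply hz
        rw [Finset.mem_range] at hl
        exact ⟨by positivity, by exact_mod_cast hl⟩
  exact ⟨K, _, D ^ K, k1_tpow_mem (n := Fin k) (R := R) K, h1⟩

/-- generation of `K₁` of a Laurent polynomial ring modulo homotopies -/
theorem mem_HH (x : KOne (Lau R)) : x ∈ HH R := by
  obtain ⟨k, A, rfl⟩ := exists_k1 x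
  obtain ⟨K, a, D, hD, h1⟩ := exists_pol A
  obtain ⟨m, i1, i2, V, b, hV, hVk⟩ := higman (2 * K) (D * A) _ h1
  have h2 := mem_of_linear_ho hV
  rw [hVk, k1_mul] at h2
  have h3 := AddSubgroup.sub_mem _ h2 (AddSubgroup.mem_sup_left (T := ho (Lau R)) hD)
  rwa [add_sub_cancel_left] at h3

end Gen

end Pool.Agent.Lib.MP_e7fbd4_ag
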