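import Pool.Agent.Lib.MP_e7fbd4_ag.Mg.G005
import Pool.Agent.Lib.MP_e7fbd4_ag.Mg.G002

/-!
# Matrix properties (Morita homomorphisms) of `KV k` and `hK m k`
-/

set_option autoImplicit false
set_option linter.unusedSectionVars false
set_option linter.unusedVariables false

namespace Pool.Agent.Lib.MP_e7fbd4_ag

open Matrix Pool.Agent.Lib.MP_c052b4_al

namespace MatP


section Flat

variable {S T : Type} [Ring S] [Ring T] {n m W : Type} [Fintype n] [Fintype m] [Fintype W]
  [DecidableEq n] [DecidableEq m] [DecidableEq W]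

/-- flattening of an invertible matrix over `M_W(S)`, as a homomorphism -/
noncomputable def flH (n W S : Type) [Ring S] [Fintype n] [DecidableEq n] [Fintype W]
    [DecidableEq W] : (Matrix n n (Matrix W W S))ˣ →* (Matrix (n × W) (n × W) S)ˣ :=
  Units.map (Matrix.compRingEquiv n W S).toRingHom.toMonoidHom

/-- flattening of an invertible matrix over `M_W(S)` -/
noncomputable def flU (n W S : Type) [Ring S] [Fintype n] [DecidableEq n] [Fintype W]
    [DecidableEq W] (g : (Matrix n n (Matrix W W S))ˣ) : (Matrix (n × W) (n × W) S)ˣ :=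
  flH n W S g

theorem flU_mul (g h : (Matrix n n (Matrix W W S))ˣ) :
    flU n W S (g * h) = flU n W S g * flU n W S h :=
  map_mul (flH n W S) g h

theorem flU_one : flU n W S 1 = 1 :=
  map_one (flH n W S)

theorem flU_apply (g : (Matrix n n (Matrix W W S))ˣ) (a b : n × W) :
    (flU n W S g).val a b = g.val a.1 b.1 a.2 b.2 := rfl

theorem flU_rU (σ : n ≃ m) (g : (Matrix n n (Matrix W W S))ˣ) :
    flU m W S (rU σ g) = rU (Equiv.prodCongr σ (Equiv.refl W)) (flU n W S g) := by
  apply Units.ext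
  ext a b
  rfl

theorem flU_bl (g : (Matrix n n (Matrix W W S))ˣ) (h : (Matrix m m (Matrix W W S))ˣ) :
    rU (Equiv.sumProdDistrib n m W) (flU (n ⊕ m) W S (bl g h)) =
      bl (flU n W S g) (flU m W S h) := by
  apply Units.ext
  ext a b
  rcases a with a | a <;> rcases b with b | b <;> rfl

theorem k1_flU_bl_one (g : (Matrix n n (Matrix W W S))ˣ) :
    k1 (flU (n ⊕ m) W S (bl g (1 : (Matrix m m (Matrix W W S))ˣ))) = k1 (flU n W S g) := by
  rw [← k1_rU (Equiv.sumProdDistrib n m W), flU_bl, flU_one, k1_bl_one]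

/-- the class in `K₁(S)` of the flattened matrix -/
noncomputable def trH (S W : Type) [Ring S] [Fintype W] [DecidableEq W] (k : ℕ) :
    (Matrix (Fin k) (Fin k) (Matrix W W S))ˣ →* Multiplicative (KOne S) where
  toFun A := Multiplicative.ofAdd (k1 (flU (Fin k) W S A))
  map_one' := by rw [flU_one, k1_one, ofAdd_zero]
  map_mul' A B := by rw [flU_mul, k1_mul, ofAdd_add]

/-- The homomorphism `K₁(M_W(S)) → K₁(S)` (flattening). -/
noncomputable def trK (S W : Type) [Ring S] [Fintype W] [DecidableEq W] :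
    KOne (Matrix W W S) →+ KOne S :=
  KOne.desc (Omega.lift (stabHom (Matrix W W S)) (trH S W) (by
    intro k A
    change Multiplicative.ofAdd (k1 (flU (Fin (k + 1)) W S (rU finSumFinEquiv (bl A 1)))) =
      Multiplicative.ofAdd (k1 (flU (Fin k) W S A))
    rw [flU_rU, k1_rU, k1_flU_bl_one]))

theorem trK_kf (k : ℕ) (A : (Matrix (Fin k) (Fin k) (Matrix W W S))ˣ) :
    trK S W (kf k A) = k1 (flU (Fin k) W S A) := rfl

theorem trK_k1 (A : (Matrix n n (Matrix W W S))ˣ) : trK S W (k1 A) = k1 (flU n W S A) := by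
  unfold k1
  rw [trK_kf, flU_rU, k1_rU]
  rfl

theorem flU_mU (f : S →+* T) (A : (Matrix n n (Matrix W W S))ˣ) :
    mU f (flU n W S A) = flU n W T (mU f.mapMatrix A) := by
  apply Units.ext
  ext a b
  rfl

theorem map_trK (f : S →+* T) (x : KOne (Matrix W W S)) :
    KOne.map f (trK S W x) = trK T W (KOne.map f.mapMatrix x) := by
  obtain ⟨k, A, rfl⟩ := exists_k1 x
  rw [trK_k1, KOne.map_k1, KOne.map_k1, trK_k1, flU_mU]

theorem kk_sub_one (g : (Matrix n n S)ˣ) : kk (g.val - 1) = k1 g :=
  kk_eq g (by rw [add_sub_cancel])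

/-- block diagonal matrices -/
noncomputable def bdH (n W S : Type) [Ring S] [Fintype n] [DecidableEq n] [Fintype W]
    [DecidableEq W] : (W → (Matrix n n S)ˣ) →* (Matrix (n × W) (n × W) S)ˣ :=
  (Units.map (Matrix.blockDiagonalRingHom n W S).toMonoidHom).comp
    (MulEquiv.piUnits.symm.toMonoidHom)

/-- block diagonal matrices -/
noncomputable def bdU (g : W → (Matrix n n S)ˣ) : (Matrix (n × W) (n × W) S)ˣ :=
  bdH n W S g

theorem bdU_mul (g h : W → (Matrix n n S)ˣ) : bdU (g * h) = bdU g * bdU h :=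
  map_mul (bdH n W S) g h

theorem bdU_one : bdU (1 : W → (Matrix n n S)ˣ) = 1 :=
  map_one (bdH n W S)

theorem bdU_apply (g : W → (Matrix n n S)ˣ) (a b : n × W) :
    (bdU g).val a b = if a.2 = b.2 then (g a.2).val a.1 b.1 else 0 := rfl

theorem k1_bdU_single (w : W) (h : (Matrix n n S)ˣ) :
    k1 (bdU (Pi.mulSingle w h)) = k1 h := by
  let C : Matrix (n × W) n S := Matrix.of fun a i => if a.2 = w ∧ a.1 = i then 1 else 0
  let R : Matrix n (n × W) S := Matrix.of fun i a => if a.2 = w ∧ a.1 = i then 1 else 0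
  have hRC : R * C = 1 := by
    ext i j
    rw [Matrix.mul_apply, Matrix.one_apply, Fintype.sum_prod_type]
    simp only [R, C, Matrix.of_apply]
    rw [Finset.sum_eq_single i]
    · rw [Finset.sum_eq_single w]
      · simp
      · intro b _ hb; simp [hb]
      · intro h; exact absurd (Finset.mem_univ _) h
    · intro a _ ha
      apply Finset.sum_eq_zero
      intro b _
      simp [ha]
    · intro h; exact absurd (Finset.mem_univ _) h
  have h1 : (bdU (Pi.mulSingle w h)).val - 1 = C * ((h.val - 1) * R) := by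
    ext ⟨i, a⟩ ⟨j, b⟩
    rw [Matrix.sub_apply, bdU_apply, Matrix.mul_apply]
    simp only [R, C, Matrix.of_apply, Matrix.one_apply, Prod.mk.injEq]
    by_cases ha : a = w
    · subst ha
      rw [Finset.sum_eq_single i]
      · rw [Matrix.mul_apply]
        simp only [Matrix.of_apply]
        by_cases hb : a = b
        · subst hb
          rw [Finset.sum_eq_single j]
          · simp [Matrix.one_apply]
          · intro c _ hc; simp [Ne.symm hc]
          · intro h; exact absurd (Finset.mem_univ _) h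
        · have hb' : ¬ b = a := fun h => hb h.symm
          simp [hb, hb']
      · intro c _ hc; simp [Ne.symm hc]
      · intro h; exact absurd (Finset.mem_univ _) h
    · rw [Finset.sum_eq_zero]
      · by_cases hb : a = b
        · subst hb
          simp [Pi.mulSingle_eq_of_ne ha, Matrix.one_apply]
        · simp [hb]
      · intro c _
        simp [ha]
  rw [← kk_sub_one, h1, kk_comm, Matrix.mul_assoc, hRC, Matrix.mul_one, kk_sub_one]

theorem k1_bdU (g : W → (Matrix n n S)ˣ) : k1 (bdU g) = ∑ w, k1 (g w) := by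
  let f₁ : (W → (Matrix n n S)ˣ) →* Multiplicative (KOne S) :=
    { toFun := fun g => Multiplicative.ofAdd (k1 (bdU g))
      map_one' := by rw [bdU_one, k1_one, ofAdd_zero]
      map_mul' := fun A B => by rw [bdU_mul, k1_mul, ofAdd_add] }
  let f₂ : (W → (Matrix n n S)ˣ) →* Multiplicative (KOne S) :=
    { toFun := fun g => Multiplicative.ofAdd (∑ w, k1 (g w))
      map_one' := by
        simp only [Pi.one_apply, k1_one, Finset.sum_const_zero, ofAdd_zero]
      map_mul' := fun A B => by
        simp only [Pi.mul_apply, k1_mul, Finset.sum_add_distrib, ofAdd_add] }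
  have h : f₁ = f₂ := by
    refine MonoidHom.pi_ext fun w x => ?_
    change Multiplicative.ofAdd (k1 (bdU (Pi.mulSingle w x))) =
      Multiplicative.ofAdd (∑ w', k1 ((Pi.mulSingle w x : W → (Matrix n n S)ˣ) w'))
    rw [k1_bdU_single, Finset.sum_eq_single w]
    · rw [Pi.mulSingle_eq_same]
    · intro b _ hb
      rw [Pi.mulSingle_eq_of_ne hb, k1_one]
    · intro h; exact absurd (Finset.mem_univ _) h
  exact congrArg (fun f => Multiplicative.toAdd (f g)) h

end Flat


/-- Morita homomorphisms of a functor: `T : F(M_W(B)) → F(B)`, natural in `B`, with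
`T ∘ F(diag(φ_w)) = ∑ F(φ_w)`; and the generation property. -/
structure MorP (F : AlgFunctor) where
  T : ∀ (B W : Type) [Ring B] [Algebra ℂ B] [Fintype W] [DecidableEq W],
    F.obj (Matrix W W B) →+ F.obj B
  nat : ∀ (B B' W : Type) [Ring B] [Algebra ℂ B] [Ring B'] [Algebra ℂ B'] [Fintype W]
    [DecidableEq W] (f : B →ₐ[ℂ] B') (x : F.obj (Matrix W W B)),
    F.map f (T B W x) = T B' W (F.map f.mapMatrix x)
  diag : ∀ (C B W : Type) [Ring C] [Algebra ℂ C] [Ring B] [Algebra ℂ B] [Fintype W]
    [DecidableEq W] (φ : W → (C →ₐ[ℂ] B)) (x : F.obj C),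
    T B W (F.map (diagHom φ) x) = ∑ w, F.map (φ w) x
  gen : ∀ (B W : Type) [Ring B] [Algebra ℂ B] [Fintype W] [DecidableEq W] (w₀ : W)
    (x : F.obj (Matrix W W B)), ∃ z : F.obj (B × B), F.map (kapM B W w₀) z = x

theorem MorP.matProp {F : AlgFunctor} (M : MorP F) : MatProp F where
  gen := M.gen
  tr C B W _ _ _ _ _ _ w₀ φ x z h := by
    have h1 : M.T B W (F.map (diagHom φ) x) = M.T B W (F.map (kapM B W w₀) z) := by rw [h]
    rw [M.diag] at h1
    unfold kapM at h1
    rw [M.diag] at h1
    rw [h1]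
    have h2 : ∀ w : W, F.map (if w = w₀ then AlgHom.fst ℂ B B else AlgHom.snd ℂ B B) z =
        if w = w₀ then F.map (AlgHom.fst ℂ B B) z else F.map (AlgHom.snd ℂ B B) z := by
      intro w
      split_ifs <;> rfl
    rw [Finset.sum_congr rfl fun w _ => h2 w, ← Finset.add_sum_erase _ _ (Finset.mem_univ w₀)]
    rw [if_pos rfl]
    congr 1
    rw [Finset.sum_congr rfl (g := fun _ => F.map (AlgHom.snd ℂ B B) z)]
    · rw [Finset.sum_const, Finset.card_erase_of_mem (Finset.mem_univ _), Finset.card_univ]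
    · intro w hw
      rw [if_neg (Finset.ne_of_mem_erase hw)]

/-- Compatibility of an operation on algebras with matrices and products. -/
structure MatOp (X : AlgOp) where
  θ : ∀ (B W : Type) [Ring B] [Algebra ℂ B] [Fintype W] [DecidableEq W],
    X.obj (Matrix W W B) →ₐ[ℂ] Matrix W W (X.obj B)
  θ' : ∀ (B W : Type) [Ring B] [Algebra ℂ B] [Fintype W] [DecidableEq W],
    Matrix W W (X.obj B) →ₐ[ℂ] X.obj (Matrix W W B)
  left : ∀ (B W : Type) [Ring B] [Algebra ℂ B] [Fintype W] [DecidableEq W],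
    (θ' B W).comp (θ B W) = AlgHom.id ℂ _
  nat : ∀ (B B' W : Type) [Ring B] [Algebra ℂ B] [Ring B'] [Algebra ℂ B'] [Fintype W]
    [DecidableEq W] (f : B →ₐ[ℂ] B'),
    (X.map f).mapMatrix.comp (θ B W) = (θ B' W).comp (X.map f.mapMatrix)
  ret : ∀ (B W : Type) [Ring B] [Algebra ℂ B] [Fintype W] [DecidableEq W],
    (X.r B).mapMatrix.comp (θ B W) = X.r (Matrix W W B)
  diag : ∀ (C B W : Type) [Ring C] [Algebra ℂ C] [Ring B] [Algebra ℂ B] [Fintype W]
    [DecidableEq W] (φ : W → (C →ₐ[ℂ] B)),
    (θ B W).comp (X.map (diagHom φ)) = diagHom fun w => X.map (φ w)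
  ψ : ∀ (B : Type) [Ring B] [Algebra ℂ B], X.obj B × X.obj B →ₐ[ℂ] X.obj (B × B)
  fst : ∀ (B : Type) [Ring B] [Algebra ℂ B],
    (X.map (AlgHom.fst ℂ B B)).comp (ψ B) = AlgHom.fst ℂ _ _
  snd : ∀ (B : Type) [Ring B] [Algebra ℂ B],
    (X.map (AlgHom.snd ℂ B B)).comp (ψ B) = AlgHom.snd ℂ _ _

theorem diagHom_comp {C C' B W : Type} [Ring C] [Algebra ℂ C] [Ring C'] [Algebra ℂ C'] [Ring B]
    [Algebra ℂ B] [Fintype W] [DecidableEq W] (φ : W → (C →ₐ[ℂ] B)) (f : C' →ₐ[ℂ] C) :
    (diagHom φ).comp f = diagHom fun w => (φ w).comp f := rfl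

theorem MatOp.kap {X : AlgOp} (M : MatOp X) (B W : Type) [Ring B] [Algebra ℂ B] [Fintype W]
    [DecidableEq W] (w₀ : W) :
    ((M.θ B W).comp (X.map (kapM B W w₀))).comp (M.ψ B) = kapM (X.obj B) W w₀ := by
  unfold kapM
  rw [M.diag, diagHom_comp]
  congr 1
  funext w
  split_ifs
  · exact M.fst B
  · exact M.snd B

theorem F_comp (F : AlgFunctor) {A B C : Type} [Ring A] [Algebra ℂ A] [Ring B] [Algebra ℂ B]
    [Ring C] [Algebra ℂ C] (g : B →ₐ[ℂ] C) (f : A →ₐ[ℂ] B) (x : F.obj A) :
    F.map g (F.map f x) = F.map (g.comp f) x := by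
  rw [F.map_comp]; rfl

theorem F_id (F : AlgFunctor) {A : Type} [Ring A] [Algebra ℂ A] (x : F.obj A) :
    F.map (AlgHom.id ℂ A) x = x := by
  rw [F.map_id]; rfl

theorem rel_map_val (F : AlgFunctor) (X : AlgOp) {A B : Type} [Ring A] [Algebra ℂ A] [Ring B]
    [Algebra ℂ B] (f : A →ₐ[ℂ] B) (x : (F.rel X).obj A) :
    (((F.rel X).map f x : (F.rel X).obj B) : (F.map (X.r B)).ker).1 =
      F.map (X.map f) ((x : (F.map (X.r A)).ker).1) := rfl

/-- the Morita homomorphism of `F.rel X` -/
noncomputable def relT {F : AlgFunctor} (M : MorP F) {X : AlgOp} (N : MatOp X) (B W : Type)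
    [Ring B] [Algebra ℂ B] [Fintype W] [DecidableEq W] :
    (F.map (X.r (Matrix W W B))).ker →+ (F.map (X.r B)).ker :=
  AddMonoidHom.codRestrict
    (((M.T (X.obj B) W).comp (F.map (N.θ B W))).comp (F.map (X.r (Matrix W W B))).ker.subtype)
    (F.map (X.r B)).ker (by
      intro x
      have hx : F.map (X.r (Matrix W W B)) ((F.map (X.r (Matrix W W B))).ker.subtype x) = 0 := x.2
      rw [AddMonoidHom.mem_ker, AddMonoidHom.comp_apply, AddMonoidHom.comp_apply, M.nat, F_comp,
        N.ret, hx, map_zero])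

theorem relT_val {F : AlgFunctor} (M : MorP F) {X : AlgOp} (N : MatOp X) (B W : Type)
    [Ring B] [Algebra ℂ B] [Fintype W] [DecidableEq W]
    (x : (F.map (X.r (Matrix W W B))).ker) :
    (relT M N B W x).1 = M.T (X.obj B) W (F.map (N.θ B W) x.1) := rfl

theorem rel_gen {F : AlgFunctor} (M : MorP F) {X : AlgOp} (N : MatOp X) (B W : Type)
    [Ring B] [Algebra ℂ B] [Fintype W] [DecidableEq W] (w₀ : W)
    (x : F.obj (X.obj (Matrix W W B))) (hx : F.map (X.r (Matrix W W B)) x = 0) :
    ∃ z : F.obj (X.obj (B × B)), F.map (X.r (B × B)) z = 0 ∧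
      F.map (X.map (kapM B W w₀)) z = x := by
  obtain ⟨z', hz'⟩ := M.gen (X.obj B) W w₀ (F.map (N.θ B W) x)
  rw [← N.kap, ← F_comp, ← F_comp] at hz'
  have h1 : F.map (X.map (kapM B W w₀)) (F.map (N.ψ B) z') = x := by
    have h2 := congrArg (F.map (N.θ' B W)) hz'
    rw [F_comp F (N.θ' B W) (N.θ B W), F_comp F (N.θ' B W) (N.θ B W), N.left, F_id, F_id] at h2
    exact h2
  have hrs : F.map (X.r (B × B)) (F.map (X.s (B × B))
      (F.map (X.r (B × B)) (F.map (N.ψ B) z'))) =
      F.map (X.r (B × B)) (F.map (N.ψ B) z') := by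
    rw [F_comp, X.r_s, F_id]
  refine ⟨F.map (N.ψ B) z' - F.map (X.s (B × B)) (F.map (X.r (B × B)) (F.map (N.ψ B) z')), ?_, ?_⟩
  · rw [map_sub, hrs, sub_self]
  · rw [map_sub, h1]
    have h3 : F.map (X.map (kapM B W w₀)) (F.map (X.s (B × B))
        (F.map (X.r (B × B)) (F.map (N.ψ B) z'))) = 0 := by
      rw [F_comp, X.s_nat, ← F_comp, F_comp F (kapM B W w₀), ← X.r_nat, ← F_comp, h1, hx, map_zero]
    rw [h3, sub_zero]

/-- transfer to `F.rel X` -/
noncomputable def MorP.rel {F : AlgFunctor} (M : MorP F) {X : AlgOp} (N : MatOp X) :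
    MorP (F.rel X) where
  T B W _ _ _ _ := relT M N B W
  nat B B' W _ _ _ _ _ _ f x := by
    apply Subtype.ext
    rw [rel_map_val]
    change F.map (X.map f) (M.T (X.obj B) W (F.map (N.θ B W) _)) =
      M.T (X.obj B') W (F.map (N.θ B' W) (F.map (X.map f.mapMatrix) _))
    rw [M.nat, F_comp, F_comp, N.nat]
  diag C B W _ _ _ _ _ _ φ x := by
    apply Subtype.ext
    change M.T (X.obj B) W (F.map (N.θ B W) (F.map (X.map (diagHom φ)) _)) = _
    rw [F_comp, N.diag, M.diag]
    have h : ∀ (s : Finset W), ((∑ w ∈ s, (F.rel X).map (φ w) x : (F.rel X).obj B) :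
        (F.map (X.r B)).ker).1 = ∑ w ∈ s, F.map (X.map (φ w)) (x : (F.map (X.r C)).ker).1 := by
      intro s
      induction s using Finset.induction_on with
      | empty => rfl
      | insert a s ha ih =>
        rw [Finset.sum_insert ha, Finset.sum_insert ha, ← ih]
        rfl
    rw [h]
    rfl
  gen B W _ _ _ _ w₀ x := by
    obtain ⟨z, hz, hzx⟩ := rel_gen M N B W w₀ (x : (F.map (X.r (Matrix W W B))).ker).1
      (x : (F.map (X.r (Matrix W W B))).ker).2
    exact ⟨(⟨z, hz⟩ : (F.map (X.r (B × B))).ker), Subtype.ext hzx⟩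


section Entries

variable {B : Type} [Ring B] [Algebra ℂ B] {W : Type} [Fintype W] [DecidableEq W]

/-- the functions with values in matrices all of whose entries are polynomial -/
def entryPoly (B W : Type) [Ring B] [Algebra ℂ B] [Fintype W] [DecidableEq W] :
    Subalgebra ℂ (ℂ → Matrix W W B) where
  carrier := {f | ∀ i j, (fun t => f t i j) ∈ Poly B}
  mul_mem' := by
    intro f g hf hg i j
    have h : (fun t => (f * g) t i j) = ∑ k, (fun t => f t i k) * fun t => g t k j := by
      funext t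
      rw [Finset.sum_apply, Pi.mul_apply, Matrix.mul_apply]
      rfl
    change (fun t => (f * g) t i j) ∈ Poly B
    rw [h]
    exact Subalgebra.sum_mem _ fun k _ => (Poly B).mul_mem (hf i k) (hg k j)
  add_mem' := fun {f g} hf hg i j => (Poly B).add_mem (hf i j) (hg i j)
  algebraMap_mem' := by
    intro c i j
    have h : (fun t : ℂ => (algebraMap ℂ (ℂ → Matrix W W B) c) t i j) =
        fun _ => (algebraMap ℂ (Matrix W W B) c) i j := rfl
    rw [h]
    exact const_mem_poly _

theorem poly_entry {f : ℂ → Matrix W W B} (hf : f ∈ Poly (Matrix W W B)) (i j : W) :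
    (fun t => f t i j) ∈ Poly B := by
  have h : Poly (Matrix W W B) ≤ entryPoly B W := by
    refine Algebra.adjoin_le ?_
    rintro x (⟨a, rfl⟩ | rfl)
    · intro i j
      exact const_mem_poly (a i j)
    · intro i j
      by_cases h : i = j
      · subst h
        have h1 : (fun t : ℂ => (algebraMap ℂ (Matrix W W B) t) i i) =
            fun t => algebraMap ℂ B t := by
          funext t
          rw [Matrix.algebraMap_matrix_apply, if_pos rfl]
        change (fun t : ℂ => (algebraMap ℂ (Matrix W W B) t) i i) ∈ Poly B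
        rw [h1]
        exact var_mem_poly B
      · have h1 : (fun t : ℂ => (algebraMap ℂ (Matrix W W B) t) i j) = fun t => 0 := by
          funext t
          rw [Matrix.algebraMap_matrix_apply, if_neg h]
        change (fun t : ℂ => (algebraMap ℂ (Matrix W W B) t) i j) ∈ Poly B
        rw [h1]
        exact const_mem_poly 0
  exact h hf i j

theorem poly_of_entry {f : ℂ → Matrix W W B} (hf : ∀ i j, (fun t => f t i j) ∈ Poly B) :
    f ∈ Poly (Matrix W W B) := by
  have h : f = ∑ i, ∑ j, (fun _ : ℂ => Matrix.single i j (1 : B)) *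
      fun t => diagHom (fun _ : W => AlgHom.id ℂ B) (f t i j) := by
    funext t
    rw [Finset.sum_apply]
    ext a b
    rw [Matrix.sum_apply]
    rw [Finset.sum_eq_single a]
    · rw [Finset.sum_apply, Matrix.sum_apply, Finset.sum_eq_single b]
      · change f t a b = (Matrix.single a b (1 : B) *
          Matrix.diagonal fun _ : W => f t a b) a b
        rw [Matrix.mul_diagonal, Matrix.single_apply]
        simp
      · intro j _ hj
        change (Matrix.single a j (1 : B) * Matrix.diagonal fun _ : W => f t a j) a b = 0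
        rw [Matrix.mul_diagonal, Matrix.single_apply]
        simp [hj]
      · intro h; exact absurd (Finset.mem_univ _) h
    · intro i _ hi
      rw [Finset.sum_apply, Matrix.sum_apply]
      apply Finset.sum_eq_zero
      intro j _
      change (Matrix.single i j (1 : B) * Matrix.diagonal fun _ : W => f t i j) a b = 0
      rw [Matrix.mul_diagonal, Matrix.single_apply]
      simp [hi]
    · intro h; exact absurd (Finset.mem_univ _) h
  rw [h]
  refine Subalgebra.sum_mem _ fun i _ => Subalgebra.sum_mem _ fun j _ => ?_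
  exact (Poly _).mul_mem (const_mem_poly _) (comp_mem_poly _ (hf i j))

theorem prod_mem_poly {f g : ℂ → B} (hf : f ∈ Poly B) (hg : g ∈ Poly B) :
    (fun t => (f t, g t)) ∈ Poly (B × B) := by
  let δ : B →ₐ[ℂ] B × B := AlgHom.prod (AlgHom.id ℂ B) (AlgHom.id ℂ B)
  have h : (fun t => (f t, g t)) = (fun _ : ℂ => ((1 : B), (0 : B))) * (fun t => δ (f t)) +
      (fun _ : ℂ => ((0 : B), (1 : B))) * (fun t => δ (g t)) := by
    funext t
    change (f t, g t) = (1, 0) * (f t, f t) + (0, 1) * (g t, g t)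
    simp
  rw [h]
  exact (Poly _).add_mem ((Poly _).mul_mem (const_mem_poly _) (comp_mem_poly δ hf))
    ((Poly _).mul_mem (const_mem_poly _) (comp_mem_poly δ hg))

end Entries

section Gen

variable {P Q W : Type} [Ring P] [Algebra ℂ P] [Ring Q] [Algebra ℂ Q] [Fintype W] [DecidableEq W]

/-- the entries of a matrix valued function, as a homomorphism -/
noncomputable def thG (U : Subalgebra ℂ (ℂ → P)) (V : Subalgebra ℂ (ℂ → Q))
    (σ : P →ₐ[ℂ] Matrix W W Q) (h : ∀ f : U, ∀ i j, (fun t => σ (f.1 t) i j) ∈ V) :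
    U →ₐ[ℂ] Matrix W W V where
  toFun f := Matrix.of fun i j => ⟨fun t => σ (f.1 t) i j, h f i j⟩
  map_one' := by
    refine Matrix.ext fun i j => Subtype.ext (funext fun t => ?_)
    change σ 1 i j = ((1 : Matrix W W V) i j).1 t
    rw [map_one, Matrix.one_apply, Matrix.one_apply]
    split_ifs <;> rfl
  map_mul' f g := by
    refine Matrix.ext fun i j => Subtype.ext (funext fun t => ?_)
    rw [Matrix.mul_apply, AddSubmonoidClass.coe_finsetSum, Finset.sum_apply]
    change σ (f.1 t * g.1 t) i j = ∑ k, σ (f.1 t) i k * σ (g.1 t) k j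
    rw [map_mul, Matrix.mul_apply]
  map_zero' := by
    refine Matrix.ext fun i j => Subtype.ext (funext fun t => ?_)
    change σ 0 i j = 0
    rw [map_zero]
    rfl
  map_add' f g := by
    refine Matrix.ext fun i j => Subtype.ext (funext fun t => ?_)
    change σ (f.1 t + g.1 t) i j = σ (f.1 t) i j + σ (g.1 t) i j
    rw [map_add]
    rfl
  commutes' c := by
    refine Matrix.ext fun i j => Subtype.ext (funext fun t => ?_)
    change σ (algebraMap ℂ P c) i j = ((algebraMap ℂ (Matrix W W V) c) i j).1 t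
    rw [AlgHom.commutes, Matrix.algebraMap_matrix_apply, Matrix.algebraMap_matrix_apply]
    split_ifs <;> rfl

theorem thG_apply (U : Subalgebra ℂ (ℂ → P)) (V : Subalgebra ℂ (ℂ → Q))
    (σ : P →ₐ[ℂ] Matrix W W Q) (h : ∀ f : U, ∀ i j, (fun t => σ (f.1 t) i j) ∈ V) (f : U)
    (i j : W) (t : ℂ) : (thG U V σ h f i j).1 t = σ (f.1 t) i j := rfl

/-- the inverse -/
noncomputable def thG' (U : Subalgebra ℂ (ℂ → P)) (V : Subalgebra ℂ (ℂ → Q))
    (σ' : Matrix W W Q →ₐ[ℂ] P)
    (h' : ∀ g : Matrix W W V, (fun t => σ' ((evW V t).mapMatrix g)) ∈ U) :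
    Matrix W W V →ₐ[ℂ] U :=
  (AlgHom.pi (fun t : ℂ => σ'.comp (evW V t).mapMatrix)).codRestrict U h'

theorem thG'_apply (U : Subalgebra ℂ (ℂ → P)) (V : Subalgebra ℂ (ℂ → Q))
    (σ' : Matrix W W Q →ₐ[ℂ] P)
    (h' : ∀ g : Matrix W W V, (fun t => σ' ((evW V t).mapMatrix g)) ∈ U) (g : Matrix W W V)
    (t : ℂ) : (thG' U V σ' h' g).1 t = σ' ((evW V t).mapMatrix g) := rfl

theorem thG_left (U : Subalgebra ℂ (ℂ → P)) (V : Subalgebra ℂ (ℂ → Q))
    (σ : P →ₐ[ℂ] Matrix W W Q) (h : ∀ f : U, ∀ i j, (fun t => σ (f.1 t) i j) ∈ V)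
    (σ' : Matrix W W Q →ₐ[ℂ] P)
    (h' : ∀ g : Matrix W W V, (fun t => σ' ((evW V t).mapMatrix g)) ∈ U)
    (hσ : ∀ p, σ' (σ p) = p) : (thG' U V σ' h').comp (thG U V σ h) = AlgHom.id ℂ U := by
  refine AlgHom.ext fun f => Subtype.ext (funext fun t => ?_)
  exact hσ (f.1 t)

end Gen

theorem diag_val {Q W : Type} [Ring Q] [Algebra ℂ Q] [Fintype W] [DecidableEq W]
    {V : Subalgebra ℂ (ℂ → Q)} (d : W → V) (i j : W) (t : ℂ) :
    Matrix.diagonal (fun w => (d w).1 t) i j = ((Matrix.diagonal d : Matrix W W V) i j).1 t := by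
  rw [Matrix.diagonal_apply, Matrix.diagonal_apply]
  split_ifs <;> rfl

theorem diag_val2 {Q W : Type} [Ring Q] [Algebra ℂ Q] [Fintype W] [DecidableEq W] {m : ℕ}
    {V : Subalgebra ℂ (ℂ → Matrix (Fin m) (Fin m) Q)} (d : W → V) (i j : W) (t : ℂ)
    (a b : Fin m) : Matrix.diagonal (fun w => (d w).1 t a b) i j =
      ((Matrix.diagonal d : Matrix W W V) i j).1 t a b := by
  rw [Matrix.diagonal_apply, Matrix.diagonal_apply]
  split_ifs <;> rfl

/-- `polyOp` is compatible with matrices. -/
noncomputable def matOp_poly : MatOp polyOp where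
  θ B W _ _ _ _ := thG (Poly (Matrix W W B)) (Poly B) (AlgHom.id ℂ _)
    fun f i j => poly_entry f.2 i j
  θ' B W _ _ _ _ := thG' (Poly (Matrix W W B)) (Poly B) (AlgHom.id ℂ _)
    fun g => poly_of_entry fun i j => (g i j).2
  left B W _ _ _ _ := thG_left _ _ _ _ _ _ fun p => rfl
  nat B B' W _ _ _ _ _ _ f := by
    refine AlgHom.ext fun x => Matrix.ext fun i j => Subtype.ext (funext fun t => ?_)
    rfl
  ret B W _ _ _ _ := by
    refine AlgHom.ext fun x => Matrix.ext fun i j => ?_
    rfl
  diag C B W _ _ _ _ _ _ φ := by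
    refine AlgHom.ext fun x => Matrix.ext fun i j => Subtype.ext (funext fun t => ?_)
    exact diag_val (V := Poly B) (fun w => polyOp.map (φ w) x) i j t
  ψ B _ _ := (AlgHom.pi (fun t : ℂ => AlgHom.prod
    ((evP B t).comp (AlgHom.fst ℂ (Poly B) (Poly B)))
    ((evP B t).comp (AlgHom.snd ℂ (Poly B) (Poly B))))).codRestrict (Poly (B × B))
    fun x => prod_mem_poly x.1.2 x.2.2
  fst B _ _ := AlgHom.ext fun x => Subtype.ext (funext fun t => rfl)
  snd B _ _ := AlgHom.ext fun x => Subtype.ext (funext fun t => rfl)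

/-- `loopOp` is compatible with matrices. -/
noncomputable def matOp_loop : MatOp loopOp where
  θ B W _ _ _ _ := thG (Loop (Matrix W W B)) (Loop B) (AlgHom.id ℂ _)
    fun f i j => ⟨poly_entry f.2.1 i j, congrArg (fun M : Matrix W W B => M i j) f.2.2⟩
  θ' B W _ _ _ _ := thG' (Loop (Matrix W W B)) (Loop B) (AlgHom.id ℂ _)
    fun g => ⟨poly_of_entry fun i j => (g i j).2.1, Matrix.ext fun i j => (g i j).2.2⟩
  left B W _ _ _ _ := thG_left _ _ _ _ _ _ fun p => rfl
  nat B B' W _ _ _ _ _ _ f := by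
    refine AlgHom.ext fun x => Matrix.ext fun i j => Subtype.ext (funext fun t => ?_)
    rfl
  ret B W _ _ _ _ := by
    refine AlgHom.ext fun x => Matrix.ext fun i j => ?_
    rfl
  diag C B W _ _ _ _ _ _ φ := by
    refine AlgHom.ext fun x => Matrix.ext fun i j => Subtype.ext (funext fun t => ?_)
    exact diag_val (V := Loop B) (fun w => loopOp.map (φ w) x) i j t
  ψ B _ _ := (AlgHom.pi (fun t : ℂ => AlgHom.prod
    ((evW (Loop B) t).comp (AlgHom.fst ℂ (Loop B) (Loop B)))
    ((evW (Loop B) t).comp (AlgHom.snd ℂ (Loop B) (Loop B))))).codRestrict (Loop (B × B))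
    fun x => ⟨prod_mem_poly x.1.2.1 x.2.2.1, Prod.ext x.1.2.2 x.2.2.2⟩
  fst B _ _ := AlgHom.ext fun x => Subtype.ext (funext fun t => rfl)
  snd B _ _ := AlgHom.ext fun x => Subtype.ext (funext fun t => rfl)

/-- exchanging the two matrix structures -/
noncomputable def swM (B V W : Type) [Ring B] [Algebra ℂ B] [Fintype W] [DecidableEq W]
    [Fintype V] [DecidableEq V] : Matrix V V (Matrix W W B) →ₐ[ℂ] Matrix W W (Matrix V V B) where
  toFun f := Matrix.of fun i j => Matrix.of fun a b => f a b i j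
  map_one' := by
    ext i j a b
    change (1 : Matrix V V (Matrix W W B)) a b i j = (1 : Matrix W W (Matrix V V B)) i j a b
    rw [Matrix.one_apply, Matrix.one_apply]
    split_ifs with h1 h2 h2
    · rw [Matrix.one_apply, Matrix.one_apply, if_pos h1, if_pos h2]
    · rw [Matrix.one_apply, if_neg h2]; rfl
    · rw [Matrix.one_apply, if_neg h1]; rfl
    · rfl
  map_mul' f g := by
    ext i j a b
    change (f * g) a b i j = ((Matrix.of fun i j => Matrix.of fun a b => f a b i j) *
      (Matrix.of fun i j => Matrix.of fun a b => g a b i j) :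
      Matrix W W (Matrix V V B)) i j a b
    rw [Matrix.mul_apply, Matrix.mul_apply, Matrix.sum_apply, Matrix.sum_apply]
    simp only [Matrix.mul_apply, Matrix.of_apply]
    rw [Finset.sum_comm]
  map_zero' := rfl
  map_add' f g := rfl
  commutes' c := by
    ext i j a b
    change (algebraMap ℂ (Matrix V V (Matrix W W B)) c) a b i j =
      (algebraMap ℂ (Matrix W W (Matrix V V B)) c) i j a b
    rw [Matrix.algebraMap_matrix_apply, Matrix.algebraMap_matrix_apply]
    split_ifs with h1 h2 h2
    · rw [Matrix.algebraMap_matrix_apply, Matrix.algebraMap_matrix_apply, if_pos h1, if_pos h2]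
    · rw [Matrix.algebraMap_matrix_apply, if_neg h2]; rfl
    · rw [Matrix.algebraMap_matrix_apply, if_neg h1]; rfl
    · rfl

theorem swM_apply {B V W : Type} [Ring B] [Algebra ℂ B] [Fintype W] [DecidableEq W]
    [Fintype V] [DecidableEq V] (f : Matrix V V (Matrix W W B)) (i j : W) (a b : V) :
    swM B V W f i j a b = f a b i j := rfl

theorem swM_scalar {B W : Type} [Ring B] [Algebra ℂ B] [Fintype W] [DecidableEq W] (m : ℕ)
    (a : Matrix W W B) (i j : W) :
    swM B (Fin m) W (Matrix.scalar (Fin m) a) i j = Matrix.scalar (Fin m) (a i j) := by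
  ext p q
  rw [swM_apply, Matrix.scalar_apply, Matrix.scalar_apply, Matrix.diagonal_apply,
    Matrix.diagonal_apply]
  split_ifs <;> rfl

theorem cone_entry {B W : Type} [Ring B] [Algebra ℂ B] [Fintype W] [DecidableEq W] (m : ℕ)
    (f : Cone m (Matrix W W B)) (i j : W) :
    (fun t => swM B (Fin m) W (f.1 t) i j) ∈ Cone m B := by
  refine ⟨poly_of_entry fun a b => poly_entry (poly_entry f.2.1 a b) i j, ?_, ?_⟩
  · obtain ⟨a, ha⟩ := f.2.2.1
    refine ⟨a i j, ?_⟩
    change swM B (Fin m) W (f.1 0) i j = _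
    rw [ha, swM_scalar]
  · obtain ⟨a, ha⟩ := f.2.2.2
    refine ⟨a i j, ?_⟩
    change swM B (Fin m) W (f.1 1) i j = _
    rw [ha, swM_scalar]

theorem scalar_of_entries {B W : Type} [Ring B] [Algebra ℂ B] [Fintype W] [DecidableEq W]
    (m : ℕ) (g : Matrix W W (Matrix (Fin m) (Fin m) B))
    (h : ∀ i j, ∃ a : B, g i j = Matrix.scalar (Fin m) a) :
    ∃ a : Matrix W W B, swM B W (Fin m) g = Matrix.scalar (Fin m) a := by
  choose a ha using h
  refine ⟨Matrix.of a, ?_⟩
  ext p q i j
  rw [swM_apply, ha, Matrix.scalar_apply, Matrix.scalar_apply, Matrix.diagonal_apply,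
    Matrix.diagonal_apply]
  split_ifs <;> rfl

theorem cone_of_entry {B W : Type} [Ring B] [Algebra ℂ B] [Fintype W] [DecidableEq W] (m : ℕ)
    (g : Matrix W W (Cone m B)) :
    (fun t => swM B W (Fin m) ((evW (Cone m B) t).mapMatrix g)) ∈ Cone m (Matrix W W B) := by
  refine ⟨poly_of_entry fun a b => poly_of_entry fun i j => poly_entry (g i j).2.1 a b, ?_, ?_⟩
  · exact scalar_of_entries m _ fun i j => (g i j).2.2.1
  · exact scalar_of_entries m _ fun i j => (g i j).2.2.2

/-- pairs of matrices as matrices over the product -/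
noncomputable def prM (B V : Type) [Ring B] [Algebra ℂ B] [Fintype V] [DecidableEq V] :
    Matrix V V B × Matrix V V B →ₐ[ℂ] Matrix V V (B × B) where
  toFun x := Matrix.of fun a b => (x.1 a b, x.2 a b)
  map_one' := by
    ext a b
    · change (1 : Matrix V V B) a b = ((1 : Matrix V V (B × B)) a b).1
      rw [Matrix.one_apply, Matrix.one_apply]
      split_ifs <;> rfl
    · change (1 : Matrix V V B) a b = ((1 : Matrix V V (B × B)) a b).2
      rw [Matrix.one_apply, Matrix.one_apply]
      split_ifs <;> rfl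
  map_mul' x y := by
    ext a b
    · rw [Matrix.mul_apply, Prod.fst_sum]
      change (x.1 * y.1) a b = _
      rw [Matrix.mul_apply]
      rfl
    · rw [Matrix.mul_apply, Prod.snd_sum]
      change (x.2 * y.2) a b = _
      rw [Matrix.mul_apply]
      rfl
  map_zero' := rfl
  map_add' f g := rfl
  commutes' c := by
    ext a b
    · change (algebraMap ℂ (Matrix V V B) c) a b = ((algebraMap ℂ (Matrix V V (B × B)) c) a b).1
      rw [Matrix.algebraMap_matrix_apply, Matrix.algebraMap_matrix_apply]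
      split_ifs <;> rfl
    · change (algebraMap ℂ (Matrix V V B) c) a b = ((algebraMap ℂ (Matrix V V (B × B)) c) a b).2
      rw [Matrix.algebraMap_matrix_apply, Matrix.algebraMap_matrix_apply]
      split_ifs <;> rfl

theorem prM_scalar {B : Type} [Ring B] [Algebra ℂ B] (m : ℕ) (a b : B) :
    prM B (Fin m) (Matrix.scalar (Fin m) a, Matrix.scalar (Fin m) b) =
      Matrix.scalar (Fin m) (a, b) := by
  ext p q
  · change (Matrix.scalar (Fin m) a) p q = ((Matrix.scalar (Fin m) (a, b)) p q).1
    rw [Matrix.scalar_apply, Matrix.scalar_apply, Matrix.diagonal_apply, Matrix.diagonal_apply]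
    split_ifs <;> rfl
  · change (Matrix.scalar (Fin m) b) p q = ((Matrix.scalar (Fin m) (a, b)) p q).2
    rw [Matrix.scalar_apply, Matrix.scalar_apply, Matrix.diagonal_apply, Matrix.diagonal_apply]
    split_ifs <;> rfl

theorem cone_prod {B : Type} [Ring B] [Algebra ℂ B] (m : ℕ) (x : Cone m B × Cone m B) :
    (fun t => prM B (Fin m) (x.1.1 t, x.2.1 t)) ∈ Cone m (B × B) := by
  refine ⟨poly_of_entry fun a b => prod_mem_poly (poly_entry x.1.2.1 a b)
    (poly_entry x.2.2.1 a b), ?_, ?_⟩
  · obtain ⟨a, ha⟩ := x.1.2.2.1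
    obtain ⟨b, hb⟩ := x.2.2.2.1
    refine ⟨(a, b), ?_⟩
    change prM B (Fin m) (x.1.1 0, x.2.1 0) = _
    rw [ha, hb, prM_scalar]
  · obtain ⟨a, ha⟩ := x.1.2.2.2
    obtain ⟨b, hb⟩ := x.2.2.2.2
    refine ⟨(a, b), ?_⟩
    change prM B (Fin m) (x.1.1 1, x.2.1 1) = _
    rw [ha, hb, prM_scalar]

/-- `coneOp m` is compatible with matrices. -/
noncomputable def matOp_cone (m : ℕ) [NeZero m] : MatOp (coneOp m) where
  θ B W _ _ _ _ := thG (Cone m (Matrix W W B)) (Cone m B) (swM B (Fin m) W)
    fun f i j => cone_entry m f i j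
  θ' B W _ _ _ _ := thG' (Cone m (Matrix W W B)) (Cone m B) (swM B W (Fin m))
    fun g => cone_of_entry m g
  left B W _ _ _ _ := thG_left _ _ _ _ _ _ fun p => rfl
  nat B B' W _ _ _ _ _ _ f := by
    refine AlgHom.ext fun x => Matrix.ext fun i j => Subtype.ext (funext fun t => ?_)
    rfl
  ret B W _ _ _ _ := by
    refine AlgHom.ext fun x => Matrix.ext fun i j => ?_
    rfl
  diag C B W _ _ _ _ _ _ φ := by
    refine AlgHom.ext fun x => Matrix.ext fun i j => Subtype.ext (funext fun t => ?_)
    refine Matrix.ext fun a b => ?_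
    exact diag_val2 (V := Cone m B) (fun w => (coneOp m).map (φ w) x) i j t a b
  ψ B _ _ := (AlgHom.pi (fun t : ℂ =>
    (prM B (Fin m)).comp (AlgHom.prod
    ((evW (Cone m B) t).comp (AlgHom.fst ℂ (Cone m B) (Cone m B)))
    ((evW (Cone m B) t).comp (AlgHom.snd ℂ (Cone m B) (Cone m B)))))).codRestrict
      (Cone m (B × B)) fun x => cone_prod m x
  fst B _ _ := AlgHom.ext fun x => Subtype.ext (funext fun t => rfl)
  snd B _ _ := AlgHom.ext fun x => Subtype.ext (funext fun t => rfl)


theorem flU_diag {C B W n : Type} [Ring C] [Algebra ℂ C] [Ring B] [Algebra ℂ B]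
    [Fintype W] [DecidableEq W] [Fintype n] [DecidableEq n] (φ : W → (C →ₐ[ℂ] B))
    (g : (Matrix n n C)ˣ) : flU n W B (mA (diagHom φ) g) = bdU fun w => mA (φ w) g := by
  apply Units.ext
  ext a b
  rw [flU_apply, bdU_apply]
  change Matrix.diagonal (fun w => φ w (g.val a.1 b.1)) a.2 b.2 = _
  rw [Matrix.diagonal_apply]
  rfl

theorem trK_diag {C B W : Type} [Ring C] [Algebra ℂ C] [Ring B] [Algebra ℂ B]
    [Fintype W] [DecidableEq W] (φ : W → (C →ₐ[ℂ] B)) (x : KOne C) :
    trK B W (KOne.map (diagHom φ).toRingHom x) = ∑ w, KOne.map (φ w).toRingHom x := by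
  obtain ⟨k, g, rfl⟩ := exists_k1 x
  rw [KOne.map_k1, trK_k1]
  have h : flU (Fin k) W B (mU (diagHom φ).toRingHom g) = bdU fun w => mU (φ w).toRingHom g :=
    flU_diag φ g
  rw [h, k1_bdU]
  exact Finset.sum_congr rfl fun w _ => (KOne.map_k1 _ _).symm

/-- the invertible matrix over `S × S` with components `g` and `1` -/
def pairU {n S : Type} [Ring S] [Fintype n] [DecidableEq n] (g : (Matrix n n S)ˣ) :
    (Matrix n n (S × S))ˣ where
  val := Matrix.of fun i j => (g.val i j, (1 : Matrix n n S) i j)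
  inv := Matrix.of fun i j => (g⁻¹.val i j, (1 : Matrix n n S) i j)
  val_inv := by
    have h1 : ∀ i j, (g.val * g⁻¹.val) i j = (1 : Matrix n n S) i j := by
      intro i j; rw [Units.mul_inv]
    have h2 : ∀ i j, ((1 : Matrix n n S) * (1 : Matrix n n S)) i j = (1 : Matrix n n S) i j := by
      intro i j; rw [Matrix.mul_one]
    refine Matrix.ext fun i j => Prod.ext ?_ ?_
    · rw [Matrix.mul_apply, Prod.fst_sum, Matrix.one_apply]
      refine ((Matrix.mul_apply).symm.trans (h1 i j)).trans ?_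
      rw [Matrix.one_apply]
      split_ifs <;> rfl
    · rw [Matrix.mul_apply, Prod.snd_sum, Matrix.one_apply]
      refine ((Matrix.mul_apply).symm.trans (h2 i j)).trans ?_
      rw [Matrix.one_apply]
      split_ifs <;> rfl
  inv_val := by
    have h1 : ∀ i j, (g⁻¹.val * g.val) i j = (1 : Matrix n n S) i j := by
      intro i j; rw [Units.inv_mul]
    have h2 : ∀ i j, ((1 : Matrix n n S) * (1 : Matrix n n S)) i j = (1 : Matrix n n S) i j := by
      intro i j; rw [Matrix.mul_one]
    refine Matrix.ext fun i j => Prod.ext ?_ ?_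
    · rw [Matrix.mul_apply, Prod.fst_sum, Matrix.one_apply]
      refine ((Matrix.mul_apply).symm.trans (h1 i j)).trans ?_
      rw [Matrix.one_apply]
      split_ifs <;> rfl
    · rw [Matrix.mul_apply, Prod.snd_sum, Matrix.one_apply]
      refine ((Matrix.mul_apply).symm.trans (h2 i j)).trans ?_
      rw [Matrix.one_apply]
      split_ifs <;> rfl

theorem pairU_apply {n S : Type} [Ring S] [Fintype n] [DecidableEq n] (g : (Matrix n n S)ˣ)
    (i j : n) : (pairU g).val i j = (g.val i j, (1 : Matrix n n S) i j) := rfl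

theorem k1_kap {B W n : Type} [Ring B] [Algebra ℂ B] [Fintype W] [DecidableEq W] [Fintype n]
    [DecidableEq n] (w₀ : W) (g : (Matrix n n (Matrix W W B))ˣ) :
    k1 (mU (kapM B W w₀).toRingHom (pairU (flU n W B g))) = k1 g := by
  let C : Matrix (n × W) n (Matrix W W B) :=
    Matrix.of fun a i => if a.1 = i then Matrix.single w₀ a.2 1 else 0
  let R : Matrix n (n × W) (Matrix W W B) :=
    Matrix.of fun i a => if a.1 = i then Matrix.single a.2 w₀ 1 else 0
  have hRC : R * C = 1 := by
    refine Matrix.ext fun i j => ?_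
    rw [Matrix.mul_apply, Matrix.one_apply, Fintype.sum_prod_type, Finset.sum_eq_single i]
    · change ∑ w, (if i = i then Matrix.single w w₀ (1 : B) else 0) *
        (if i = j then Matrix.single w₀ w 1 else 0) = _
      simp only [if_true]
      by_cases h : i = j
      · simp only [if_pos h]
        refine Matrix.ext fun p q => ?_
        rw [Matrix.sum_apply, Matrix.one_apply]
        rw [Finset.sum_congr rfl fun w _ => by
          rw [Matrix.single_mul_single_same, mul_one, Matrix.single_apply]]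
        by_cases hpq : p = q
        · subst hpq
          rw [Finset.sum_eq_single p]
          · simp
          · intro b _ hb
            rw [if_neg fun h => hb h.1]
          · intro h; exact absurd (Finset.mem_univ _) h
        · rw [if_neg hpq]
          apply Finset.sum_eq_zero
          intro w _
          rw [if_neg fun h => hpq (h.1.symm.trans h.2)]
      · simp only [if_neg h, mul_zero, Finset.sum_const_zero]
    · intro a _ ha
      apply Finset.sum_eq_zero
      intro w _
      change (if a = i then Matrix.single w w₀ (1 : B) else 0) * _ = 0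
      rw [if_neg ha, zero_mul]
    · intro h; exact absurd (Finset.mem_univ _) h
  have h1 : (mU (kapM B W w₀).toRingHom (pairU (flU n W B g))).val - 1 = C * ((g.val - 1) * R) := by
    refine Matrix.ext fun a b => ?_
    have e1 : (C * ((g.val - 1) * R) : Matrix (n × W) (n × W) (Matrix W W B)) a b =
        Matrix.single w₀ a.2 1 * ((g.val - 1) a.1 b.1 * Matrix.single b.2 w₀ 1) := by
      rw [Matrix.mul_apply, Finset.sum_eq_single a.1]
      · change (if a.1 = a.1 then Matrix.single w₀ a.2 (1 : B) else 0) * _ = _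
        rw [if_pos rfl, Matrix.mul_apply, Finset.sum_eq_single b.1]
        · change _ * (_ * (if b.1 = b.1 then Matrix.single b.2 w₀ (1 : B) else 0)) = _
          rw [if_pos rfl]
        · intro c _ hc
          change _ * (if b.1 = c then Matrix.single b.2 w₀ (1 : B) else 0) = _
          rw [if_neg (Ne.symm hc), mul_zero]
        · intro h; exact absurd (Finset.mem_univ _) h
      · intro c _ hc
        change (if a.1 = c then Matrix.single w₀ a.2 (1 : B) else 0) * _ = _
        rw [if_neg (Ne.symm hc), zero_mul]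
      · intro h; exact absurd (Finset.mem_univ _) h
    rw [e1]
    refine Matrix.ext fun p q => ?_
    have e2 : (Matrix.single w₀ a.2 1 * ((g.val - 1) a.1 b.1 * Matrix.single b.2 w₀ 1) :
        Matrix W W B) p q =
        if p = w₀ ∧ q = w₀ then (g.val - 1) a.1 b.1 a.2 b.2 else 0 := by
      by_cases hp : p = w₀
      · subst hp
        rw [Matrix.single_mul_apply_same, one_mul]
        by_cases hq : q = p
        · subst hq
          rw [Matrix.mul_single_apply_same, mul_one, if_pos ⟨rfl, rfl⟩]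
        · rw [Matrix.mul_single_apply_of_ne _ _ _ _ _ hq, if_neg fun h => hq h.2]
      · rw [Matrix.single_mul_apply_of_ne _ _ _ _ _ hp, if_neg fun h => hp h.1]
    rw [e2]
    change (Matrix.diagonal (fun w => (if w = w₀ then AlgHom.fst ℂ B B else AlgHom.snd ℂ B B)
      ((flU n W B g).val a b, (1 : Matrix (n × W) (n × W) B) a b)) -
      (1 : Matrix (n × W) (n × W) (Matrix W W B)) a b) p q = _
    have e3 : (1 : Matrix (n × W) (n × W) (Matrix W W B)) a b p q =
        if a = b then (if p = q then 1 else 0) else 0 := by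
      rw [Matrix.one_apply]
      split_ifs with h1 h2
      · rw [Matrix.one_apply, if_pos h2]
      · rw [Matrix.one_apply, if_neg h2]
      · rfl
    have e4 : (g.val - 1) a.1 b.1 a.2 b.2 = g.val a.1 b.1 a.2 b.2 - if a = b then 1 else 0 := by
      rw [Matrix.sub_apply, Matrix.sub_apply, Matrix.one_apply]
      congr 1
      by_cases h : a = b
      · subst h
        rw [if_pos rfl, if_pos rfl, Matrix.one_apply, if_pos rfl]
      · rw [if_neg h]
        by_cases h' : a.1 = b.1
        · rw [if_pos h', Matrix.one_apply, if_neg fun h'' => h (Prod.ext h' h'')]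
        · rw [if_neg h']; rfl
    rw [Matrix.sub_apply, e3, e4, Matrix.diagonal_apply]
    by_cases hpq : p = q
    · subst hpq
      by_cases hp : p = w₀
      · simp only [hp, and_self, if_true]
        rfl
      · simp only [hp, and_self, if_true, if_false]
        change (1 : Matrix (n × W) (n × W) B) a b - _ = 0
        rw [Matrix.one_apply]
        split_ifs <;> simp
    · have hc : ¬ (p = w₀ ∧ q = w₀) := fun h => hpq (h.1.trans h.2.symm)
      simp only [hpq, hc, if_false, ite_self, sub_zero]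
  rw [← kk_sub_one, h1, kk_comm, Matrix.mul_assoc, hRC, Matrix.mul_one, kk_sub_one]

/-- Morita homomorphisms for `K₁` -/
noncomputable def morP_K1 : MorP K1F where
  T B W _ _ _ _ := trK B W
  nat B B' W _ _ _ _ _ _ f x := map_trK f.toRingHom x
  diag C B W _ _ _ _ _ _ φ x := trK_diag φ x
  gen B W _ _ _ _ w₀ x := by
    obtain ⟨k, g, hg⟩ := exists_k1 (S := Matrix W W B) x
    refine ⟨(k1 (pairU (flU (Fin k) W B g)) : KOne (B × B)), ?_⟩
    refine Eq.trans ?_ hg
    refine Eq.trans (KOne.map_k1 _ _) ?_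
    exact k1_kap w₀ g

/-- the entries of a polynomial -/
noncomputable def thP (B W : Type) [Ring B] [Algebra ℂ B] [Fintype W] [DecidableEq W] :
    Poly (Matrix W W B) →ₐ[ℂ] Matrix W W (Poly B) :=
  thG (Poly (Matrix W W B)) (Poly B) (AlgHom.id ℂ _) fun f i j => poly_entry f.2 i j

theorem evP_thP (B W : Type) [Ring B] [Algebra ℂ B] [Fintype W] [DecidableEq W] (t : ℂ) :
    (evP B t).mapMatrix.comp (thP B W) = evP (Matrix W W B) t := by
  refine AlgHom.ext fun x => Matrix.ext fun i j => ?_
  rfl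

theorem htpy_le_T (B W : Type) [Ring B] [Algebra ℂ B] [Fintype W] [DecidableEq W] :
    K1F.htpy (Matrix W W B) ≤ (K1F.htpy B).comap (morP_K1.T B W) := by
  rintro _ ⟨y, rfl⟩
  refine ⟨morP_K1.T (Poly B) W (K1F.map (thP B W) y), ?_⟩
  have h : ∀ t : ℂ, K1F.map (evP B t) (morP_K1.T (Poly B) W (K1F.map (thP B W) y)) =
      morP_K1.T B W (K1F.map (evP (Matrix W W B) t) y) := by
    intro t
    rw [morP_K1.nat, F_comp, evP_thP]
  rw [AddMonoidHom.sub_apply, h, h, ← map_sub]
  rfl

/-- Morita homomorphisms for `KV₁` -/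
noncomputable def morP_KV1 : MorP KV1F where
  T B W _ _ _ _ := QuotientAddGroup.map (K1F.htpy (Matrix W W B)) (K1F.htpy B)
    (morP_K1.T B W) (htpy_le_T B W)
  nat B B' W _ _ _ _ _ _ f x := by
    obtain ⟨y, rfl⟩ := toKV_surjective x
    exact congrArg (toKV B') (morP_K1.nat B B' W f y)
  diag C B W _ _ _ _ _ _ φ x := by
    obtain ⟨y, rfl⟩ := toKV_surjective x
    refine (congrArg (toKV B) (morP_K1.diag C B W φ y)).trans ?_
    rw [map_sum]
    rfl
  gen B W _ _ _ _ w₀ x := by
    obtain ⟨y, rfl⟩ := toKV_surjective x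
    obtain ⟨z, hz⟩ := morP_K1.gen B W w₀ y
    exact ⟨toKV _ z, congrArg (toKV _) hz⟩

/-- Morita homomorphisms for `KV k` -/
noncomputable def morP_KV : ∀ k : ℕ, MorP (KV k)
  | 0 => morP_KV1
  | k + 1 => (morP_KV k).rel matOp_loop

end MatP

/-- The functors `KV k` have the matrix property. -/
theorem matProp_KV (k : ℕ) : MatProp (KV k) := (MatP.morP_KV k).matProp

/-- The functors `hK m k` have the matrix property. -/
theorem matProp_hK (m : ℕ) [NeZero m] (k : ℕ) : MatProp (hK m k) :=
  ((MatP.morP_KV k).rel (MatP.matOp_cone m)).matProp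

end Pool.Agent.Lib.MP_e7fbd4_ag
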