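import Pool.Agent.Lib.MP_c052b4_al.RegRing

/-!
# Polynomial extensions

Let `T` be a polynomial ring over `A` in one central variable, given abstractly.  If `A` is (left)
regular, then so is `T`, and `K₀(A) → K₀(T)` is surjective.
-/

set_option autoImplicit false

namespace Pool.Agent.Lib.MP_e7fbd4_ag

open Matrix Pool.Agent.Lib.MP_c052b4_al

set_option linter.unusedSectionVars false

universe u v w

/-- `T` is a polynomial ring over `A` in one variable: every element of `T` is uniquely of the
form `∑ₖ xᵏ ι(aₖ)`, where `x ι(a) = ι(a) x`. -/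
structure PolyExt (A : Type u) (T : Type v) [Ring A] [Ring T] where
  /-- the inclusion -/
  ι : A →+* T
  /-- the variable -/
  x : T
  /-- commutation rule -/
  comm : ∀ a, x * ι a = ι a * x
  /-- coordinates -/
  co : T →+ (ℕ →₀ A)
  co_injective : Function.Injective co
  co_x_mul_succ : ∀ y k, co (x * y) (k + 1) = co y k
  co_x_mul_zero : ∀ y, co (x * y) 0 = 0
  co_mul_ι : ∀ y a k, co (y * ι a) k = co y k * a
  co_one : co 1 = Finsupp.single 0 1

namespace PolyExt

variable {A : Type u} {T : Type v} [Ring A] [Ring T] (L : PolyExt A T)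

theorem xpow_mul_ι (k : ℕ) (a : A) : L.x ^ k * L.ι a = L.ι a * L.x ^ k := by
  induction k with
  | zero => simp
  | succ n ih => rw [pow_succ, mul_assoc, L.comm, ← mul_assoc, ih, mul_assoc]

theorem co_x_mul (y : T) (k : ℕ) : L.co (L.x * y) k = if 1 ≤ k then L.co y (k - 1) else 0 := by
  rcases k with _ | k
  · simp [L.co_x_mul_zero]
  · simp [L.co_x_mul_succ]

theorem co_xpow_mul (j : ℕ) (y : T) (k : ℕ) :
    L.co (L.x ^ j * y) k = if j ≤ k then L.co y (k - j) else 0 := by
  induction j generalizing k with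
  | zero => simp
  | succ n ih =>
    rw [pow_succ', mul_assoc, L.co_x_mul]
    rcases k with _ | k
    · simp
    · simp [ih]

theorem co_xpow_mul_ι (j : ℕ) (a : A) : L.co (L.x ^ j * L.ι a) = Finsupp.single j a := by
  ext k
  rw [co_xpow_mul]
  have := L.co_mul_ι 1 a (k - j)
  rw [one_mul, L.co_one] at this
  rw [this, Finsupp.single_apply, Finsupp.single_apply]
  by_cases h : j = k
  · simp [h]
  · by_cases h1 : j ≤ k
    · have h' : ¬ (0 = k - j) := fun h' => h (by omega)
      simp [h, h']
    · simp [h, h1]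

theorem expand (y : T) : y = (L.co y).sum fun k a => L.x ^ k * L.ι a := by
  apply L.co_injective
  rw [Finsupp.sum, map_sum]
  simp only [co_xpow_mul_ι]
  exact (Finsupp.sum_single (L.co y)).symm

theorem induction {P : T → Prop} (h0 : P 0) (hadd : ∀ x y, P x → P y → P (x + y))
    (h1 : ∀ k a, P (L.x ^ k * L.ι a)) (y : T) : P y := by
  rw [L.expand y, Finsupp.sum]
  exact Finset.sum_induction _ P hadd h0 fun k _ => h1 k _

/-- The variable is central. -/
theorem x_central (y : T) : L.x * y = y * L.x := by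
  induction y using L.induction with
  | h0 => simp
  | hadd y z hy hz => rw [mul_add, add_mul, hy, hz]
  | h1 k a => rw [mul_assoc, ← L.comm, ← mul_assoc, ← mul_assoc, ← pow_succ', ← pow_succ]

theorem xpow_central (k : ℕ) (y : T) : L.x ^ k * y = y * L.x ^ k := by
  induction k with
  | zero => simp
  | succ n ih => rw [pow_succ, mul_assoc, L.x_central, ← mul_assoc, ih, mul_assoc]

theorem co_ι_mul (a : A) (y : T) (k : ℕ) : L.co (L.ι a * y) k = a * L.co y k := by
  induction y using L.induction with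
  | h0 => simp
  | hadd x y hx hy => rw [mul_add, map_add, map_add, Finsupp.add_apply, Finsupp.add_apply, hx, hy,
      mul_add]
  | h1 j s' =>
    have h2 : L.ι a * (L.x ^ j * L.ι s') = L.x ^ j * L.ι (a * s') := by
      rw [map_mul, ← mul_assoc, ← mul_assoc, xpow_mul_ι]
    rw [h2, co_xpow_mul_ι, co_xpow_mul_ι, Finsupp.single_apply, Finsupp.single_apply]
    by_cases h : j = k
    · simp [h]
    · simp [h]

theorem co_mul_xpow (y : T) (j k : ℕ) :
    L.co (y * L.x ^ j) k = if j ≤ k then L.co y (k - j) else 0 := by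
  rw [← xpow_central, co_xpow_mul]

theorem co_ι (a : A) : L.co (L.ι a) = Finsupp.single 0 a := by
  have := L.co_xpow_mul_ι 0 a
  rwa [pow_zero, one_mul] at this

theorem x_mul_injective {y z : T} (h : L.x * y = L.x * z) : y = z := by
  apply L.co_injective
  ext k
  rw [← L.co_x_mul_succ, h, L.co_x_mul_succ]

section Vec

variable {I : Type*}

/-- the `k`-th coordinate vector of a vector over `T` -/
noncomputable def cf (w : I → T) (k : ℕ) : I → A := fun i => L.co (w i) k

theorem cf_ext {w w' : I → T} (h : ∀ k, L.cf w k = L.cf w' k) : w = w' := by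
  funext i
  apply L.co_injective
  ext k
  exact congrFun (h k) i

@[simp] theorem cf_zero (k : ℕ) : L.cf (0 : I → T) k = 0 := by
  funext i; simp [cf]

theorem cf_add (w w' : I → T) (k : ℕ) : L.cf (w + w') k = L.cf w k + L.cf w' k := by
  funext i; simp [cf]

theorem cf_sub (w w' : I → T) (k : ℕ) : L.cf (w - w') k = L.cf w k - L.cf w' k := by
  funext i; simp [cf]

theorem cf_xpow_smul (j : ℕ) (w : I → T) (k : ℕ) :
    L.cf (L.x ^ j • w) k = if j ≤ k then L.cf w (k - j) else 0 := by
  funext i
  by_cases h : j ≤ k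
  · simp [cf, co_xpow_mul, h]
  · simp [cf, co_xpow_mul, h]

theorem cf_ι_smul (a : A) (w : I → T) (k : ℕ) :
    L.cf (L.ι a • w) k = a • L.cf w k := by
  funext i; simp [cf, co_ι_mul]

/-- the vector over `T` given by a vector over `A` -/
def emb (v : I → A) : I → T := fun i => L.ι (v i)

theorem emb_add (v v' : I → A) : L.emb (v + v') = L.emb v + L.emb v' := by
  funext i; simp [emb]

@[simp] theorem emb_zero : L.emb (0 : I → A) = 0 := by
  funext i; simp [emb]

theorem emb_smul (a : A) (v : I → A) : L.emb (a • v) = L.ι a • L.emb v := by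
  funext i; simp [emb]

theorem cf_emb (v : I → A) (k : ℕ) : L.cf (L.emb v) k = if k = 0 then v else 0 := by
  funext i
  simp only [cf, emb, co_ι, Finsupp.single_apply]
  by_cases h : k = 0
  · simp [h]
  · have : ¬ (0 = k) := fun h' => h h'.symm
    simp [h, this]

theorem cf_xpow_emb (j : ℕ) (v : I → A) (k : ℕ) :
    L.cf (L.x ^ j • L.emb v) k = if k = j then v else 0 := by
  rw [cf_xpow_smul, cf_emb]
  by_cases h : k = j
  · simp [h]
  · by_cases h1 : j ≤ k
    · have : ¬ (k - j = 0) := by omega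
      simp [h, this]
    · simp [h, h1]

theorem cf_vecMul [Fintype I] {J : Type*} (w : I → T) (F : Matrix I J A) (k : ℕ) :
    L.cf (w ᵥ* F.map L.ι) k = L.cf w k ᵥ* F := by
  funext j
  simp only [cf, Matrix.vecMul, dotProduct, map_sum, Matrix.map_apply, Finsupp.finsetSum_apply,
    co_mul_ι]

theorem cf_sum_range {J : Type*} (v : ℕ → J → A) (s : Finset ℕ) (k : ℕ) :
    L.cf (∑ k ∈ s, L.x ^ k • L.emb (v k)) k = if k ∈ s then v k else 0 := by
  classical
  induction s using Finset.induction_on with
  | empty => simp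
  | insert j s hj ih =>
    rw [Finset.sum_insert hj, cf_add, ih, cf_xpow_emb]
    by_cases hkj : k = j
    · subst hkj; simp [hj]
    · simp [hkj]

variable [Finite I]

theorem exists_window (w : I → T) : ∃ r : ℕ, ∀ k, r < k → L.cf w k = 0 := by
  classical
  have : Fintype I := Fintype.ofFinite I
  let s : Finset ℕ := Finset.univ.biUnion fun i => (L.co (w i)).support
  have hs : ∀ k, k ∉ s → L.cf w k = 0 := by
    intro k hk
    funext i
    by_contra h
    exact hk (Finset.mem_biUnion.2 ⟨i, Finset.mem_univ i, Finsupp.mem_support_iff.2 h⟩)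
  obtain ⟨b, hb⟩ := s.bddAbove
  refine ⟨b, ?_⟩
  intro k hk
  apply hs
  intro hks
  have h1 := hb hks
  omega

/-- assemble a vector from finitely many coordinates -/
theorem exists_of_cf (w : I → T) {J : Type*} (v : ℕ → J → A) :
    ∃ w' : J → T, ∀ k, (L.cf w' k = v k ∨ (L.cf w k = 0 ∧ L.cf w' k = 0)) := by
  classical
  obtain ⟨r, h⟩ := L.exists_window w
  refine ⟨∑ k ∈ Finset.range (r + 1), L.x ^ k • L.emb (v k), fun k => ?_⟩
  rw [cf_sum_range]
  by_cases hk : k ∈ Finset.range (r + 1)
  · left; simp only [if_pos hk]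
  · right
    refine ⟨h k ?_, by simp only [if_neg hk]⟩
    rw [Finset.mem_range] at hk
    omega

theorem vec_expand (w : I → T) : ∃ s : Finset ℕ, w = ∑ k ∈ s, L.x ^ k • L.emb (L.cf w k) := by
  classical
  obtain ⟨r, h⟩ := L.exists_window w
  refine ⟨Finset.range (r + 1), ?_⟩
  apply L.cf_ext
  intro k
  rw [cf_sum_range]
  by_cases hk : k ∈ Finset.range (r + 1)
  · rw [if_pos hk]
  · rw [if_neg hk]
    apply h
    rw [Finset.mem_range] at hk
    omega

end Vec

section Ind

variable {I : Type*}

/-- The `T`-module induced from an `A`-submodule of a free module. -/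
def ind (K : Submodule A (I → A)) : Submodule T (I → T) where
  carrier := {w | ∀ k, L.cf w k ∈ K}
  add_mem' := fun {w w'} hw hw' k => by
    rw [cf_add]; exact K.add_mem (hw k) (hw' k)
  zero_mem' := fun k => by rw [cf_zero]; exact K.zero_mem
  smul_mem' := by
    intro y w hw
    induction y using L.induction with
    | h0 => intro k; rw [zero_smul, cf_zero]; exact K.zero_mem
    | hadd x y hx hy => intro k; rw [add_smul, cf_add]; exact K.add_mem (hx k) (hy k)
    | h1 j s =>
      intro k
      rw [mul_smul, cf_xpow_smul, cf_ι_smul]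
      split_ifs with h
      · exact K.smul_mem _ (hw _)
      · exact K.zero_mem

theorem mem_ind {K : Submodule A (I → A)} {w : I → T} : w ∈ L.ind K ↔ ∀ k, L.cf w k ∈ K :=
  Iff.rfl

theorem emb_mem_ind {K : Submodule A (I → A)} {v : I → A} (hv : v ∈ K) : L.emb v ∈ L.ind K := by
  intro k
  rw [cf_emb]
  split_ifs
  · exact hv
  · exact K.zero_mem

end Ind

/-- vectors over `T` from row vectors over `A` and a matrix -/
theorem emb_vecMul {I J : Type*} [Fintype I] (v : I → A) (F : Matrix I J A) :
    L.emb v ᵥ* F.map L.ι = L.emb (v ᵥ* F) := by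
  funext j
  simp [emb, Matrix.vecMul, dotProduct]

theorem ind_good {I : Type} [Finite I] (K : Submodule A (I → A))
    (h : Good (RingHom.id A) K) : Good L.ι (L.ind K) := by
  obtain ⟨p, ⟨θ⟩, -⟩ := h
  let F : Matrix (Fin p.size) I A := fun i => (θ ⟨p.mat i, row_mem_img p.idem i⟩ : I → A)
  have hF : ∀ x : img p.mat, ((θ x : K) : I → A) = (x : Fin p.size → A) ᵥ* F := by
    intro x
    have := img_map_eq p.idem (θ : img p.mat →ₗ[A] K) x
    have h2 := congrArg Subtype.val this
    rw [LinearEquiv.coe_coe] at h2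
    rw [h2, AddSubmonoidClass.coe_finsetSum]
    funext j
    simp [Matrix.vecMul, dotProduct, F]
  have hF2 : ∀ v : Fin p.size → A, v ᵥ* F ∈ K := by
    intro v
    have : v ᵥ* F = ∑ i, v i • (θ ⟨p.mat i, row_mem_img p.idem i⟩ : I → A) := by
      funext j
      simp [Matrix.vecMul, dotProduct, F]
    rw [this]
    exact K.sum_mem fun i _ => K.smul_mem _ (θ _).2
  have hpι := map_idem p.idem L.ι
  have hmem : ∀ w : Fin p.size → T, w ∈ img (p.mat.map L.ι) ↔ ∀ k, L.cf w k ∈ img p.mat := by
    intro w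
    rw [mem_img hpι]
    constructor
    · intro hw k
      rw [mem_img p.idem, ← cf_vecMul, hw]
    · intro hw
      apply L.cf_ext
      intro k
      rw [cf_vecMul]
      exact (mem_img p.idem).1 (hw k)
  let g : img (p.mat.map L.ι) →ₗ[T] L.ind K :=
    (Matrix.vecMulLinear (F.map L.ι)).restrict (fun w _ k => by
      change L.cf (w ᵥ* F.map L.ι) k ∈ K
      rw [cf_vecMul]; exact hF2 _)
  have hg : ∀ w, ((g w : L.ind K) : I → T) = (w : Fin p.size → T) ᵥ* F.map L.ι := fun _ => rfl
  have hginj : Function.Injective g := by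
    rw [← LinearMap.ker_eq_bot, LinearMap.ker_eq_bot']
    intro w hw
    have h1 : (w : Fin p.size → T) ᵥ* F.map L.ι = 0 := by
      rw [← hg, hw]; rfl
    apply Subtype.ext
    apply L.cf_ext
    intro k
    have h2 : L.cf (w : Fin p.size → T) k ᵥ* F = 0 := by
      rw [← cf_vecMul, h1, cf_zero]
    have h3 := (hmem _).1 w.2 k
    have h4 : θ ⟨_, h3⟩ = 0 := by
      apply Subtype.ext
      rw [hF]
      exact h2
    have h5 : (⟨L.cf (w : Fin p.size → T) k, h3⟩ : img p.mat) = 0 := by
      apply θ.injective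
      rw [h4, map_zero]
    have h6 := congrArg Subtype.val h5
    simpa using h6
  have hgsurj : Function.Surjective g := by
    rintro ⟨w, hw⟩
    obtain ⟨w', hw'⟩ := L.exists_of_cf w
      (fun k => ((θ.symm ⟨L.cf w k, hw k⟩ : img p.mat) : Fin p.size → A))
    have h1 : ∀ k, L.cf w' k = ((θ.symm ⟨L.cf w k, hw k⟩ : img p.mat) : Fin p.size → A) := by
      intro k
      rcases hw' k with h | ⟨h, h'⟩
      · exact h
      · rw [h']
        have : (⟨L.cf w k, hw k⟩ : K) = 0 := Subtype.ext h
        rw [this, map_zero]; rfl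
    have h2 : w' ∈ img (p.mat.map L.ι) := by
      rw [hmem]
      intro k
      rw [h1]
      exact (θ.symm _).2
    refine ⟨⟨w', h2⟩, ?_⟩
    apply Subtype.ext
    apply L.cf_ext
    intro k
    rw [hg]
    change L.cf (w' ᵥ* F.map L.ι) k = L.cf w k
    rw [cf_vecMul, h1, ← hF, LinearEquiv.apply_symm_apply]
  rw [good_iff hpι (LinearEquiv.ofBijective g ⟨hginj, hgsurj⟩)]
  exact ⟨_, KZero.kc_map L.ι p.mat p.idem⟩

theorem ind_hasRes {n : ℕ} : ∀ {I : Type} [Finite I] (K : Submodule A (I → A)),
    HasRes (RingHom.id A) n K → HasRes L.ι n (L.ind K) := by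
  induction n with
  | zero => intro I _ K h; exact L.ind_good K h
  | succ n ih =>
    intro I _ K h
    obtain ⟨m, f, hf, h⟩ := h
    let F : Matrix (Fin m) I A := fun i => (f (Pi.single i 1) : I → A)
    have hF : ∀ v : Fin m → A, ((f v : K) : I → A) = v ᵥ* F := by
      intro v
      have h1 : v = ∑ i, v i • (Pi.single i (1 : A) : Fin m → A) := by
        funext j
        simp [Pi.single_apply]
      have h2 : f v = ∑ i, v i • f (Pi.single i 1) := by
        conv_lhs => rw [h1]
        rw [map_sum]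
        exact Finset.sum_congr rfl fun i _ => map_smul f _ _
      rw [h2, AddSubmonoidClass.coe_finsetSum]
      funext j
      simp [Matrix.vecMul, dotProduct, F]
    let g : (Fin m → T) →ₗ[T] L.ind K :=
      (Matrix.vecMulLinear (F.map L.ι)).codRestrict (L.ind K) (fun w k => by
        change L.cf (w ᵥ* F.map L.ι) k ∈ K
        rw [cf_vecMul, ← hF]; exact (f _).2)
    have hg : ∀ w, ((g w : L.ind K) : I → T) = w ᵥ* F.map L.ι := fun _ => rfl
    have hgsurj : Function.Surjective g := by
      rintro ⟨w, hw⟩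
      choose v hv using fun k => hf ⟨L.cf w k, hw k⟩
      obtain ⟨w', hw'⟩ := L.exists_of_cf w v
      refine ⟨w', ?_⟩
      apply Subtype.ext
      apply L.cf_ext
      intro k
      rw [hg]
      change L.cf (w' ᵥ* F.map L.ι) k = L.cf w k
      rw [cf_vecMul]
      rcases hw' k with h | ⟨h, h'⟩
      · rw [h, ← hF, hv]
      · rw [h', h, Matrix.zero_vecMul]
    refine ⟨m, g, hgsurj, ?_⟩
    have hker : L.ind (LinearMap.ker f) = LinearMap.ker g := by
      ext w
      rw [LinearMap.mem_ker, mem_ind]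
      constructor
      · intro hw
        apply Subtype.ext
        apply L.cf_ext
        intro k
        rw [hg, cf_vecMul, ← hF]
        have : f (L.cf w k) = 0 := hw k
        rw [this]
        simp
      · intro hw k
        rw [LinearMap.mem_ker]
        apply Subtype.ext
        rw [hF, ← cf_vecMul, ← hg, hw]
        simp
    exact (ih _ h).congr (LinearEquiv.ofEq _ _ hker)

section MV

variable {J : Type} [Finite J] (d : ℕ)

/-- the map `(w_a) ↦ ∑ w_a x^a` -/
def Phi : (Fin (d + 1) × J → T) →ₗ[T] (J → T) where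
  toFun w j := ∑ a : Fin (d + 1), w (a, j) * L.x ^ (a : ℕ)
  map_add' w w' := by funext j; simp [add_mul, Finset.sum_add_distrib]
  map_smul' x w := by funext j; simp [mul_assoc, Finset.mul_sum]

theorem Phi_apply (w : Fin (d + 1) × J → T) (j : J) :
    L.Phi d w j = ∑ a : Fin (d + 1), w (a, j) * L.x ^ (a : ℕ) := rfl

theorem co_Phi (w : Fin (d + 1) × J → T) (j : J) (D : ℕ) :
    L.co (L.Phi d w j) D =
      ∑ a : Fin (d + 1), if (a : ℕ) ≤ D then L.co (w (a, j)) (D - (a : ℕ)) else 0 := by
  rw [Phi_apply, map_sum, Finsupp.finsetSum_apply]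
  exact Finset.sum_congr rfl fun a _ => L.co_mul_xpow _ _ _

/-- lattice of `M` -/
def lat (M : Submodule T (J → T)) : Submodule A (Fin (d + 1) × J → A) where
  carrier := {u | L.Phi d (L.emb u) ∈ M}
  add_mem' := fun {u u'} hu hu' => by
    change L.Phi d (L.emb (u + u')) ∈ M
    rw [emb_add, map_add]; exact M.add_mem hu hu'
  zero_mem' := by
    change L.Phi d (L.emb 0) ∈ M
    rw [emb_zero, map_zero]; exact M.zero_mem
  smul_mem' := fun s u hu => by
    change L.Phi d (L.emb (s • u)) ∈ M
    rw [emb_smul, map_smul]; exact M.smul_mem _ hu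

/-- the part of the lattice with vanishing last coordinate -/
def latL (M : Submodule T (J → T)) : Submodule A (Fin (d + 1) × J → A) where
  carrier := {u | L.Phi d (L.emb u) ∈ M ∧ ∀ j, u (Fin.last d, j) = 0}
  add_mem' := fun {u u'} hu hu' =>
    ⟨(L.lat d M).add_mem hu.1 hu'.1, fun j => by simp [hu.2 j, hu'.2 j]⟩
  zero_mem' := ⟨(L.lat d M).zero_mem, fun j => rfl⟩
  smul_mem' := fun s u hu => ⟨(L.lat d M).smul_mem s hu.1, fun j => by simp [hu.2 j]⟩

theorem latL_le (M : Submodule T (J → T)) : L.latL d M ≤ L.lat d M := fun _ h => h.1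

/-- shift up: `(w_a) ↦ (w_{a-1})` -/
def up {R : Type*} [Ring R] {d : ℕ} (w : Fin (d + 1) × J → R) : Fin (d + 1) × J → R :=
  fun x => Fin.cases (motive := fun _ => R) 0 (fun b : Fin d => w (b.castSucc, x.2)) x.1

omit [Finite J] in
theorem up_zero {R : Type*} [Ring R] {d : ℕ} (w : Fin (d + 1) × J → R) (j : J) :
    up w (0, j) = 0 := by
  simp [up]

omit [Finite J] in
theorem up_succ {R : Type*} [Ring R] {d : ℕ} (w : Fin (d + 1) × J → R) (b : Fin d) (j : J) :
    up w (b.succ, j) = w (b.castSucc, j) := by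
  simp [up]

/-- `Ψ(w) = w x - up(w)` -/
def Psi : (Fin (d + 1) × J → T) →ₗ[T] (Fin (d + 1) × J → T) where
  toFun w := fun i => w i * L.x - up w i
  map_add' w w' := by
    funext ⟨a, j⟩
    refine Fin.cases ?_ (fun b => ?_) a
    · simp [up_zero, add_mul]
    · simp [up_succ, add_mul]; abel
  map_smul' x w := by
    funext ⟨a, j⟩
    refine Fin.cases ?_ (fun b => ?_) a
    · simp [up_zero, mul_assoc]
    · simp [up_succ, mul_sub, mul_assoc]

theorem Psi_apply (w : Fin (d + 1) × J → T) (i : Fin (d + 1) × J) :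
    L.Psi d w i = w i * L.x - up w i := rfl

theorem Psi_injective : Function.Injective (L.Psi (J := J) d) := by
  rw [← LinearMap.ker_eq_bot, LinearMap.ker_eq_bot']
  intro w hw
  have h : ∀ i, w i * L.x = up w i := fun i => sub_eq_zero.1 (congrFun hw i)
  have hx : ∀ y : T, y * L.x = 0 → y = 0 := by
    intro y hy
    apply L.x_mul_injective
    rw [L.x_central, hy, mul_zero]
  have key : ∀ (a : Fin (d + 1)) (j : J), w (a, j) = 0 := by
    intro a
    refine Fin.induction (motive := fun a => ∀ j : J, w (a, j) = 0) ?_ ?_ a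
    · intro j
      apply hx
      rw [h, up_zero]
    · intro b ih j
      apply hx
      rw [h, up_succ, ih]
  funext ⟨a, j⟩
  exact key a j

theorem Phi_Psi (w : Fin (d + 1) × J → T) (j : J) :
    L.Phi d (L.Psi d w) j = w (Fin.last d, j) * L.x ^ (d + 1) := by
  rw [Phi_apply]
  simp only [Psi_apply, sub_mul, Finset.sum_sub_distrib]
  rw [Fin.sum_univ_castSucc, Fin.sum_univ_succ (n := d) (fun a => up w (a, j) * L.x ^ (a : ℕ))]
  simp only [up_zero, up_succ, zero_mul, zero_add, Fin.val_castSucc, Fin.val_succ, Fin.val_last,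
    mul_assoc, ← pow_succ']
  abel

theorem cf_up (w : Fin (d + 1) × J → T) (k : ℕ) :
    L.cf (up w) k = up (L.cf w k) := by
  funext ⟨a, j⟩
  refine Fin.cases ?_ (fun b => ?_) a
  · simp [cf, up_zero]
  · simp [cf, up_succ]

theorem cf_Psi (w : Fin (d + 1) × J → T) (k : ℕ) :
    L.cf (L.Psi d w) k = (if 1 ≤ k then L.cf w (k - 1) else 0) - up (L.cf w k) := by
  rw [← L.cf_up]
  funext i
  rw [Pi.sub_apply]
  change L.co (w i * L.x - up w i) k = _ - L.co (up w i) k
  rw [map_sub, Finsupp.sub_apply]
  congr 1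
  have := L.co_mul_xpow (w i) 1 k
  rw [pow_one] at this
  rw [this]
  by_cases h : 1 ≤ k
  · simp [cf, h]
  · simp [h]

/-- shifting up -/
theorem Phi_up (u : Fin (d + 1) × J → A) (hu : ∀ j, u (Fin.last d, j) = 0) :
    L.Phi d (L.emb (up u)) = L.x • L.Phi d (L.emb u) := by
  funext j
  rw [Pi.smul_apply, Phi_apply, Phi_apply, Fin.sum_univ_succ,
    Fin.sum_univ_castSucc (n := d) (fun a => L.emb u (a, j) * L.x ^ (a : ℕ))]
  simp only [emb, up_zero, up_succ, hu, map_zero, zero_mul, zero_add, add_zero, Fin.val_succ,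
    Fin.val_castSucc, smul_eq_mul, Finset.mul_sum]
  refine Finset.sum_congr rfl fun b _ => ?_
  rw [← mul_assoc, L.comm, mul_assoc, ← pow_succ']

theorem Psi_emb (u : Fin (d + 1) × J → A) :
    L.Psi d (L.emb u) = L.x • L.emb u - L.emb (up u) := by
  funext ⟨a, j⟩
  rw [Psi_apply, Pi.sub_apply, Pi.smul_apply, smul_eq_mul, L.x_central]
  congr 1
  refine Fin.cases ?_ (fun b => ?_) a
  · simp [up_zero, emb]
  · simp [up_succ, emb]

theorem up_mem_lat {M : Submodule T (J → T)} {u : Fin (d + 1) × J → A}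
    (hu : u ∈ L.latL d M) : up u ∈ L.lat d M := by
  change L.Phi d (L.emb (up u)) ∈ M
  rw [L.Phi_up d u hu.2]
  exact M.smul_mem _ hu.1

theorem Psi_mem {M : Submodule T (J → T)} {w : Fin (d + 1) × J → T}
    (hw : w ∈ L.ind (L.latL d M)) : L.Psi d w ∈ L.ind (L.lat d M) := by
  intro k
  rw [cf_Psi]
  refine (L.lat d M).sub_mem ?_ (L.up_mem_lat d (hw k))
  split_ifs
  · exact (hw _).1
  · exact (L.lat d M).zero_mem

theorem Phi_mem {M : Submodule T (J → T)} {w : Fin (d + 1) × J → T}
    (hw : w ∈ L.ind (L.lat d M)) : L.Phi d w ∈ M := by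
  obtain ⟨s, hs⟩ := L.vec_expand w
  rw [hs, map_sum]
  refine M.sum_mem fun k _ => ?_
  rw [map_smul]
  exact M.smul_mem _ (hw k)

theorem emb_eq_zero_of_Phi {u : Fin (d + 1) × J → A} (h : L.Phi d (L.emb u) = 0) : u = 0 := by
  funext ⟨a, j⟩
  have h1 := L.co_Phi d (L.emb u) j (a : ℕ)
  rw [h] at h1
  simp only [Pi.zero_apply, map_zero, Finsupp.coe_zero, emb, co_ι, Finsupp.single_apply] at h1
  rw [Finset.sum_eq_single a] at h1
  · simpa using h1.symm
  · intro b _ hb
    by_cases hba : (b : ℕ) ≤ (a : ℕ)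
    · have : ¬ (0 = (a : ℕ) - (b : ℕ)) := by
        intro h0
        apply hb
        apply Fin.ext
        omega
      rw [if_pos hba, if_neg this]
    · rw [if_neg hba]
  · intro h; exact absurd (Finset.mem_univ a) h

theorem ker_Phi_aux {M : Submodule T (J → T)} (r : ℕ) : ∀ (w : Fin (d + 1) × J → T),
    w ∈ L.ind (L.lat d M) → L.Phi d w = 0 → (∀ k, r < k → L.cf w k = 0) →
    ∃ w' ∈ L.ind (L.latL d M), L.Psi d w' = w := by
  induction r with
  | zero =>
    intro w hw h0 hwin
    have h1 : w = L.emb (L.cf w 0) := by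
      apply L.cf_ext
      intro k
      rw [cf_emb]
      split_ifs with hk
      · rw [hk]
      · exact hwin k (by omega)
    have h2 : L.cf w 0 = 0 := by
      apply L.emb_eq_zero_of_Phi d
      rw [← h1]
      exact h0
    refine ⟨0, Submodule.zero_mem _, ?_⟩
    rw [map_zero, h1, h2, emb_zero]
  | succ r ih =>
    intro w hw h0 hwin
    set u := L.cf w (r + 1) with hu
    have huK : u ∈ L.lat d M := hw (r + 1)
    have hlast : ∀ j, u (Fin.last d, j) = 0 := by
      intro j
      have h1 := L.co_Phi d w j (r + 1 + d)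
      rw [h0] at h1
      simp only [Pi.zero_apply, map_zero, Finsupp.coe_zero] at h1
      rw [Finset.sum_eq_single (Fin.last d)] at h1
      · have h2 := h1.symm
        rw [Fin.val_last, if_pos (Nat.le_add_left d (r + 1)), Nat.add_sub_cancel] at h2
        exact h2
      · intro c _ hc
        have hc' : (c : ℕ) < d := by
          rcases lt_or_eq_of_le (Nat.lt_succ_iff.1 c.2) with h | h
          · exact h
          · exact absurd (Fin.ext (by simpa using h)) hc
        have h2 : L.cf w (r + 1 + d - (c : ℕ)) = 0 := by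
          apply hwin
          omega
        have h3 := congrFun h2 (c, j)
        change L.co (w (c, j)) (r + 1 + d - (c : ℕ)) = 0 at h3
        rw [h3, ite_self]
      · intro h; exact absurd (Finset.mem_univ _) h
    have huL : u ∈ L.latL d M := ⟨huK, hlast⟩
    have e1 : L.x ^ r • L.emb u ∈ L.ind (L.latL d M) :=
      Submodule.smul_mem _ _ (L.emb_mem_ind huL)
    have h4 : L.Psi d (L.x ^ r • L.emb u) = L.x ^ (r + 1) • L.emb u - L.x ^ r • L.emb (up u) := by
      rw [map_smul, L.Psi_emb, smul_sub, ← mul_smul, ← pow_succ]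
    obtain ⟨w'', hw'', hw2⟩ := ih (w - L.Psi d (L.x ^ r • L.emb u))
      (Submodule.sub_mem _ hw (L.Psi_mem d e1)) (by
        rw [map_sub, h0, zero_sub, neg_eq_zero]
        funext j
        rw [Phi_Psi]
        simp [emb, hlast]) (by
        intro k hk
        rw [h4, cf_sub, cf_sub, cf_xpow_emb, cf_xpow_emb]
        have hk1 : ¬ (k = r) := by omega
        rw [if_neg hk1]
        by_cases hkb : k = r + 1
        · rw [if_pos hkb, hkb, ← hu]; abel
        · rw [if_neg hkb, hwin k (by omega)]; abel)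
    refine ⟨w'' + L.x ^ r • L.emb u, Submodule.add_mem _ hw'' e1, ?_⟩
    rw [map_add, hw2]
    abel

/-- Resolution of a submodule of a free `T`-module generated by a lattice. -/
theorem hasRes_of_lat {n : ℕ} {M : Submodule T (J → T)}
    (hgen : M ≤ Submodule.span T (Set.range fun u : L.lat d M => L.Phi d (L.emb (u : _ → A))))
    (h1 : HasRes (RingHom.id A) n (L.lat d M)) (h2 : HasRes (RingHom.id A) n (L.latL d M)) :
    HasRes L.ι (n + 1) M := by
  refine HasRes.coker
    ((L.Psi d).restrict (p := L.ind (L.latL d M)) (q := L.ind (L.lat d M))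
      (fun w hw => L.Psi_mem d hw))
    ((L.Phi d).restrict (p := L.ind (L.lat d M)) (q := M) (fun w hw => L.Phi_mem d hw))
    ?_ ?_ ?_ (L.ind_hasRes _ h2) (L.ind_hasRes _ h1)
  · intro x y hxy
    apply Subtype.ext
    exact L.Psi_injective d (congrArg Subtype.val hxy)
  · rintro ⟨m, hm⟩
    have h3 : M ≤ (L.ind (L.lat d M)).map (L.Phi d) := by
      refine hgen.trans ?_
      rw [Submodule.span_le]
      rintro _ ⟨u, rfl⟩
      exact ⟨L.emb u, L.emb_mem_ind u.2, rfl⟩
    obtain ⟨w, hw, hwm⟩ := h3 hm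
    exact ⟨⟨w, hw⟩, Subtype.ext hwm⟩
  · ext ⟨w, hw⟩
    rw [LinearMap.mem_range, LinearMap.mem_ker]
    constructor
    · rintro ⟨⟨w', hw'⟩, h⟩
      have h4 : L.Psi d w' = w := congrArg Subtype.val h
      subst h4
      apply Subtype.ext
      change L.Phi d (L.Psi d w') = 0
      funext j
      rw [Phi_Psi]
      have h5 : w' (Fin.last d, j) = 0 := by
        apply L.co_injective
        ext k
        have := (hw' k).2 j
        simpa [cf] using this
      rw [h5, zero_mul]
      rfl
    · intro h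
      have h5 : L.Phi d w = 0 := congrArg Subtype.val h
      obtain ⟨r, hwin⟩ := L.exists_window w
      obtain ⟨w', hw', hww⟩ := L.ker_Phi_aux d r w hw h5 hwin
      exact ⟨⟨w', hw'⟩, Subtype.ext hww⟩

end MV

section

variable {J : Type} [Finite J]

/-- elements of `M` of degree at most `d` -/
def win (M : Submodule T (J → T)) (d : ℕ) (w : J → T) : Prop :=
  w ∈ M ∧ ∀ k : ℕ, d < k → L.cf w k = 0

/-- leading coefficients -/
def lead (M : Submodule T (J → T)) (d : ℕ) : Submodule A (J → A) where
  carrier := {v | ∃ w, L.win M d w ∧ L.cf w d = v}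
  add_mem' := by
    rintro v v' ⟨w, ⟨hw, hw2⟩, rfl⟩ ⟨w', ⟨hw', hw2'⟩, rfl⟩
    refine ⟨w + w', ⟨M.add_mem hw hw', fun k hk => ?_⟩, L.cf_add _ _ _⟩
    rw [cf_add, hw2 k hk, hw2' k hk, add_zero]
  zero_mem' := ⟨0, ⟨M.zero_mem, fun k _ => L.cf_zero k⟩, L.cf_zero _⟩
  smul_mem' := by
    rintro s v ⟨w, ⟨hw, hw2⟩, rfl⟩
    refine ⟨L.ι s • w, ⟨M.smul_mem _ hw, fun k hk => ?_⟩, ?_⟩
    · rw [cf_ι_smul, hw2 k hk, smul_zero]
    · rw [cf_ι_smul]

theorem lead_mono (M : Submodule T (J → T)) : Monotone (L.lead M) := by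
  refine monotone_nat_of_le_succ fun d => ?_
  rintro v ⟨w, ⟨hw, hw2⟩, rfl⟩
  refine ⟨L.x ^ 1 • w, ⟨M.smul_mem _ hw, fun k hk => ?_⟩, ?_⟩
  · rw [cf_xpow_smul, if_pos (by omega)]
    exact hw2 _ (by omega)
  · rw [cf_xpow_smul, if_pos (by omega), Nat.add_sub_cancel]

theorem exists_lat_of_win {M : Submodule T (J → T)} {d : ℕ} {w : J → T} (hw : L.win M d w) :
    ∃ u : L.lat d M, L.Phi d (L.emb (u : _ → A)) = w := by
  let u : Fin (d + 1) × J → A := fun x => L.cf w (x.1 : ℕ) x.2
  have hu : L.Phi d (L.emb u) = w := by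
    funext j
    apply L.co_injective
    ext D
    rw [co_Phi]
    simp only [emb, co_ι, u]
    by_cases hD : d < D
    · have h1 := congrFun (hw.2 D hD) j
      change L.co (w j) D = 0 at h1
      rw [h1]
      refine Finset.sum_eq_zero fun a _ => ?_
      have ha : (a : ℕ) ≤ d := by have := a.2; omega
      rw [Finsupp.single_apply, if_neg (by omega : ¬ 0 = D - (a : ℕ)), ite_self]
    · have hD' : D < d + 1 := by omega
      rw [Finset.sum_eq_single (⟨D, hD'⟩ : Fin (d + 1))]
      · simp [cf]
      · intro b _ hb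
        by_cases hbD : (b : ℕ) ≤ D
        · have : ¬ (0 = D - (b : ℕ)) := by
            intro h0
            apply hb
            apply Fin.ext
            simp only
            omega
          rw [Finsupp.single_apply, if_neg this, ite_self]
        · rw [if_neg hbD]
      · intro h; exact absurd (Finset.mem_univ _) h
  exact ⟨⟨u, by change L.Phi d (L.emb u) ∈ M; rw [hu]; exact hw.1⟩, hu⟩

theorem exists_gen [IsNoetherianRing A] (M : Submodule T (J → T)) :
    ∃ d : ℕ, M ≤ Submodule.span T
      (Set.range fun u : L.lat d M => L.Phi d (L.emb (u : Fin (d + 1) × J → A))) := by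
  obtain ⟨N, hN⟩ := monotone_stabilizes_iff_noetherian.2
    (inferInstance : IsNoetherian A (J → A)) ⟨L.lead M, L.lead_mono M⟩
  have hN' : ∀ m, N ≤ m → L.lead M N = L.lead M m := hN
  refine ⟨N, ?_⟩
  set G := Submodule.span T
    (Set.range fun u : L.lat N M => L.Phi N (L.emb (u : Fin (N + 1) × J → A))) with hG
  have hbase : ∀ w, L.win M N w → w ∈ G := by
    intro w hw
    obtain ⟨u, hu⟩ := L.exists_lat_of_win hw
    exact Submodule.subset_span ⟨u, hu⟩
  have hstep : ∀ r : ℕ, ∀ w, L.win M (N + r) w → w ∈ G := by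
    intro r
    induction r with
    | zero => exact hbase
    | succ r ih =>
      intro w hw
      have h1 : L.cf w (N + (r + 1)) ∈ L.lead M (N + (r + 1)) := ⟨w, hw, rfl⟩
      rw [← hN' _ (by omega)] at h1
      obtain ⟨w', hw', h2⟩ := h1
      have h3 : L.win M (N + r) (w - L.x ^ (r + 1) • w') := by
        refine ⟨M.sub_mem hw.1 (M.smul_mem _ hw'.1), fun k hk => ?_⟩
        rw [cf_sub, cf_xpow_smul, if_pos (by omega)]
        by_cases hk2 : k = N + (r + 1)
        · subst hk2
          have h4 : N + (r + 1) - (r + 1) = N := by omega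
          rw [h4, h2, sub_self]
        · rw [hw.2 k (by omega), hw'.2 _ (by omega), sub_self]
      have h4 := ih _ h3
      have h5 := G.add_mem h4 (G.smul_mem (L.x ^ (r + 1)) (hbase _ hw'))
      simpa using h5
  intro w hw
  obtain ⟨r, hwin⟩ := L.exists_window w
  exact hstep r w ⟨hw, fun k hk => hwin k (by omega)⟩

end

theorem exists_hasRes (hA : IsRegularRing A) {J : Type} [Finite J] (M : Submodule T (J → T)) :
    ∃ n : ℕ, HasRes L.ι n M := by
  have hN : IsNoetherianRing A := hA.1
  obtain ⟨d, hd⟩ := L.exists_gen M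
  obtain ⟨n1, h1⟩ := hA.hasRes (L.lat d M)
  obtain ⟨n2, h2⟩ := hA.hasRes (L.latL d M)
  exact ⟨_, L.hasRes_of_lat d hd (h1.mono (le_max_left n1 n2)) (h2.mono (le_max_right n1 n2))⟩

include L in
theorem isNoetherianRing (hA : IsRegularRing A) : IsNoetherianRing T := by
  have h1 : IsNoetherian T (Fin 1 → T) := by
    refine ⟨fun M => ?_⟩
    obtain ⟨n, hn⟩ := L.exists_hasRes hA M
    have := hn.finite
    exact Module.Finite.iff_fg.1 this
  exact isNoetherian_of_linearEquiv (LinearEquiv.funUnique (Fin 1) T T)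

include L in
/-- A polynomial extension of a regular ring is regular. -/
theorem isRegularRing (hA : IsRegularRing A) : IsRegularRing T :=
  isRegularRing_of_hasRes (φ := L.ι) (L.isNoetherianRing hA) fun _ M => L.exists_hasRes hA M

/-- `K₀(A) → K₀(T)` is surjective for a polynomial extension of a regular ring. -/
theorem map_surjective (hA : IsRegularRing A) : Function.Surjective (KZero.map L.ι) := by
  apply map_surjective_of_forall
  intro m e he
  obtain ⟨n, hn⟩ := L.exists_hasRes hA (img e)
  have := img_projective he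
  exact hn.good.stabInd he (LinearEquiv.refl _ _)

end PolyExt

end Pool.Agent.Lib.MP_e7fbd4_ag
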