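import Pool.Agent.Lib.MP_e7fbd4_ag.Milnor2

/-!
# `K₀({f ∈ A[t] : f(0) = f(1)}) = K₀(A) ⊕ KV₁(A)`
-/

set_option autoImplicit false
set_option linter.unusedSectionVars false

namespace Pool.Agent.Lib.MP_e7fbd4_ag

open Matrix Pool.Agent.Lib.MP_c052b4_al

variable {A : Type} [Ring A] [Algebra ℂ A] {n m : Type} [Fintype n] [Fintype m] [DecidableEq n]
  [DecidableEq m]

/-- constants in the loop algebra -/
def cLo (A : Type) [Ring A] [Algebra ℂ A] : A →ₐ[ℂ] Loop A :=
  (constHom ℂ A).codRestrict (Loop A) fun a => ⟨const_mem_poly a, rfl⟩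

/-- value at `0` -/
def eLo (A : Type) [Ring A] [Algebra ℂ A] : Loop A →ₐ[ℂ] A := (evalHom ℂ A 0).comp (Loop A).val

theorem eLo_eq (f : Loop A) : eLo A f = evP A 0 (jL A f) := rfl

theorem jm_cLo (X : Matrix n m A) : jm (X.map (cLo A)) = X.map (pconst A) := rfl

theorem em_pconst (t : ℂ) (X : Matrix n m A) : em t (X.map (pconst A)) = X := rfl

/-- the boundary map has values in the kernel of `f ↦ f(0)` -/
theorem eLo_dA1 (x : KOne A) : KZero.map (eLo A).toRingHom (dA1 A x) = 0 := by
  obtain ⟨k, g, rfl⟩ := exists_k1 x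
  rw [dA1_k1]
  unfold dl
  rw [map_sub, cg_eq, cg_eq, KZero.kc_map, KZero.kc_map, sub_eq_zero]
  congr 1
  have h : ∀ g : (Matrix (Fin k) (Fin k) A)ˣ, (Eg g).map (eLo A).toRingHom =
      rr (Fin k) A * cc (Fin k) A := by
    intro g
    have h1 : (Eg g).map (eLo A).toRingHom = em 0 (jm (Eg g)) := rfl
    rw [h1, jm_Eg]
    unfold EP
    rw [em_mul, em0_xg, em0_yg]
  rw [h, h]

/-- The essential injectivity. -/
theorem mem_ho_of_dA1 {x : KOne A} (hx : dA1 A x = 0) : x ∈ ho A := by
  obtain ⟨k, g, rfl⟩ := exists_k1 x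
  rw [dA1_k1] at hx
  unfold dl at hx
  rw [sub_eq_zero, cg_eq, cg_eq, KZero.kc_eq_kc_iff] at hx
  obtain ⟨l, X, Y, hXY, hYX⟩ := hx
  -- the big factorizations
  let xb : (Matrix (Fin k) (Fin k) A)ˣ → Matrix ((Fin k ⊕ Fin k) ⊕ Fin l) (Fin k ⊕ Fin l) (Poly A) :=
    fun g => fromBlocks (xg g) 0 0 1
  let yb : (Matrix (Fin k) (Fin k) A)ˣ → Matrix (Fin k ⊕ Fin l) ((Fin k ⊕ Fin k) ⊕ Fin l) (Poly A) :=
    fun g => fromBlocks (yg g) 0 0 1
  have hyx : ∀ g, yb g * xb g = 1 := by
    intro g
    simp only [xb, yb]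
    rw [fromBlocks_multiply]
    simp [yg_xg]
  have hE : ∀ g : (Matrix (Fin k) (Fin k) A)ˣ,
      jm (fromBlocks (Eg g) 0 0 (1 : Matrix (Fin l) (Fin l) (Loop A))) = xb g * yb g := by
    intro g
    simp only [xb, yb]
    rw [fromBlocks_multiply]
    unfold jm
    rw [Matrix.fromBlocks_map, Matrix.map_zero _ (map_zero _), Matrix.map_zero _ (map_zero _),
      Matrix.map_one _ (map_zero _) (map_one _)]
    have h1 : (Eg g).map (jL A) = xg g * yg g := jm_Eg g
    rw [h1]
    simp
  have hX : jm X * jm Y = xb g * yb g := by rw [← jm_mul, hXY, hE]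
  have hY : jm Y * jm X = xb 1 * yb 1 := by rw [← jm_mul, hYX, hE]
  have hab : (yb g * jm X * xb 1) * (yb 1 * jm Y * xb g) = 1 := by
    have h1 : (yb g * jm X * xb 1) * (yb 1 * jm Y * xb g) =
        yb g * (jm X * (xb 1 * yb 1) * jm Y) * xb g := by
      simp only [Matrix.mul_assoc]
    rw [h1, ← hY]
    have h2 : jm X * (jm Y * jm X) * jm Y = (xb g * yb g) * (xb g * yb g) := by
      rw [← hX]; simp only [Matrix.mul_assoc]
    have h3 : (xb g * yb g) * (xb g * yb g) = xb g * yb g := by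
      rw [Matrix.mul_assoc, ← Matrix.mul_assoc (yb g), hyx, Matrix.one_mul]
    rw [h2, h3, ← Matrix.mul_assoc, hyx, Matrix.one_mul, hyx]
  have hba : (yb 1 * jm Y * xb g) * (yb g * jm X * xb 1) = 1 := by
    have h1 : (yb 1 * jm Y * xb g) * (yb g * jm X * xb 1) =
        yb 1 * (jm Y * (xb g * yb g) * jm X) * xb 1 := by
      simp only [Matrix.mul_assoc]
    rw [h1, ← hX]
    have h2 : jm Y * (jm X * jm Y) * jm X = (xb 1 * yb 1) * (xb 1 * yb 1) := by
      rw [← hY]; simp only [Matrix.mul_assoc]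
    have h3 : (xb 1 * yb 1) * (xb 1 * yb 1) = xb 1 * yb 1 := by
      rw [Matrix.mul_assoc, ← Matrix.mul_assoc (yb 1), hyx, Matrix.one_mul]
    rw [h2, h3, ← Matrix.mul_assoc, hyx, Matrix.one_mul, hyx]
  let a : (Matrix (Fin k ⊕ Fin l) (Fin k ⊕ Fin l) (Poly A))ˣ :=
    ⟨yb g * jm X * xb 1, yb 1 * jm Y * xb g, hab, hba⟩
  obtain ⟨cb, hcb⟩ : ∃ cb : Matrix (Fin k ⊕ Fin l) ((Fin k ⊕ Fin k) ⊕ Fin l) A,
      cb = fromBlocks (cc (Fin k) A) 0 0 1 := ⟨_, rfl⟩
  have hyb0 : em 0 (yb g) = cb := by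
    rw [hcb]
    simp only [yb]
    rw [em_blocks, em0_yg, em_zero', em_zero', em_one]
  have hyb1 : em 1 (yb g) = (bl g⁻¹ (1 : (Matrix (Fin l) (Fin l) A)ˣ)).val * cb := by
    rw [hcb, coe_bl, fromBlocks_multiply]
    simp only [yb]
    rw [em_blocks, em1_yg, em_zero', em_zero', em_one]
    simp
  have hxb : em 1 (xb 1) = em 0 (xb 1) := by
    simp only [xb]
    rw [em_blocks, em_blocks, em1_xg, em0_xg, em_zero', em_zero', em_one, em_zero', em_zero',
      em_one, Units.val_one, Matrix.mul_one]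
  have h01 : mE 1 a = bl g⁻¹ (1 : (Matrix (Fin l) (Fin l) A)ˣ) * mE 0 a := by
    apply Units.ext
    rw [Units.val_mul, coe_mE, coe_mE]
    change em 1 (yb g * jm X * xb 1) = _ * em 0 (yb g * jm X * xb 1)
    rw [em_mul, em_mul, em_mul, em_mul, hyb0, hyb1, hxb, em_jm]
    simp only [Matrix.mul_assoc]
  have h02 : k1 (mE 1 a) - k1 (mE 0 a) = - k1 g := by
    rw [h01, k1_mul, k1_bl, k1_one, k1_inv, add_zero, add_sub_cancel_right]
  have h03 : k1 (mE 1 a) - k1 (mE 0 a) ∈ ho A := by
    rw [mem_ho]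
    exact ⟨k1 a, by rw [KOne.map_k1, KOne.map_k1]⟩
  rw [h02] at h03
  have := (ho A).neg_mem h03
  rwa [neg_neg] at this

/-- the class of an idempotent over the loop algebra which becomes constant over `A[t]` -/
theorem exists_dA1_of_mvN {q : Matrix n n (Loop A)} (hq : q * q = q) {p : Matrix n n A}
    (hp : p * p = p) (h : MvN (jm q) (p.map (pconst A))) (h0 : em 0 (jm q) = p) :
    ∃ c : KOne A, KZero.kc q hq = KZero.kc (p.map (cLo A)) (map_idem hp (cLo A).toRingHom) +
      dA1 A c := by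
  obtain ⟨x', y', hxy', hyx'⟩ := h
  -- normalize
  set x := x' * y' * x' with hx
  set y := y' * x' * y' with hy
  have hQ : jm q * jm q = jm q := by rw [← jm_mul, hq]
  have hxy : x * y = jm q := by
    have h1 : x * y = (x' * y') * (x' * y') * (x' * y') := by
      rw [hx, hy]; simp only [Matrix.mul_assoc]
    rw [h1, hxy', hQ, hQ]
  have hP : (p.map (pconst A)) * (p.map (pconst A)) = p.map (pconst A) :=
    map_idem hp (pconst A).toRingHom
  have hyx : y * x = p.map (pconst A) := by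
    have h1 : y * x = (y' * x') * (y' * x') * (y' * x') := by
      rw [hx, hy]; simp only [Matrix.mul_assoc]
    rw [h1, hyx', hP, hP]
  have hqx : jm q * x = x := by
    rw [← hxy']
    have h1 : (x' * y') * x = ((x' * y') * (x' * y')) * x' := by
      rw [hx]; simp only [Matrix.mul_assoc]
    rw [h1, hxy', hQ, ← hxy']
  have hxp : x * p.map (pconst A) = x := by
    rw [← hyx, ← Matrix.mul_assoc, hxy, hqx]
  have hyq : y * jm q = y := by
    rw [← hxy']
    have h1 : y * (x' * y') = y' * ((x' * y') * (x' * y')) := by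
      rw [hy]; simp only [Matrix.mul_assoc]
    rw [h1, hxy', hQ, ← hxy', ← Matrix.mul_assoc]
  have hpy : p.map (pconst A) * y = y := by
    rw [← hyx, Matrix.mul_assoc, hxy, hyq]
  have e1 : em 1 (jm q) = p := by rw [em_jm, h0]
  have f0 : ∀ t, (t = 0 ∨ t = 1) → em t x * em t y = p := by
    rintro t (rfl | rfl)
    · rw [← em_mul, hxy, h0]
    · rw [← em_mul, hxy, e1]
  have f1 : ∀ t, em t y * em t x = p := by
    intro t
    rw [← em_mul, hyx, em_pconst]
  have f2 : ∀ t, (t = 0 ∨ t = 1) → p * em t x = em t x := by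
    rintro t (rfl | rfl)
    · rw [← h0, ← em_mul, hqx]
    · rw [← e1, ← em_mul, hqx]
  have f3 : ∀ t, em t x * p = em t x := by
    intro t
    have := congrArg (em t) hxp
    rwa [em_mul, em_pconst] at this
  have f4 : ∀ t, (t = 0 ∨ t = 1) → em t y * p = em t y := by
    rintro t (rfl | rfl)
    · conv_lhs => rw [← h0]
      rw [← em_mul, hyq]
    · conv_lhs => rw [← e1]
      rw [← em_mul, hyq]
  have f5 : ∀ t, p * em t y = em t y := by
    intro t
    have := congrArg (em t) hpy
    rwa [em_mul, em_pconst] at this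
  have hp1 : p * (1 - p) = 0 := by rw [Matrix.mul_sub, hp, Matrix.mul_one, sub_self]
  have hp2 : (1 - p) * p = 0 := by rw [Matrix.sub_mul, hp, Matrix.one_mul, sub_self]
  have hp3 : (1 - p) * (1 - p) = 1 - p := KZero.one_sub_idem hp
  -- the invertible matrix
  let g : (Matrix n n A)ˣ :=
    { val := em 0 y * em 1 x + (1 - p)
      inv := em 1 y * em 0 x + (1 - p)
      val_inv := by
        have a1 : em 0 y * em 1 x * (em 1 y * em 0 x) = p := by
          rw [Matrix.mul_assoc, ← Matrix.mul_assoc (em 1 x), f0 1 (Or.inr rfl), f2 0 (Or.inl rfl), f1]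
        have a2 : em 0 y * em 1 x * (1 - p) = 0 := by
          rw [Matrix.mul_assoc, Matrix.mul_sub, Matrix.mul_one, f3, sub_self, Matrix.mul_zero]
        have a3 : (1 - p) * (em 1 y * em 0 x) = 0 := by
          rw [← Matrix.mul_assoc, Matrix.sub_mul, Matrix.one_mul, f5, sub_self, Matrix.zero_mul]
        rw [Matrix.add_mul, Matrix.mul_add, Matrix.mul_add, a1, a2, a3, hp3]
        abel
      inv_val := by
        have a1 : em 1 y * em 0 x * (em 0 y * em 1 x) = p := by
          rw [Matrix.mul_assoc, ← Matrix.mul_assoc (em 0 x), f0 0 (Or.inl rfl), f2 1 (Or.inr rfl), f1]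
        have a2 : em 1 y * em 0 x * (1 - p) = 0 := by
          rw [Matrix.mul_assoc, Matrix.mul_sub, Matrix.mul_one, f3, sub_self, Matrix.mul_zero]
        have a3 : (1 - p) * (em 0 y * em 1 x) = 0 := by
          rw [← Matrix.mul_assoc, Matrix.sub_mul, Matrix.one_mul, f5, sub_self, Matrix.zero_mul]
        rw [Matrix.add_mul, Matrix.mul_add, Matrix.mul_add, a1, a2, a3, hp3]
        abel }
  have hg : g.val = em 0 y * em 1 x + (1 - p) := rfl
  refine ⟨k1 g, ?_⟩
  rw [dA1_k1]
  -- the complement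
  have hc := KZero.one_sub_idem (map_idem hp (cLo A).toRingHom)
  set pc : Matrix n n (Loop A) := p.map (cLo A) with hpc
  have hc' : (1 - pc) * (1 - pc) = 1 - pc := hc
  have hjc : jm (1 - pc) = (1 - p).map (pconst A) := by
    have h1 : jm (1 - pc) = jm 1 - jm pc := Matrix.map_sub _ (map_sub (jL A)) _ _
    have h2 : (1 - p).map (pconst A) = (1 : Matrix n n A).map (pconst A) - p.map (pconst A) :=
      Matrix.map_sub _ (map_sub (pconst A)) _ _
    rw [h1, h2, jm_one, Matrix.map_one _ (map_zero _) (map_one _)]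
    rfl
  have hj : jm (fromBlocks q 0 0 (1 - pc)) = fromBlocks (jm q) 0 0 ((1 - p).map (pconst A)) := by
    rw [← hjc]
    unfold jm
    rw [Matrix.fromBlocks_map, Matrix.map_zero _ (map_zero _)]
  have hone : KZero.kc (1 : Matrix n n (Loop A)) (by simp) = cg (1 : (Matrix n n A)ˣ) := by
    symm
    refine cg_eq_of _ 1 (x := 1) (y := 1) ?_ ?_ ?_ ?_
    · rw [jm_one, Matrix.one_mul]
    · rw [Matrix.one_mul]
    · rw [jm_one, em_one, em_one]; simp
    · rw [em_one, em_one]; simp
  set P1 : Matrix n n (Poly A) := (1 - p).map (pconst A) with hP1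
  have hPP1 : P1 * P1 = P1 := map_idem hp3 (pconst A).toRingHom
  have hxP1 : x * P1 = 0 := by
    have h2 : P1 = 1 - p.map (pconst A) := by
      rw [hP1]
      have h2 : (1 - p).map (pconst A) = (1 : Matrix n n A).map (pconst A) - p.map (pconst A) :=
        Matrix.map_sub _ (map_sub (pconst A)) _ _
      rw [h2, Matrix.map_one _ (map_zero _) (map_one _)]
    rw [h2, Matrix.mul_sub, Matrix.mul_one, hxp, sub_self]
  have hP1y : P1 * y = 0 := by
    have h2 : P1 = 1 - p.map (pconst A) := by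
      rw [hP1]
      have h2 : (1 - p).map (pconst A) = (1 : Matrix n n A).map (pconst A) - p.map (pconst A) :=
        Matrix.map_sub _ (map_sub (pconst A)) _ _
      rw [h2, Matrix.map_one _ (map_zero _) (map_one _)]
    rw [h2, Matrix.sub_mul, Matrix.one_mul, hpy, sub_self]
  have hsum : p.map (pconst A) + P1 = 1 := by
    have h2 : (p + (1 - p)).map (pconst A) = p.map (pconst A) + (1 - p).map (pconst A) :=
      Matrix.map_add _ (map_add (pconst A)) _ _
    rw [hP1, ← h2, add_sub_cancel, Matrix.map_one _ (map_zero _) (map_one _)]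
  let xx : Matrix (n ⊕ n) n (Poly A) := fromRows x P1
  let yy : Matrix n (n ⊕ n) (Poly A) := fromCols y P1
  have emP1 : ∀ t, em t P1 = 1 - p := fun t => rfl
  have emxx : ∀ t, em t xx = fromRows (em t x) (1 - p) := by
    intro t
    ext (i | i) j <;> rfl
  have emyy : ∀ t, em t yy = fromCols (em t y) (1 - p) := by
    intro t
    ext i (j | j) <;> rfl
  have key : cg g = KZero.kc (fromBlocks q 0 0 (1 - pc)) (blocks_idem hq hc') := by
    refine cg_eq_of _ g (x := xx) (y := yy) ?_ ?_ ?_ ?_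
    · rw [hj]
      simp only [xx, yy]
      rw [fromRows_mul_fromCols, hxy, hxP1, hP1y, hPP1]
    · simp only [xx, yy]
      rw [fromCols_mul_fromRows, hyx, hPP1, hsum]
    · rw [Matrix.mul_assoc]
      congr 1
      rw [emxx, emxx, fromRows_mul, hg, Matrix.mul_add, Matrix.mul_add, ← Matrix.mul_assoc,
        f0 0 (Or.inl rfl), f2 1 (Or.inr rfl), Matrix.mul_sub (em 0 x), Matrix.mul_one, f3, sub_self,
        add_zero, ← Matrix.mul_assoc, Matrix.sub_mul 1 p (em 0 y), Matrix.one_mul, f5, sub_self,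
        Matrix.zero_mul, zero_add, hp3]
    · rw [emyy, emyy, mul_fromCols, hg, Matrix.add_mul, Matrix.add_mul, Matrix.mul_assoc,
        f0 1 (Or.inr rfl), f4 0 (Or.inl rfl), Matrix.sub_mul 1 p (em 1 y), Matrix.one_mul, f5,
        sub_self, add_zero, Matrix.mul_assoc, Matrix.mul_sub (em 1 x), Matrix.mul_one, f3, sub_self,
        Matrix.mul_zero, zero_add, hp3]
  rw [KZero.kc_blocks hq hc'] at key
  have hcompl := KZero.kc_compl (map_idem hp (cLo A).toRingHom) hc
  have hcompl' : KZero.kc pc (map_idem hp (cLo A).toRingHom) + KZero.kc (1 - pc) hc' =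
      cg (1 : (Matrix n n A)ˣ) := hcompl.trans hone
  unfold dl
  rw [key, ← hcompl']
  abel

/-- The essential surjectivity. -/
theorem exists_dA1 (hA : Function.Surjective (KZero.map (pconst A).toRingHom)) (x : KZero (Loop A)) :
    ∃ c : KOne A, x = KZero.map (cLo A).toRingHom (KZero.map (eLo A).toRingHom x) + dA1 A c := by
  have hcls : ∀ r : IdemMat (Loop A), ∃ c : KOne A, KZero.cls r =
      KZero.map (cLo A).toRingHom (KZero.map (eLo A).toRingHom (KZero.cls r)) + dA1 A c := by
    intro r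
    set q := r.mat with hq
    set p : Matrix (Fin r.size) (Fin r.size) A := q.map (eLo A) with hp
    have hpi : p * p = p := map_idem r.idem (eLo A).toRingHom
    have hqc : KZero.cls r = KZero.kc q r.idem := KZero.cls_eq_kc r
    have he : KZero.map (eLo A).toRingHom (KZero.cls r) = KZero.kc p hpi := by
      rw [hqc, KZero.kc_map]; rfl
    -- over `A[t]`
    have hj : KZero.map (jL A).toRingHom (KZero.kc q r.idem) =
        KZero.map (pconst A).toRingHom (KZero.kc p hpi) := by
      obtain ⟨u, hu⟩ := hA (KZero.map (jL A).toRingHom (KZero.kc q r.idem))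
      have h1 := congrArg (KZero.map (evP A 0).toRingHom) hu
      rw [← KZero.map_comp, ← KZero.map_comp] at h1
      have h2 : (evP A 0).toRingHom.comp (pconst A).toRingHom = RingHom.id A := rfl
      have h3 : (evP A 0).toRingHom.comp (jL A).toRingHom = (eLo A).toRingHom := rfl
      rw [h2, h3, KZero.map_id] at h1
      rw [← hu, h1, ← hqc, he]
    rw [KZero.kc_map, KZero.kc_map, KZero.kc_eq_kc_iff] at hj
    obtain ⟨k, hk⟩ := hj
    have h1i : (1 : Matrix (Fin k) (Fin k) (Loop A)) * 1 = 1 := by simp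
    have h1i' : (1 : Matrix (Fin k) (Fin k) A) * 1 = 1 := by simp
    have hQ := blocks_idem r.idem h1i
    have hP := blocks_idem hpi h1i'
    have hjQ : jm (fromBlocks q 0 0 (1 : Matrix (Fin k) (Fin k) (Loop A))) =
        fromBlocks (q.map (jL A).toRingHom) 0 0 1 := by
      unfold jm
      rw [Matrix.fromBlocks_map, Matrix.map_zero _ (map_zero _), Matrix.map_zero _ (map_zero _),
        Matrix.map_one _ (map_zero _) (map_one _)]
      rfl
    have hPc : (fromBlocks p 0 0 (1 : Matrix (Fin k) (Fin k) A)).map (pconst A) =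
        fromBlocks (p.map (pconst A).toRingHom) 0 0 1 := by
      rw [Matrix.fromBlocks_map, Matrix.map_zero _ (map_zero _), Matrix.map_zero _ (map_zero _),
        Matrix.map_one _ (map_zero _) (map_one _)]
      rfl
    have hPl : (fromBlocks p 0 0 (1 : Matrix (Fin k) (Fin k) A)).map (cLo A) =
        fromBlocks (p.map (cLo A).toRingHom) 0 0 1 := by
      rw [Matrix.fromBlocks_map, Matrix.map_zero _ (map_zero _), Matrix.map_zero _ (map_zero _),
        Matrix.map_one _ (map_zero _) (map_one _)]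
      rfl
    obtain ⟨c, hc⟩ := exists_dA1_of_mvN (q := fromBlocks q 0 0 1) hQ (p := fromBlocks p 0 0 1) hP
      (by rw [hjQ, hPc]; exact hk) (by
        rw [hjQ, em_blocks, em_zero', em_zero', em_one]
        rfl)
    refine ⟨c, ?_⟩
    have h4 : KZero.kc ((fromBlocks p 0 0 (1 : Matrix (Fin k) (Fin k) A)).map (cLo A))
        (map_idem hP (cLo A).toRingHom) = KZero.kc (p.map (cLo A).toRingHom)
          (map_idem hpi (cLo A).toRingHom) + KZero.kc (1 : Matrix (Fin k) (Fin k) (Loop A)) h1i := by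
      rw [← KZero.kc_blocks]
      congr 1
    rw [h4, KZero.kc_blocks r.idem h1i] at hc
    rw [he, KZero.kc_map, hqc]
    have h5 := congrArg (fun z => z - KZero.kc (1 : Matrix (Fin k) (Fin k) (Loop A)) h1i) hc
    simp only [add_sub_cancel_right] at h5
    rw [h5]
    abel
  obtain ⟨r, s, rfl⟩ := KZero.exists_sub x
  obtain ⟨c, hc⟩ := hcls r
  obtain ⟨d, hd⟩ := hcls s
  refine ⟨c - d, ?_⟩
  rw [map_sub, map_sub, map_sub]
  conv_lhs => rw [hc, hd]
  abel

end Pool.Agent.Lib.MP_e7fbd4_ag
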