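import Pool.Agent.Lib.MP_e7fbd4_ag.LauB
import Pool.Agent.Lib.MP_e7fbd4_ag.Mg.G017

/-!
# The boundary map `K₁(A) → K₀({f ∈ A[t] : f(0) = f(1)})`
-/

set_option autoImplicit false
set_option linter.unusedSectionVars false

namespace Pool.Agent.Lib.MP_e7fbd4_ag

open Matrix Pool.Agent.Lib.MP_c052b4_al

section Path

variable {A : Type} [Ring A] [Algebra ℂ A] {n m : Type} [Fintype n] [Fintype m] [DecidableEq n]
  [DecidableEq m]

/-- `t X` -/
noncomputable def tX (X : Matrix n m A) : Matrix n m (Poly A) :=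
  (pvar A) • X.map (pconst A)

theorem em_tX (t : ℂ) (X : Matrix n m A) : em t (tX X) = t • X := by
  ext i j
  change (algebraMap ℂ A t) * X i j = t • X i j
  rw [Algebra.smul_def]

theorem em_tX0 (X : Matrix n m A) : em 0 (tX X) = 0 := by rw [em_tX, zero_smul]

theorem em_tX1 (X : Matrix n m A) : em 1 (tX X) = X := by rw [em_tX, one_smul]

/-- the path from `1` to `diag(g, g⁻¹)` -/
noncomputable def Vg (g : (Matrix n n A)ˣ) : (Matrix (n ⊕ n) (n ⊕ n) (Poly A))ˣ :=
  uU (tX (g : Matrix n n A)) * lU (tX (-((g⁻¹ : (Matrix n n A)ˣ) : Matrix n n A))) *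
    uU (tX (g : Matrix n n A)) * (uU (tX (-1)) * lU (tX 1) * uU (tX (-1)))

theorem mU_uU' {S T : Type} [Ring S] [Ring T] (φ : S →+* T) (X : Matrix n m S) :
    mU φ (uU X) = uU (X.map φ) := by
  apply Units.ext
  rw [coe_mU, coe_uU, coe_uU, Matrix.fromBlocks_map]
  simp

theorem mU_lU' {S T : Type} [Ring S] [Ring T] (φ : S →+* T) (X : Matrix m n S) :
    mU φ (lU X : (Matrix (n ⊕ m) (n ⊕ m) S)ˣ) = lU (X.map φ) := by
  apply Units.ext
  rw [coe_mU, coe_lU, coe_lU, Matrix.fromBlocks_map]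
  simp

theorem uU_zero {S : Type} [Ring S] : (uU (0 : Matrix n m S)) = 1 := by
  apply Units.ext
  rw [coe_uU, fromBlocks_one]
  rfl

theorem lU_zero {S : Type} [Ring S] : (lU (0 : Matrix m n S) : (Matrix (n ⊕ m) (n ⊕ m) S)ˣ) = 1 := by
  apply Units.ext
  rw [coe_lU, fromBlocks_one]
  rfl

/-- evaluation on invertible matrices -/
noncomputable abbrev mE (t : ℂ) (U : (Matrix n n (Poly A))ˣ) : (Matrix n n A)ˣ :=
  mU (evP A t).toRingHom U

theorem coe_mE (t : ℂ) (U : (Matrix n n (Poly A))ˣ) :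
    ((mE t U : (Matrix n n A)ˣ) : Matrix n n A) = em t (U : Matrix n n (Poly A)) := rfl

theorem coe_mE_inv (t : ℂ) (U : (Matrix n n (Poly A))ˣ) :
    (((mE t U)⁻¹ : (Matrix n n A)ˣ) : Matrix n n A) =
      em t ((U⁻¹ : (Matrix n n (Poly A))ˣ) : Matrix n n (Poly A)) := by
  rw [← map_inv]; rfl

theorem mE_Vg_zero (g : (Matrix n n A)ˣ) : mE 0 (Vg g) = 1 := by
  have h : ∀ X : Matrix n n A, (tX X).map (evP A 0).toRingHom = 0 := em_tX0
  simp only [mE, Vg, map_mul, mU_uU', mU_lU', h, uU_zero, lU_zero, mul_one]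

theorem mE_Vg_one (g : (Matrix n n A)ˣ) : mE 1 (Vg g) = bl g g⁻¹ := by
  have h : ∀ X : Matrix n n A, (tX X).map (evP A 1).toRingHom = X := em_tX1
  simp only [mE, Vg, map_mul, mU_uU', mU_lU', h]
  apply Units.ext
  simp only [Units.val_mul, coe_uU, coe_lU, coe_bl, fromBlocks_multiply]
  simp

/-- the matrix `(1; 0)` -/
def rr (n : Type) [DecidableEq n] (S : Type) [Ring S] : Matrix (n ⊕ n) n S := fromRows 1 0

/-- the matrix `(1, 0)` -/
def cc (n : Type) [DecidableEq n] (S : Type) [Ring S] : Matrix n (n ⊕ n) S := fromCols 1 0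

theorem cc_rr (n : Type) [Fintype n] [DecidableEq n] (S : Type) [Ring S] : cc n S * rr n S = 1 := by
  unfold cc rr
  rw [fromCols_mul_fromRows]; simp

theorem map_rr {S T : Type} [Ring S] [Ring T] (φ : S →+* T) : (rr n S).map φ = rr n T := by
  ext1 i j
  rcases i with i | i
  · change φ ((1 : Matrix n n S) i j) = (1 : Matrix n n T) i j
    rw [Matrix.one_apply, Matrix.one_apply]
    split_ifs
    · exact map_one φ
    · exact map_zero φ
  · exact map_zero φ

theorem map_cc {S T : Type} [Ring S] [Ring T] (φ : S →+* T) : (cc n S).map φ = cc n T := by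
  ext1 i j
  rcases j with j | j
  · change φ ((1 : Matrix n n S) i j) = (1 : Matrix n n T) i j
    rw [Matrix.one_apply, Matrix.one_apply]
    split_ifs
    · exact map_one φ
    · exact map_zero φ
  · exact map_zero φ

/-- first part of the factorization -/
noncomputable def xg (g : (Matrix n n A)ˣ) : Matrix (n ⊕ n) n (Poly A) :=
  (Vg g).val * rr n (Poly A)

/-- second part of the factorization -/
noncomputable def yg (g : (Matrix n n A)ˣ) : Matrix n (n ⊕ n) (Poly A) :=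
  cc n (Poly A) * ((Vg g)⁻¹).val

theorem yg_xg (g : (Matrix n n A)ˣ) : yg g * xg g = 1 := by
  unfold xg yg
  rw [Matrix.mul_assoc, ← Matrix.mul_assoc _ (Vg g).val, Units.inv_mul, Matrix.one_mul, cc_rr]

theorem em_rr (t : ℂ) : em t (rr n (Poly A)) = rr n A := map_rr (evP A t).toRingHom

theorem em_cc (t : ℂ) : em t (cc n (Poly A)) = cc n A := map_cc (evP A t).toRingHom

theorem em0_xg (g : (Matrix n n A)ˣ) : em 0 (xg g) = rr n A := by
  unfold xg
  rw [em_mul, em_rr, ← coe_mE, mE_Vg_zero, Units.val_one, Matrix.one_mul]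

theorem em0_yg (g : (Matrix n n A)ˣ) : em 0 (yg g) = cc n A := by
  unfold yg
  rw [em_mul, em_cc, ← coe_mE_inv, mE_Vg_zero, inv_one, Units.val_one, Matrix.mul_one]

theorem em1_xg (g : (Matrix n n A)ˣ) : em 1 (xg g) = rr n A * g.val := by
  unfold xg
  rw [em_mul, em_rr, ← coe_mE, mE_Vg_one, coe_bl]
  unfold rr
  rw [fromBlocks_mul_fromRows, fromRows_mul]
  simp

theorem em1_yg (g : (Matrix n n A)ˣ) : em 1 (yg g) = (g⁻¹).val * cc n A := by
  unfold yg
  rw [em_mul, em_cc, ← coe_mE_inv, mE_Vg_one]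
  have h : ((bl g g⁻¹)⁻¹).val = fromBlocks (g⁻¹).val 0 0 ((g⁻¹)⁻¹).val := rfl
  rw [h]
  unfold cc
  rw [fromCols_mul_fromBlocks, mul_fromCols]
  simp

/-- the idempotent matrix over `A[t]` -/
noncomputable def EP (g : (Matrix n n A)ˣ) : Matrix (n ⊕ n) (n ⊕ n) (Poly A) := xg g * yg g

theorem EP_idem (g : (Matrix n n A)ˣ) : EP g * EP g = EP g := by
  unfold EP
  rw [Matrix.mul_assoc, ← Matrix.mul_assoc (yg g), yg_xg, Matrix.one_mul]

theorem em_EP (g : (Matrix n n A)ˣ) : em 1 (EP g) = em 0 (EP g) := by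
  unfold EP
  rw [em_mul, em_mul, em0_xg, em0_yg, em1_xg, em1_yg, Matrix.mul_assoc,
    ← Matrix.mul_assoc (g : Matrix n n A), Units.mul_inv, Matrix.one_mul]

theorem exists_jm {X : Matrix n m (Poly A)} (h : em 1 X = em 0 X) : ∃ Y : Matrix n m (Loop A),
    jm Y = X := by
  choose Y hY using fun i j => exists_jL (congrFun (congrFun h i) j)
  exact ⟨Y, Matrix.ext fun i j => hY i j⟩

/-- the idempotent matrix over the loop algebra -/
noncomputable def Eg (g : (Matrix n n A)ˣ) : Matrix (n ⊕ n) (n ⊕ n) (Loop A) :=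
  (exists_jm (em_EP g)).choose

theorem jm_Eg (g : (Matrix n n A)ˣ) : jm (Eg g) = EP g := (exists_jm (em_EP g)).choose_spec

theorem Eg_idem (g : (Matrix n n A)ˣ) : Eg g * Eg g = Eg g := by
  apply jm_injective
  rw [jm_mul, jm_Eg, EP_idem]

attribute [local instance] polyMod

/-- The patched module. -/
abbrev Mg (g : Matrix n n A) : Submodule (Loop A) (n → Poly A) := Mq 1 g

theorem Mg_equiv (g : (Matrix n n A)ˣ) : Nonempty (img (Eg g) ≃ₗ[Loop A] Mg (g : Matrix n n A)) := by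
  obtain ⟨θ⟩ := img_equiv (Eg_idem g)
  rw [jm_Eg] at θ
  obtain ⟨η⟩ := Mq_equiv (p := EP g) (p' := 1) (g := 1) (h := (g : Matrix n n A))
    (x := xg g) (y := yg g) rfl (yg_xg g) (by
      rw [Matrix.mul_one, em0_xg, em1_xg, Matrix.mul_assoc]) (by
      rw [em_one, Matrix.one_mul, Matrix.one_mul, em1_yg, em0_yg, Matrix.mul_one,
        ← Matrix.mul_assoc, Units.mul_inv, Matrix.one_mul])
  exact ⟨θ.trans η⟩

instance Mg_finite (g : (Matrix n n A)ˣ) : Module.Finite (Loop A) (Mg (g : Matrix n n A)) := by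
  obtain ⟨θ⟩ := Mg_equiv g
  exact Module.Finite.equiv θ

instance Mg_projective (g : (Matrix n n A)ˣ) :
    Module.Projective (Loop A) (Mg (g : Matrix n n A)) := by
  obtain ⟨θ⟩ := Mg_equiv g
  have := img_projective (Eg_idem g)
  exact Module.Projective.of_equiv θ

/-- the class of the patched module -/
noncomputable def cg (g : (Matrix n n A)ˣ) : KZero (Loop A) := kmod (Loop A) (Mg (g : Matrix n n A))

theorem cg_eq (g : (Matrix n n A)ˣ) : cg g = KZero.kc (Eg g) (Eg_idem g) := by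
  obtain ⟨θ⟩ := Mg_equiv g
  exact kmod_eq_kc _ θ

theorem cg_eq_of {E : Matrix m m (Loop A)} (hE : E * E = E) (g : (Matrix n n A)ˣ)
    {x : Matrix m n (Poly A)} {y : Matrix n m (Poly A)} (hxy : x * y = jm E) (hyx : y * x = 1)
    (h1 : em 0 (jm E) * em 1 x = em 0 (jm E) * em 0 x * (g : Matrix n n A))
    (h2 : (g : Matrix n n A) * em 1 y = em 0 y) : cg g = KZero.kc E hE := by
  obtain ⟨θ⟩ := img_equiv hE
  obtain ⟨η⟩ := Mq_equiv (p := jm E) (p' := 1) (g := 1) (h := (g : Matrix n n A))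
    (x := x) (y := y) hxy hyx (by rw [Matrix.mul_one]; exact h1) (by
      rw [em_one, Matrix.one_mul, Matrix.one_mul, Matrix.mul_one]; exact h2)
  exact kmod_eq_kc _ (θ.trans η)

theorem cg_congr {g : (Matrix n n A)ˣ} {h : (Matrix m m A)ˣ} {x : Matrix n m (Poly A)}
    {y : Matrix m n (Poly A)} (hxy : x * y = 1) (hyx : y * x = 1)
    (h1 : (g : Matrix n n A) * em 1 x = em 0 x * (h : Matrix m m A))
    (h2 : (h : Matrix m m A) * em 1 y = em 0 y * (g : Matrix n n A)) : cg g = cg h := by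
  obtain ⟨η⟩ := Mq_equiv (p := 1) (p' := 1) (g := (g : Matrix n n A)) (h := (h : Matrix m m A))
    (x := x) (y := y) hxy hyx (by
      rw [em_one, Matrix.one_mul, Matrix.one_mul]; exact h1) (by
      rw [em_one, Matrix.one_mul, Matrix.one_mul]; exact h2)
  exact kmod_congr η

/-- conjugation by a path -/
theorem cg_path (g : (Matrix n n A)ˣ) (a : (Matrix n n (Poly A))ˣ) :
    cg ((mE 0 a)⁻¹ * g * mE 1 a) = cg g := by
  symm
  refine cg_congr (x := a.val) (y := (a⁻¹).val) (Units.mul_inv a) (Units.inv_mul a) ?_ ?_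
  · rw [← coe_mE, ← coe_mE, Units.val_mul, Units.val_mul, ← Matrix.mul_assoc, ← Matrix.mul_assoc,
      Units.mul_inv, Matrix.one_mul]
  · rw [← coe_mE_inv, ← coe_mE_inv, Units.val_mul, Units.val_mul, Matrix.mul_assoc, Units.mul_inv,
      Matrix.mul_one]

theorem em_blocks {n' m' : Type} (t : ℂ) (a : Matrix n m (Poly A)) (b : Matrix n m' (Poly A))
    (c : Matrix n' m (Poly A)) (d : Matrix n' m' (Poly A)) :
    em t (fromBlocks a b c d) = fromBlocks (em t a) (em t b) (em t c) (em t d) :=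
  Matrix.fromBlocks_map _ _ _ _ _

theorem em_zero' {n' m' : Type} (t : ℂ) : em t (0 : Matrix n' m' (Poly A)) = 0 :=
  Matrix.map_zero _ (map_zero _)

/-- block sums -/
theorem cg_bl (g : (Matrix n n A)ˣ) (h : (Matrix m m A)ˣ) : cg (bl g h) = cg g + cg h := by
  rw [cg_eq g, cg_eq h, ← KZero.kc_blocks]
  have hj : jm (fromBlocks (Eg g) 0 0 (Eg h)) = fromBlocks (EP g) 0 0 (EP h) := by
    unfold jm
    rw [Matrix.fromBlocks_map, Matrix.map_zero _ (map_zero _), Matrix.map_zero _ (map_zero _)]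
    congr 1
    · exact jm_Eg g
    · exact jm_Eg h
  refine cg_eq_of _ (bl g h) (x := fromBlocks (xg g) 0 0 (xg h))
    (y := fromBlocks (yg g) 0 0 (yg h)) ?_ ?_ ?_ ?_
  · rw [hj, fromBlocks_multiply]
    simp [EP]
  · rw [fromBlocks_multiply]
    simp [yg_xg]
  · rw [Matrix.mul_assoc]
    congr 1
    rw [em_blocks, em_blocks, coe_bl, fromBlocks_multiply, em_zero', em_zero', em1_xg, em1_xg,
      em0_xg, em0_xg, em_zero', em_zero']
    simp
  · rw [em_blocks, em_blocks, coe_bl, fromBlocks_multiply, em_zero', em_zero', em1_yg, em1_yg,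
      em0_yg, em0_yg, em_zero', em_zero']
    have e1 : g.val * ((g⁻¹).val * cc n A) = cc n A := by
      rw [← Matrix.mul_assoc, Units.mul_inv, Matrix.one_mul]
    have e2 : h.val * ((h⁻¹).val * cc m A) = cc m A := by
      rw [← Matrix.mul_assoc, Units.mul_inv, Matrix.one_mul]
    rw [e1, e2]
    simp

/-- reindexing -/
theorem cg_rU (σ : n ≃ m) (g : (Matrix n n A)ˣ) : cg (rU σ g) = cg g := by
  symm
  have hem : ∀ (t : ℂ) {k l k' l' : Type} (f : k' → k) (e : l' → l) (X : Matrix k l (Poly A)),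
      em t (X.submatrix f e) = (em t X).submatrix f e := fun _ => by intros; rfl
  refine cg_congr (x := (1 : Matrix n n (Poly A)).submatrix id σ.symm)
    (y := (1 : Matrix n n (Poly A)).submatrix σ.symm id) ?_ ?_ ?_ ?_
  · rw [Matrix.submatrix_mul_equiv, Matrix.one_mul, Matrix.submatrix_id_id]
  · have h := Matrix.submatrix_mul_equiv (1 : Matrix n n (Poly A)) (1 : Matrix n n (Poly A))
      σ.symm (Equiv.refl n) σ.symm
    rw [Matrix.one_mul, Matrix.submatrix_one_equiv] at h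
    exact h
  · rw [hem, hem, em_one, em_one, coe_rU]
    have h1 := Matrix.submatrix_mul_equiv (g : Matrix n n A) (1 : Matrix n n A) id (Equiv.refl n)
      σ.symm
    have h2 := Matrix.submatrix_mul_equiv (1 : Matrix n n A) (g : Matrix n n A) id σ.symm σ.symm
    rw [Matrix.mul_one] at h1
    rw [Matrix.one_mul] at h2
    exact h1.trans h2.symm
  · rw [hem, hem, em_one, em_one, coe_rU]
    have h1 := Matrix.submatrix_mul_equiv (g : Matrix n n A) (1 : Matrix n n A) σ.symm σ.symm id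
    have h2 := Matrix.submatrix_mul_equiv (1 : Matrix n n A) (g : Matrix n n A) σ.symm
      (Equiv.refl n) id
    rw [Matrix.mul_one] at h1
    rw [Matrix.one_mul] at h2
    exact h1.trans h2.symm

/-- the boundary of an invertible matrix -/
noncomputable def dl (g : (Matrix n n A)ˣ) : KZero (Loop A) := cg g - cg (1 : (Matrix n n A)ˣ)

theorem dl_one : dl (1 : (Matrix n n A)ˣ) = 0 := sub_self _

theorem dl_bl (g : (Matrix n n A)ˣ) (h : (Matrix m m A)ˣ) : dl (bl g h) = dl g + dl h := by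
  unfold dl
  rw [cg_bl, ← bl_one, cg_bl]
  abel

theorem dl_rU (σ : n ≃ m) (g : (Matrix n n A)ˣ) : dl (rU σ g) = dl g := by
  unfold dl
  rw [cg_rU, ← rU_one σ, cg_rU]

theorem dl_path (g : (Matrix n n A)ˣ) (a : (Matrix n n (Poly A))ˣ) :
    dl ((mE 0 a)⁻¹ * g * mE 1 a) = dl g := by
  unfold dl
  rw [cg_path]

theorem dl_mul (g h : (Matrix n n A)ˣ) : dl (g * h) = dl g + dl h := by
  have h1 : bl (g * h) (1 : (Matrix n n A)ˣ) = (mE 0 (Vg h))⁻¹ * bl g h * mE 1 (Vg h) := by
    rw [mE_Vg_zero, mE_Vg_one, inv_one, one_mul, ← bl_mul, mul_inv_cancel]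
  have h2 : dl (bl (g * h) (1 : (Matrix n n A)ˣ)) = dl (g * h) := by
    rw [dl_bl, dl_one, add_zero]
  rw [← h2, h1, dl_path, dl_bl]

/-- the boundary as a homomorphism on `GL_k` -/
noncomputable def dlHom (k : ℕ) : (Matrix (Fin k) (Fin k) A)ˣ →* Multiplicative (KZero (Loop A)) where
  toFun g := Multiplicative.ofAdd (dl g)
  map_one' := by rw [dl_one]; rfl
  map_mul' A B := by rw [dl_mul]; rfl

/-- The boundary map `K₁(A) → K₀({f ∈ A[t] : f(0) = f(1)})`. -/
noncomputable def dA1 (A : Type) [Ring A] [Algebra ℂ A] : KOne A →+ KZero (Loop A) :=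
  KOne.desc (Omega.lift (stabHom A) (fun k => dlHom k) (by
    intro k g
    change Multiplicative.ofAdd (dl (rU finSumFinEquiv (bl g 1))) = Multiplicative.ofAdd (dl g)
    rw [dl_rU, dl_bl, dl_one, add_zero]))

theorem dA1_kf (k : ℕ) (g : (Matrix (Fin k) (Fin k) A)ˣ) : dA1 A (kf k g) = dl g := rfl

theorem dA1_k1 (g : (Matrix n n A)ˣ) : dA1 A (k1 g) = dl g := by
  unfold k1
  rw [dA1_kf, dl_rU]

/-- homotopies have trivial boundary -/
theorem dA1_ho {x : KOne A} (hx : x ∈ ho A) : dA1 A x = 0 := by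
  obtain ⟨y, rfl⟩ := mem_ho.1 hx
  obtain ⟨k, a, rfl⟩ := exists_k1 y
  rw [KOne.map_k1, KOne.map_k1, map_sub, dA1_k1, dA1_k1]
  have h1 := dl_path (1 : (Matrix (Fin k) (Fin k) A)ˣ) a
  rw [mul_one, dl_mul, dl_one] at h1
  have h2 : dl ((mE 0 a)⁻¹) = - dl (mE 0 a) := by
    rw [eq_neg_iff_add_eq_zero, ← dl_mul, inv_mul_cancel, dl_one]
  rw [h2] at h1
  have h3 : dl (mE 1 a) - dl (mE 0 a) = 0 := by rw [← h1]; abel
  exact h3

end Path

section Nat

variable {A B : Type} [Ring A] [Algebra ℂ A] [Ring B] [Algebra ℂ B] (f : A →ₐ[ℂ] B)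
  {n m : Type} [Fintype n] [Fintype m] [DecidableEq n] [DecidableEq m]

/-- the map of loop algebras -/
noncomputable def lo (f : A →ₐ[ℂ] B) : Loop A →ₐ[ℂ] Loop B :=
  ((funMap ℂ f).comp (Loop A).val).codRestrict (Loop B)
    fun g => ⟨comp_mem_poly f g.2.1, congrArg f g.2.2⟩

theorem lo_eq : lo f = loopOp.map f := rfl

theorem map_tX (X : Matrix n m A) : (tX X).map (polyMap f) = tX (X.map f) := by
  ext1 i j
  apply Subtype.ext
  funext t
  change f ((algebraMap ℂ A t) * X i j) = algebraMap ℂ B t * f (X i j)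
  rw [map_mul, AlgHom.commutes]

theorem map_Vg (g : (Matrix n n A)ˣ) :
    mU (polyMap f).toRingHom (Vg g) = Vg (mU f.toRingHom g) := by
  have h : ∀ X : Matrix n n A, (tX X).map (polyMap f).toRingHom = tX (X.map f) := map_tX f
  have h1 : (-1 : Matrix n n A).map f = -1 := map_neg f.mapMatrix 1 |>.trans (by rw [map_one])
  have h2 : (1 : Matrix n n A).map f = 1 := map_one f.mapMatrix
  have h3 : (-((g⁻¹ : (Matrix n n A)ˣ) : Matrix n n A)).map f =
      -(((mU f.toRingHom g)⁻¹ : (Matrix n n B)ˣ) : Matrix n n B) := by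
    rw [← map_inv]
    exact map_neg f.mapMatrix _
  have h4 : (g : Matrix n n A).map f = (mU f.toRingHom g : (Matrix n n B)ˣ) := rfl
  simp only [Vg, map_mul, mU_uU', mU_lU', h, h1, h2, h3, h4]

theorem map_xg (g : (Matrix n n A)ˣ) : (xg g).map (polyMap f) = xg (mU f.toRingHom g) := by
  unfold xg
  have h := Matrix.map_mul (f := (polyMap f).toRingHom) (L := (Vg g).val) (M := rr n (Poly A))
  refine h.trans ?_
  rw [map_rr]
  have h1 : ((Vg g).val).map (polyMap f).toRingHom = (Vg (mU f.toRingHom g)).val := by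
    rw [← map_Vg]; rfl
  rw [h1]

theorem map_yg (g : (Matrix n n A)ˣ) : (yg g).map (polyMap f) = yg (mU f.toRingHom g) := by
  unfold yg
  have h := Matrix.map_mul (f := (polyMap f).toRingHom) (M := (Vg g)⁻¹.val) (L := cc n (Poly A))
  refine h.trans ?_
  rw [map_cc]
  have h1 : ((Vg g)⁻¹.val).map (polyMap f).toRingHom = (Vg (mU f.toRingHom g))⁻¹.val := by
    rw [← map_Vg, ← map_inv]; rfl
  rw [h1]

theorem map_Eg (g : (Matrix n n A)ˣ) : (Eg g).map (lo f) = Eg (mU f.toRingHom g) := by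
  apply jm_injective
  have h1 : jm ((Eg g).map (lo f)) = (jm (Eg g)).map (polyMap f) := rfl
  rw [h1, jm_Eg, jm_Eg]
  unfold EP
  have h := Matrix.map_mul (f := (polyMap f).toRingHom) (L := xg g) (M := yg g)
  refine h.trans ?_
  have h2 : (xg g).map (polyMap f).toRingHom = xg (mU f.toRingHom g) := map_xg f g
  have h3 : (yg g).map (polyMap f).toRingHom = yg (mU f.toRingHom g) := map_yg f g
  rw [h2, h3]

theorem map_cg (g : (Matrix n n A)ˣ) :
    KZero.map (lo f).toRingHom (cg g) = cg (mU f.toRingHom g) := by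
  rw [cg_eq, cg_eq]
  refine (KZero.kc_map _ _ _).trans ?_
  congr 1
  exact map_Eg f g

theorem map_dl (g : (Matrix n n A)ˣ) :
    KZero.map (lo f).toRingHom (dl g) = dl (mU f.toRingHom g) := by
  unfold dl
  rw [map_sub, map_cg, map_cg, map_one]

/-- naturality -/
theorem map_dA1 (x : KOne A) :
    KZero.map (lo f).toRingHom (dA1 A x) = dA1 B (KOne.map f.toRingHom x) := by
  obtain ⟨k, g, rfl⟩ := exists_k1 x
  rw [KOne.map_k1, dA1_k1, dA1_k1, map_dl]

end Nat

end Pool.Agent.Lib.MP_e7fbd4_ag
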