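import Pool.Agent.Lib.MP_e7fbd4_ag.Tower4

/-!
# The groups `KV_n` of Laurent polynomial algebras
-/

set_option autoImplicit false
set_option linter.unusedSectionVars false
set_option linter.unusedVariables false

namespace Pool.Agent.Lib.MP_e7fbd4_ag

open Pool.Agent.Lib.MP_c052b4_al

namespace H44

theorem trace_equiv {m n : Type} [Fintype m] [Fintype n] (e : Matrix m m ℂ) (σ : n ≃ m) :
    (e.submatrix σ σ).trace = e.trace := Equiv.sum_comp σ fun i => e i i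

theorem trace_blocks {m n : Type} [Fintype m] [Fintype n] (A : Matrix m m ℂ) (B : Matrix n n ℂ) :
    (Matrix.fromBlocks A 0 0 B).trace = A.trace + B.trace := by
  simp [Matrix.trace, Fintype.sum_sum_type]

/-- the trace of an idempotent matrix -/
noncomputable def trV : VMon ℂ →+ ℂ where
  toFun := Quotient.lift (fun p : IdemMat ℂ => Matrix.trace p.mat) (by
    rintro p q ⟨x, y, h1, h2⟩
    rw [← h1, ← h2, Matrix.trace_mul_comm])
  map_zero' := by
    change Matrix.trace (0 : Matrix (Fin 0) (Fin 0) ℂ) = 0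
    simp
  map_add' := by
    rintro ⟨p⟩ ⟨q⟩
    change Matrix.trace (Matrix.reindex finSumFinEquiv finSumFinEquiv
      (Matrix.fromBlocks p.mat 0 0 q.mat)) = Matrix.trace p.mat + Matrix.trace q.mat
    rw [← trace_blocks, Matrix.reindex_apply, trace_equiv]

/-- the trace on `K₀(ℂ)` -/
noncomputable def trK : KZero ℂ →+ ℂ := Algebra.GrothendieckAddGroup.lift trV

theorem trK_cls (p : IdemMat ℂ) : trK (KZero.cls p) = Matrix.trace p.mat := by
  have h := Algebra.GrothendieckAddGroup.lift.symm_apply_apply trV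
  exact DFunLike.congr_fun h (VMon.mk p)

theorem trK_kc {m : Type} [Fintype m] (e : Matrix m m ℂ) (he : e * e = e) :
    trK (KZero.kc e he) = Matrix.trace e := by
  unfold KZero.kc
  rw [trK_cls]
  change Matrix.trace (Matrix.reindex (Fintype.equivFin m) (Fintype.equivFin m) e) = _
  rw [Matrix.reindex_apply, trace_equiv]

theorem trK_one : trK (kmod ℂ ℂ) = 1 := by
  have f : img (1 : Matrix Unit Unit ℂ) ≃ₗ[ℂ] ℂ :=
    (LinearEquiv.ofTop _ img_one).trans (LinearEquiv.funUnique Unit ℂ ℂ)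
  rw [kmod_eq_kc (by simp) f, trK_kc]
  simp

theorem kmod_fin (d : ℕ) : kmod ℂ (Fin d → ℂ) = d • kmod ℂ ℂ := by
  induction d with
  | zero => rw [zero_smul]; exact kmod_eq_zero
  | succ d ih =>
    rw [succ_nsmul', ← ih, ← kmod_prod]
    exact (kmod_congr (Fin.consLinearEquiv ℂ (fun _ : Fin (d + 1) => ℂ))).symm

theorem cls_eq (p : IdemMat ℂ) : ∃ d : ℕ, KZero.cls p = d • kmod ℂ ℂ := by
  refine ⟨Module.finrank ℂ (img p.mat), ?_⟩
  have f : img p.mat ≃ₗ[ℂ] (Fin (Module.finrank ℂ (img p.mat)) → ℂ) :=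
    LinearEquiv.ofFinrankEq _ _ (by simp)
  rw [KZero.cls_eq_kc, ← kmod_fin, kmod_eq_kc p.idem f]

/-- `K₀(ℂ) ≅ ℤ` -/
theorem K0C : Nonempty (ℤ ≃+ KZero ℂ) := by
  let g : ℤ →+ KZero ℂ := zmultiplesHom (KZero ℂ) (kmod ℂ ℂ)
  have hg : ∀ n, g n = n • kmod ℂ ℂ := fun n => rfl
  refine ⟨AddEquiv.ofBijective g ⟨?_, ?_⟩⟩
  · rw [injective_iff_map_eq_zero]
    intro n hn
    have h1 := congrArg trK hn
    rw [hg, map_zsmul, trK_one, map_zero] at h1
    simpa using h1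
  · intro x
    obtain ⟨p, q, rfl⟩ := KZero.exists_sub x
    obtain ⟨a, ha⟩ := cls_eq p
    obtain ⟨b, hb⟩ := cls_eq q
    refine ⟨(a : ℤ) - b, ?_⟩
    rw [hg, sub_smul, ha, hb, natCast_zsmul, natCast_zsmul]

theorem K0T0 : Nonempty (redZ K0F (Fin 0) ≃+ ℤ) := by
  obtain ⟨e1⟩ := K0C
  let f : TZ (Fin 0) ≃+* ℂ := MonoidAlgebra.uniqueRingEquiv (Multiplicative (Fin 0 → ℤ))
  let e2 : KZero (TZ (Fin 0)) ≃+ KZero ℂ := AddEquiv.ofBijective (KZero.map (f : TZ (Fin 0) →+* ℂ))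
    ⟨KZero.map_injective_of_leftInverse (ψ := (f.symm : ℂ →+* TZ (Fin 0))) (by ext <;> simp),
      KZero.map_ringEquiv_surjective f⟩
  have h : redZ K0F (Fin 0) = ⊤ := by
    rw [eq_top_iff]
    intro x _ i
    exact Fin.elim0 i
  rw [h]
  exact ⟨(AddSubgroup.topEquiv.trans e2).trans e1.symm⟩

theorem redZ_K0F_succ (M : ℕ) (x : K0F.obj (TZ (Fin (M + 1)))) (hx : x ∈ redZ K0F (Fin (M + 1))) :
    x = 0 := by
  obtain ⟨y, rfl⟩ := (nice_pi reg_C (M + 1)).surj x
  have h1 : K0F.map (piZ 0) (KZero.map (MonoidAlgebra.singleOneRingHom : ℂ →+* TZ (Fin (M + 1))) y) =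
    0 := hx 0
  have h2 : (piZ (0 : Fin (M + 1))).toRingHom.comp
      (MonoidAlgebra.singleOneRingHom : ℂ →+* TZ (Fin (M + 1))) =
      (MonoidAlgebra.singleOneRingHom : ℂ →+* TZ (Fin (M + 1))) := by
    refine RingHom.ext fun c => ?_
    change tzMap (kill 0) (MonoidAlgebra.single 1 c) = MonoidAlgebra.single 1 c
    rw [tzMap_single]
    congr 1
    apply Multiplicative.toAdd.injective
    exact map_zero (kill 0)
  have h3 : KZero.map (piZ (0 : Fin (M + 1))).toRingHom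
    (KZero.map (MonoidAlgebra.singleOneRingHom : ℂ →+* TZ (Fin (M + 1))) y) = 0 := h1
  rwa [← KZero.map_comp, h2] at h3

end H44

open H44

theorem w1 : W1 := by
  intro k N hN x hx
  obtain ⟨M, rfl⟩ : ∃ M, N = (M + 1) + (k + 1) := ⟨N - (k + 2), by omega⟩
  obtain ⟨e⟩ := redZ_KV k (M + 1)
  have h1 : e ⟨x, hx⟩ = 0 := by
    apply Subtype.ext
    exact redZ_K0F_succ M _ (e ⟨x, hx⟩).2
  have h2 : (⟨x, hx⟩ : redZ (KV k) (Fin (M + 1 + (k + 1)))) = 0 := by
    apply e.injective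
    rw [h1, map_zero]
  exact congrArg Subtype.val h2

theorem w2 : W2 := by
  intro k
  obtain ⟨e1⟩ := redZ_KV k 0
  obtain ⟨e2⟩ := K0T0
  have h : 0 + (k + 1) = k + 1 := Nat.zero_add _
  rw [h] at e1
  exact ⟨e1.trans e2⟩

end Pool.Agent.Lib.MP_e7fbd4_ag
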