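import Pool.Agent.Lib.MP_e7fbd4_ag.Mg.G005
import Pool.Agent.Lib.MP_e7fbd4_ag.Mg.G018

/-!
# Splitting off one variable
-/

set_option autoImplicit false
set_option linter.unusedSectionVars false
set_option linter.unusedVariables false

namespace Pool.Agent.Lib.MP_e7fbd4_ag.H44

open Pool.Agent.Lib.MP_c052b4_al

variable (N : ℕ)

/-- the exponents -/
def gIso : Multiplicative (Fin (N + 1) → ℤ) ≃* Multiplicative ℤ × Multiplicative (Fin N → ℤ) where
  toFun v := (Multiplicative.ofAdd (Multiplicative.toAdd v 0),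
    Multiplicative.ofAdd fun j => Multiplicative.toAdd v j.succ)
  invFun p := Multiplicative.ofAdd
    (Fin.cons (α := fun _ => ℤ) (Multiplicative.toAdd p.1) (Multiplicative.toAdd p.2))
  left_inv v := by
    apply Multiplicative.toAdd.injective
    funext j
    refine Fin.cases ?_ (fun j => ?_) j <;> simp
  right_inv p := by
    apply Prod.ext
    · rfl
    · rfl
  map_mul' v w := rfl

/-- `ℂ[z_0^{±1}, …, z_N^{±1}] ≃ ℂ[z_1^{±1}, …][z_0^{±1}]` as rings -/
noncomputable def uRing : TZ (Fin (N + 1)) ≃+* Lau (TZ (Fin N)) :=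
  (MonoidAlgebra.mapDomainRingEquiv ℂ (gIso N)).trans MonoidAlgebra.curryRingEquiv

theorem uRing_single (v : Multiplicative (Fin (N + 1) → ℤ)) (c : ℂ) :
    uRing N (MonoidAlgebra.single v c) = MonoidAlgebra.single (gIso N v).1
      (MonoidAlgebra.single (gIso N v).2 c) := by
  unfold uRing
  rw [RingEquiv.trans_apply]
  have h : MonoidAlgebra.mapDomainRingEquiv ℂ (gIso N) (MonoidAlgebra.single v c) =
      MonoidAlgebra.single (gIso N v) c := by simp
  rw [h]
  exact MonoidAlgebra.curryRingEquiv_single (gIso N v).1 (gIso N v).2 c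

/-- `ℂ[z_0^{±1}, …, z_N^{±1}] ≃ ℂ[z_1^{±1}, …][z_0^{±1}]` -/
noncomputable def uAlg : TZ (Fin (N + 1)) ≃ₐ[ℂ] Lau (TZ (Fin N)) :=
  AlgEquiv.ofRingEquiv (f := uRing N) (fun c => by
    have h : algebraMap ℂ (TZ (Fin (N + 1))) c = MonoidAlgebra.single 1 c := by simp
    rw [h, uRing_single, map_one]
    rfl)

theorem uAlg_single (v : Multiplicative (Fin (N + 1) → ℤ)) (c : ℂ) :
    uAlg N (MonoidAlgebra.single v c) = MonoidAlgebra.single (gIso N v).1
      (MonoidAlgebra.single (gIso N v).2 c) := uRing_single N v c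

theorem tzMap_single {I J : Type} (f : (I → ℤ) →+ (J → ℤ)) (v : Multiplicative (I → ℤ)) (c : ℂ) :
    tzMap f (MonoidAlgebra.single v c) =
      MonoidAlgebra.single (Multiplicative.ofAdd (f (Multiplicative.toAdd v))) c := by
  unfold tzMap
  simp

theorem tz_ext {I : Type} {B : Type} [Ring B] [Algebra ℂ B] {f g : TZ I →ₐ[ℂ] B}
    (h : ∀ v c, f (MonoidAlgebra.single v c) = g (MonoidAlgebra.single v c)) : f = g := by
  refine AlgHom.ext fun x => ?_
  induction x using MonoidAlgebra.induction_linear with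
  | zero => rw [map_zero, map_zero]
  | add x y hx hy => rw [map_add, map_add, hx, hy]
  | single v c => exact h v c

/-- the same with values in the bundled Laurent algebra -/
noncomputable def uO : TZ (Fin (N + 1)) ≃ₐ[ℂ] lauOp.obj (TZ (Fin N)) := uAlg N

theorem uO_piZ_zero : (uO N).toAlgHom.comp (piZ 0) =
    ((lauOp.s (TZ (Fin N))).comp (lauOp.r (TZ (Fin N)))).comp (uO N).toAlgHom := by
  refine tz_ext fun v c => ?_
  change uAlg N (tzMap (kill 0) (MonoidAlgebra.single v c)) =
    MonoidAlgebra.single 1 (lauAug (TZ (Fin N)) (uAlg N (MonoidAlgebra.single v c)))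
  rw [tzMap_single, uAlg_single, uAlg_single, lauAug_single]
  have h1 : (gIso N (Multiplicative.ofAdd (kill 0 (Multiplicative.toAdd v)))).1 = 1 := by
    change Multiplicative.ofAdd (Function.update (Multiplicative.toAdd v) 0 0 0) = 1
    rw [Function.update_self]
    rfl
  have h2 : (gIso N (Multiplicative.ofAdd (kill 0 (Multiplicative.toAdd v)))).2 =
      (gIso N v).2 := by
    change Multiplicative.ofAdd (fun j : Fin N =>
      Function.update (Multiplicative.toAdd v) 0 0 j.succ) =
      Multiplicative.ofAdd (fun j : Fin N => Multiplicative.toAdd v j.succ)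
    congr 1
  rw [h1, h2]

theorem uO_piZ_succ (i : Fin N) : (uO N).toAlgHom.comp (piZ i.succ) =
    (lauOp.map (piZ i)).comp (uO N).toAlgHom := by
  refine tz_ext fun v c => ?_
  change uAlg N (tzMap (kill i.succ) (MonoidAlgebra.single v c)) =
    lf (piZ i).toRingHom (uAlg N (MonoidAlgebra.single v c))
  rw [tzMap_single, uAlg_single, uAlg_single]
  have h0 : lf (piZ i).toRingHom (MonoidAlgebra.single (gIso N v).1
      (MonoidAlgebra.single (gIso N v).2 c)) = MonoidAlgebra.single (gIso N v).1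
      (tzMap (kill i) (MonoidAlgebra.single (gIso N v).2 c)) := by
    refine MonoidAlgebra.ext (Finsupp.ext fun z => ?_)
    rw [lf_coeff]
    by_cases hz : z = (gIso N v).1
    · subst hz
      rw [MonoidAlgebra.coeff_single, MonoidAlgebra.coeff_single, Finsupp.single_eq_same,
        Finsupp.single_eq_same]
      rfl
    · rw [MonoidAlgebra.coeff_single, MonoidAlgebra.coeff_single, Finsupp.single_eq_of_ne hz,
        Finsupp.single_eq_of_ne hz, map_zero]
  rw [h0, tzMap_single]
  have h1 : (gIso N (Multiplicative.ofAdd (kill i.succ (Multiplicative.toAdd v)))).1 =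
      (gIso N v).1 := by
    change Multiplicative.ofAdd (Function.update (Multiplicative.toAdd v) i.succ 0 0) =
      Multiplicative.ofAdd (Multiplicative.toAdd v 0)
    rw [Function.update_of_ne (Fin.succ_ne_zero i).symm]
  have h2 : (gIso N (Multiplicative.ofAdd (kill i.succ (Multiplicative.toAdd v)))).2 =
      Multiplicative.ofAdd (kill i (Multiplicative.toAdd (gIso N v).2)) := by
    change Multiplicative.ofAdd (fun j : Fin N =>
      Function.update (Multiplicative.toAdd v) i.succ 0 j.succ) =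
      Multiplicative.ofAdd (Function.update (fun j : Fin N => Multiplicative.toAdd v j.succ) i 0)
    congr 1
    funext j
    by_cases hj : j = i
    · subst hj
      rw [Function.update_self, Function.update_self]
    · rw [Function.update_of_ne hj, Function.update_of_ne (fun h => hj (Fin.succ_injective _ h))]
  rw [h1, h2]

/-! ### Reduced parts -/

theorem mem_redZ {F : AlgFunctor} {I : Type} [DecidableEq I] {x : F.obj (TZ I)} :
    x ∈ redZ F I ↔ ∀ i, F.map (piZ i) x = 0 := Iff.rfl

/-- splitting off one variable -/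
theorem redZ_succ (F : AlgFunctor) :
    Nonempty (redZ F (Fin (N + 1)) ≃+ redZ (F.rel lauOp) (Fin N)) := by
  have hs : Function.Injective (F.map (lauOp.s (TZ (Fin N)))) := by
    intro x y h
    have h1 := congrArg (F.map (lauOp.r (TZ (Fin N)))) h
    rwa [map_map, map_map, lauOp.r_s, map_id, map_id] at h1
  have hu := map_bijective F (uO N)
  have h1 : ∀ x ∈ redZ F (Fin (N + 1)),
      F.map (lauOp.r (TZ (Fin N))) (F.map (uO N).toAlgHom x) = 0 := by
    intro x hx
    apply hs
    rw [map_map, map_map, map_zero, ← uO_piZ_zero, ← map_map, hx 0, map_zero]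
  let g : redZ F (Fin (N + 1)) →+ redZ (F.rel lauOp) (Fin N) :=
    (mkRel F lauOp (TZ (Fin N)) ((F.map (uO N).toAlgHom).comp
      (redZ F (Fin (N + 1))).subtype) (fun m => by
        rw [AddMonoidHom.comp_apply]
        exact h1 m.1 m.2)).codRestrict
      (redZ (F.rel lauOp) (Fin N)) (fun m i => by
        apply rv_injective F lauOp (TZ (Fin N))
        rw [rv_map, rv_mkRel, AddMonoidHom.comp_apply, map_map, ← uO_piZ_succ, ← map_map,
          map_zero]
        have h2 : F.map (piZ i.succ) ((redZ F (Fin (N + 1))).subtype m) = 0 := m.2 i.succ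
        rw [h2, map_zero])
  have hg : ∀ m, rv F lauOp (TZ (Fin N)) (g m).1 = F.map (uO N).toAlgHom m.1 := fun m => rfl
  refine ⟨AddEquiv.ofBijective g ⟨?_, ?_⟩⟩
  · intro x y hxy
    apply Subtype.ext
    apply hu.1
    rw [← hg, hxy, hg]
  · intro y
    obtain ⟨x, hx⟩ := hu.2 (rv F lauOp (TZ (Fin N)) y.1)
    have hx' : x ∈ redZ F (Fin (N + 1)) := by
      intro i
      apply hu.1
      rw [map_zero]
      refine Fin.cases ?_ (fun i => ?_) i
      · rw [map_map, uO_piZ_zero, ← map_map, hx, ← map_map, rv_ker, map_zero]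
      · rw [map_map, uO_piZ_succ, ← map_map, hx, ← rv_map]
        have h2 : (F.rel lauOp).map (piZ i) y.1 = 0 := y.2 i
        rw [h2, map_zero]
    refine ⟨⟨x, hx'⟩, ?_⟩
    apply Subtype.ext
    apply rv_injective F lauOp (TZ (Fin N))
    rw [hg, hx]

/-- natural isomorphisms and reduced parts -/
theorem redZ_congr {P : ACl} {F G : AlgFunctor} (a : NI P F G) (h : P (TZ (Fin N))) :
    Nonempty (redZ F (Fin N) ≃+ redZ G (Fin N)) := by
  let g : redZ F (Fin N) →+ redZ G (Fin N) :=
    ((a.e (TZ (Fin N)) h).comp (redZ F (Fin N)).subtype).codRestrict (redZ G (Fin N))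
      (fun m i => by
        rw [AddMonoidHom.comp_apply, a.nat h h]
        have h2 : F.map (piZ i) ((redZ F (Fin N)).subtype m) = 0 := m.2 i
        rw [h2, map_zero])
  have hg : ∀ m, (g m).1 = a.e (TZ (Fin N)) h m.1 := fun m => rfl
  refine ⟨AddEquiv.ofBijective g ⟨?_, ?_⟩⟩
  · intro x y hxy
    apply Subtype.ext
    apply (a.bij _ h).1
    rw [← hg, hxy, hg]
  · intro y
    obtain ⟨x, hx⟩ := (a.bij _ h).2 y.1
    have hx' : x ∈ redZ F (Fin N) := by
      intro i
      apply (a.bij _ h).1
      rw [map_zero, ← a.nat h h, hx]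
      exact y.2 i
    refine ⟨⟨x, hx'⟩, ?_⟩
    apply Subtype.ext
    rw [hg, hx]

theorem reg_C : MP_c052b4_al.IsRegularRing ℂ :=
  ⟨inferInstance, fun M _ _ h => ⟨0, h, inferInstance⟩⟩

theorem reg_TZ : MP_c052b4_al.IsRegularRing (TZ (Fin N)) := (nice_pi reg_C N).reg

theorem pl_TZ : PL (TZ (Fin N)) := pl_reg (reg_TZ N)

theorem redZ_KV : ∀ k N : ℕ, Nonempty (redZ (KV k) (Fin (N + (k + 1))) ≃+ redZ K0F (Fin N))
  | 0, N => by
    obtain ⟨e1⟩ := redZ_succ N (KV 0)
    obtain ⟨e2⟩ := redZ_congr N (niB PL fun A _ _ h => pl_sA h) (pl_TZ N)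
    exact ⟨e1.trans e2.symm⟩
  | k + 1, N => by
    obtain ⟨e1⟩ := redZ_succ (N + (k + 1)) (KV (k + 1))
    obtain ⟨e2⟩ := redZ_congr (N + (k + 1)) (chain k) (pl_TZ _)
    obtain ⟨e3⟩ := redZ_KV k N
    exact ⟨(e1.trans e2.symm).trans e3⟩

end Pool.Agent.Lib.MP_e7fbd4_ag.H44
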